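import Pool.Agent.Helper96.AF.ZI

/-!
# Project AF (MP_a499ba_nt), block E3

The mean of `hh`. PROOF of `av_exp`: induction on `S` (`av_insert`), `(e^c + e^(-c))/2 = cosh c ≤ exp (c^2/2)` (`Real.cosh_le_exp_half_sq`).
`av_hh`: `hh l T t = exp (∑ sg T p * th p t) * exp (- ∑ th p t ^2)`, so the average is `≤ exp (- (1/2) ∑ th p t ^2)`, and `theta_lower` (Z1);
`exp ((C/2) (1 + log (2+|t|))) ≤ C' (2+|t|)^C'` with a natural number `C'`.
-/

set_option autoImplicit false

namespace Pool.Agent.Helper96.AF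

open Finset Pool.Agent.Helper5.RM

theorem av_exp (S : Finset ℕ) (c : ℕ → ℝ) :
    av S (fun T => Real.exp (∑ p ∈ S, sg T p * c p)) ≤ Real.exp ((∑ p ∈ S, c p ^ 2) / 2) := by
  induction S using Finset.induction_on with
  | empty => simp [av_empty]
  | insert q S hq ih =>
    have hT : ∀ T ⊆ S, Real.exp (∑ p ∈ insert q S, sg T p * c p) =
        Real.exp (c q) * Real.exp (∑ p ∈ S, sg T p * c p) := by
      intro T hT
      rw [Finset.sum_insert hq, sg_not_mem (fun h => hq (hT h)), one_mul, Real.exp_add]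
    have hT' : ∀ T ⊆ S, Real.exp (∑ p ∈ insert q S, sg (insert q T) p * c p) =
        Real.exp (-c q) * Real.exp (∑ p ∈ S, sg T p * c p) := by
      intro T hT
      have h1 : ∑ p ∈ S, sg (insert q T) p * c p = ∑ p ∈ S, sg T p * c p := by
        refine Finset.sum_congr rfl fun p hp => ?_
        have hne : p ≠ q := fun h => hq (h ▸ hp)
        rw [sg_insert_of_ne hne]
      rw [Finset.sum_insert hq, sg_mem (Finset.mem_insert_self q T), h1, neg_one_mul, Real.exp_add]
    rw [av_insert hq, av_congr hT, av_congr hT', av_mul_left, av_mul_left]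
    have h2 : (Real.exp (c q) * av S (fun T => Real.exp (∑ p ∈ S, sg T p * c p)) +
        Real.exp (-c q) * av S (fun T => Real.exp (∑ p ∈ S, sg T p * c p))) / 2 =
        Real.cosh (c q) * av S (fun T => Real.exp (∑ p ∈ S, sg T p * c p)) := by
      rw [Real.cosh_eq]
      ring
    rw [h2, Finset.sum_insert hq, add_div, Real.exp_add]
    exact mul_le_mul (Real.cosh_le_exp_half_sq _) ih
      (av_nonneg fun T _ => (Real.exp_pos _).le) (Real.exp_pos _).le

theorem av_hh : ∃ B : ℕ, 1 ≤ B ∧ ∀ (l : ℕ) (t : ℝ),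
    av (PP (Y l)) (fun T => hh l T t) ≤ B * (2 + |t|) ^ B / 2 ^ l := by
  obtain ⟨C, hC, h⟩ := theta_lower
  obtain ⟨B, hB⟩ := exists_nat_ge (Real.exp (C / 2) + C / 2 + 1)
  have hB1 : 1 ≤ B := by
    have h1 : (1 : ℝ) ≤ B := by
      have := Real.exp_pos (C / 2)
      linarith
    exact_mod_cast h1
  refine ⟨B, hB1, fun l t => ?_⟩
  set V := ∑ p ∈ PP (Y l), th p t ^ 2 with hV
  have h1 : av (PP (Y l)) (fun T => hh l T t) ≤ Real.exp (-V / 2) := by
    have e1 : av (PP (Y l)) (fun T => hh l T t) =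
        Real.exp (-V) * av (PP (Y l)) (fun T => Real.exp (∑ p ∈ PP (Y l), sg T p * th p t)) := by
      rw [← av_mul_left]
      refine av_congr fun T _ => ?_
      unfold hh
      rw [Finset.sum_sub_distrib, ← hV, ← Real.exp_add]
      congr 1
      ring
    rw [e1]
    calc Real.exp (-V) * av (PP (Y l)) (fun T => Real.exp (∑ p ∈ PP (Y l), sg T p * th p t)) ≤
        Real.exp (-V) * Real.exp (V / 2) :=
          mul_le_mul_of_nonneg_left (av_exp _ _) (Real.exp_pos _).le
      _ = Real.exp (-V / 2) := by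
          rw [← Real.exp_add]
          congr 1
          ring
  have ht : (2 : ℝ) ≤ 2 + |t| := by linarith [abs_nonneg t]
  have ht0 : (0 : ℝ) < 2 + |t| := by linarith
  have h2 : Real.exp (-V / 2) ≤ Real.exp (-(l * Real.log 2) + (C / 2) * (1 + Real.log (2 + |t|))) := by
    refine Real.exp_le_exp.2 ?_
    have := h l t
    rw [← hV] at this
    linarith
  refine h1.trans (h2.trans ?_)
  rw [Real.exp_add, Real.exp_neg, ← Real.log_pow, Real.exp_log (by positivity), mul_add, mul_one, Real.exp_add,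
    div_eq_inv_mul ((B : ℝ) * (2 + |t|) ^ B) (2 ^ l)]
  have h0 : (0 : ℝ) ≤ ((2 : ℝ) ^ l)⁻¹ := by positivity
  refine mul_le_mul_of_nonneg_left ?_ h0
  have h3 : Real.exp (C / 2 * Real.log (2 + |t|)) ≤ (2 + |t|) ^ B := by
    have e1 : (2 + |t|) ^ B = Real.exp (B * Real.log (2 + |t|)) := by
      rw [← Real.log_pow]
      exact (Real.exp_log (pow_pos ht0 B)).symm
    rw [e1]
    refine Real.exp_le_exp.2 (mul_le_mul_of_nonneg_right ?_ (Real.log_nonneg (by linarith)))
    have := Real.exp_pos (C / 2)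
    linarith
  have h4 : Real.exp (C / 2) ≤ B := by linarith
  exact mul_le_mul h4 h3 (Real.exp_pos (C / 2 * Real.log (2 + |t|))).le (Nat.cast_nonneg B)

end Pool.Agent.Helper96.AF
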