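import Pool.Agent.Helper96.AF.Bas
import Pool.Agent.Helper66.AF.ZM
import Pool.Agent.Helper66.AF.BT

/-!
# Project AF, number-theoretic input (owner: helper66)
-/

set_option autoImplicit false

namespace Pool.Agent.Helper96.AF

open Finset Pool.Agent.Helper5.RM

lemma three_le_Y {l : ℕ} (hl : 1 ≤ l) : 3 ≤ Y l := by
  have h := Y_mono hl
  have h1 : Y 1 = 4 := by unfold Y; norm_num
  omega

lemma loglog_Y (l : ℕ) : Real.log (Real.log (Y l)) = l * Real.log 2 + Real.log (Real.log 2) := by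
  have h2 : 0 < Real.log 2 := Real.log_pos (by norm_num)
  rw [log_Y, Real.log_mul (by positivity) h2.ne', Real.log_pow]

/-- `th p t ^ 2 ≥ 2/p + 2 cos (2 t log p)/p - 8/p^2` -/
lemma th_sq_lower {p : ℕ} (hp : 2 ≤ p) (t : ℝ) :
    2 * ((1 : ℝ) / p) + 2 * (Real.cos ((2 * t) * Real.log p) / p) - 8 * (1 / (p : ℝ) ^ 2) ≤ th p t ^ 2 := by
  have hp0 : (2 : ℝ) ≤ p := by exact_mod_cast hp
  have hp1 : (0 : ℝ) < p := by linarith
  have hc : Real.cos ((2 * t) * Real.log p) = 2 * Real.cos (t * Real.log p) ^ 2 - 1 := by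
    rw [← Real.cos_two_mul]
    congr 1
    ring
  set c := Real.cos (t * Real.log p) with hcdef
  have hc1 : c ^ 2 ≤ 1 := by
    rw [hcdef]
    exact Real.cos_sq_le_one _
  have hc0 : 0 ≤ c ^ 2 := sq_nonneg c
  rw [hc]
  unfold th
  rw [← hcdef, div_pow, mul_pow, mul_pow, Real.sq_sqrt hp1.le]
  have e1 : 2 * ((1 : ℝ) / p) + 2 * ((2 * c ^ 2 - 1) / p) - 8 * (1 / (p : ℝ) ^ 2) = (4 * c ^ 2 * p - 8) / (p : ℝ) ^ 2 := by
    field_simp
    ring
  rw [e1, div_le_div_iff₀ (by positivity) (by positivity)]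
  have hx : 0 ≤ 1 - c ^ 2 := by linarith
  have e2 : 2 ^ 2 * (p : ℝ) * c ^ 2 * (p : ℝ) ^ 2 - (4 * c ^ 2 * p - 8) * ((p : ℝ) + 1) ^ 2 =
      8 * ((p : ℝ) + 1) ^ 2 - 4 * c ^ 2 * p * (2 * p + 1) := by ring
  nlinarith [mul_nonneg hx (show 0 ≤ 4 * (p : ℝ) * (2 * p + 1) by positivity)]

/-- Z1: lower bound for the variance, `th p t ^ 2 = 4 p cos^2 (t log p) / (p+1)^2`,
`4 cos^2 x = 2 + 2 cos 2x`; Mertens and `∑_{p ≤ y} cos (t log p) / p ≥ - C (1 + log (2+|t|))` -/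
theorem theta_lower : ∃ C : ℝ, 0 ≤ C ∧ ∀ (l : ℕ) (t : ℝ),
    2 * l * Real.log 2 - C * (1 + Real.log (2 + |t|)) ≤ ∑ p ∈ PP (Y l), th p t ^ 2 := by
  obtain ⟨C1, hC1, h1⟩ := Helper66.AF.mertens_lower
  obtain ⟨C3, hC3, h3⟩ := Helper66.AF.cos_lower
  have hC2 := Helper66.AF.C2_nonneg
  have h2 : 0 ≤ Real.log 2 := Real.log_nonneg (by norm_num)
  set C := 2 * C1 + 2 * |Real.log (Real.log 2)| + 2 * C3 * (1 + Real.log 2) + 8 * Helper66.AF.C2 with hC
  have hC0 : 0 ≤ C := by positivity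
  refine ⟨C, hC0, fun l t => ?_⟩
  have ht := abs_nonneg t
  have hlt : 0 ≤ Real.log (2 + |t|) := Real.log_nonneg (by linarith)
  rcases Nat.eq_zero_or_pos l with rfl | hl
  · have e1 : 0 ≤ ∑ p ∈ PP (Y 0), th p t ^ 2 := Finset.sum_nonneg fun p _ => sq_nonneg _
    have e2 : 0 ≤ C * (1 + Real.log (2 + |t|)) := by positivity
    push_cast
    linarith
  · have hy := three_le_Y hl
    have e1 : ∑ p ∈ PP (Y l), (2 * ((1 : ℝ) / p) + 2 * (Real.cos ((2 * t) * Real.log p) / p) - 8 * (1 / (p : ℝ) ^ 2)) ≤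
        ∑ p ∈ PP (Y l), th p t ^ 2 := Finset.sum_le_sum fun p hp => th_sq_lower (two_le_of_mem_PP hp) t
    rw [Finset.sum_sub_distrib, Finset.sum_add_distrib, ← Finset.mul_sum, ← Finset.mul_sum, ← Finset.mul_sum] at e1
    have e2 := h1 (Y l) hy
    have e3 := h3 (Y l) hy (2 * t)
    have e4 := Helper66.AF.sum_sq_le (PP (Y l))
    rw [loglog_Y] at e2
    have e5 : Real.log (2 + |2 * t|) ≤ Real.log 2 + Real.log (2 + |t|) := by
      rw [← Real.log_mul (by norm_num) (by positivity), abs_mul, abs_of_pos (by norm_num : (0 : ℝ) < 2)]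
      exact Real.log_le_log (by positivity) (by linarith)
    have e6 := neg_abs_le (Real.log (Real.log 2))
    have e7 := abs_nonneg (Real.log (Real.log 2))
    have e8 : C3 * (1 + Real.log (2 + |2 * t|)) ≤ C3 * (1 + Real.log 2 + Real.log (2 + |t|)) :=
      mul_le_mul_of_nonneg_left (by linarith) hC3
    have e9 : 2 * C1 + 2 * |Real.log (Real.log 2)| + 2 * (C3 * (1 + Real.log 2 + Real.log (2 + |t|))) + 8 * Helper66.AF.C2 ≤
        C * (1 + Real.log (2 + |t|)) := by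
      rw [hC]
      nlinarith [mul_nonneg hC1 hlt, mul_nonneg e7 hlt, mul_nonneg hC2 hlt, mul_nonneg (mul_nonneg hC3 h2) hlt]
    linarith

/-- Z2: Mertens, upper bound, constants only -/
theorem mertens_prod : ∃ C : ℝ, 0 < C ∧ ∀ r : ℕ, ∏ p ∈ PP (Y r), (1 + (1 : ℝ) / p) ≤ C * 2 ^ r := by
  obtain ⟨C1, hC1, h1⟩ := Helper66.AF.mertens_upper
  have key : ∀ r : ℕ, ∏ p ∈ PP (Y r), (1 + (1 : ℝ) / p) ≤ Real.exp (∑ p ∈ PP (Y r), (1 : ℝ) / p) := by
    intro r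
    rw [Real.exp_sum]
    refine Finset.prod_le_prod (fun p _ => by positivity) fun p _ => ?_
    have := Real.add_one_le_exp ((1 : ℝ) / p)
    linarith
  refine ⟨Real.exp (C1 + |Real.log (Real.log 2)|) + Real.exp (∑ p ∈ PP (Y 0), (1 : ℝ) / p), by positivity, fun r => ?_⟩
  refine (key r).trans ?_
  rcases Nat.eq_zero_or_pos r with rfl | hr
  · rw [pow_zero, mul_one]
    linarith [Real.exp_pos (C1 + |Real.log (Real.log 2)|)]
  · have e1 := h1 (Y r) (three_le_Y hr)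
    rw [loglog_Y] at e1
    have e2 := le_abs_self (Real.log (Real.log 2))
    calc Real.exp (∑ p ∈ PP (Y r), (1 : ℝ) / p) ≤ Real.exp ((C1 + |Real.log (Real.log 2)|) + r * Real.log 2) :=
          Real.exp_le_exp.2 (by linarith)
      _ = Real.exp (C1 + |Real.log (Real.log 2)|) * 2 ^ r := by
          rw [Real.exp_add, ← Real.log_pow, Real.exp_log (by positivity)]
      _ ≤ _ := by
          refine mul_le_mul_of_nonneg_right ?_ (by positivity)
          linarith [Real.exp_pos (∑ p ∈ PP (Y 0), (1 : ℝ) / p)]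

/-- Z3: the sum over a block -/
theorem block_sum : ∃ C : ℝ, 0 ≤ C ∧ ∀ r : ℕ, ∑ p ∈ BL r, (1 : ℝ) / p ≤ C := by
  obtain ⟨C1, hC1, h1⟩ := Helper66.AF.mertens_upper
  obtain ⟨C3, hC3, h3⟩ := Helper66.AF.mertens_lower
  have h2 : 0 ≤ Real.log 2 := Real.log_nonneg (by norm_num)
  have h0 : 0 ≤ ∑ p ∈ PP (Y 1), (1 : ℝ) / p := Finset.sum_nonneg fun p _ => by positivity
  refine ⟨C1 + C3 + Real.log 2 + ∑ p ∈ PP (Y 1), (1 : ℝ) / p, by positivity, fun r => ?_⟩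
  have e0 : ∑ p ∈ BL r, (1 : ℝ) / p + ∑ p ∈ PP (Y r), (1 : ℝ) / p = ∑ p ∈ PP (Y (r + 1)), (1 : ℝ) / p := by
    unfold BL
    exact Finset.sum_sdiff (PP_Y_mono (Nat.le_succ r))
  rcases Nat.eq_zero_or_pos r with rfl | hr
  · have e1 : 0 ≤ ∑ p ∈ PP (Y 0), (1 : ℝ) / p := Finset.sum_nonneg fun p _ => by positivity
    linarith
  · have e1 := h1 (Y (r + 1)) (three_le_Y (by omega))
    have e2 := h3 (Y r) (three_le_Y hr)
    rw [loglog_Y] at e1 e2
    push_cast at e1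
    linarith

/-- Z4: Mertens' first theorem, upper bound -/
theorem logp_sum : ∃ C : ℝ, 0 ≤ C ∧ ∀ y : ℕ, 1 ≤ y → ∑ p ∈ PP y, Real.log p / p ≤ C * (1 + Real.log y) := by
  have h4 : 0 ≤ Real.log 4 := Real.log_nonneg (by norm_num)
  refine ⟨Real.log 4 + 4, by linarith, fun y hy => ?_⟩
  have h1 := Helper66.AF.logp_le hy
  have hy0 : (1 : ℝ) ≤ y := by exact_mod_cast hy
  have h2 := Real.log_nonneg hy0
  nlinarith [mul_nonneg h4 h2]

/-- Z5: Brun-Titchmarsh with any constant -/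
theorem brun_titchmarsh : ∃ C : ℝ, 0 < C ∧ ∀ u h : ℕ, 2 ≤ h →
    (((Finset.Ioc u (u + h)).filter Nat.Prime).card : ℝ) ≤ C * (h / Real.log h) := by
  exact Helper66.AF.BT.brun_titchmarsh

end Pool.Agent.Helper96.AF
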