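import Pool.Agent.Helper96.AF.Defs

/-!
# Project AF, basic lemmas
-/

set_option autoImplicit false

namespace Pool.Agent.Helper96.AF

open Finset Pool.Agent.Helper5.RM

lemma two_le_Y (r : ℕ) : 2 ≤ Y r := by
  have h := Y_mono (Nat.zero_le r)
  unfold Y at h ⊢
  simpa using h

lemma Y_succ (r : ℕ) : Y (r + 1) = Y r ^ 2 := by
  unfold Y
  rw [← pow_mul, pow_succ]

lemma Y_strictMono {r s : ℕ} (h : r < s) : Y r < Y s := by
  unfold Y
  exact Nat.pow_lt_pow_right (by norm_num) (Nat.pow_lt_pow_right (by norm_num) h)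

lemma log_Y (r : ℕ) : Real.log (Y r) = 2 ^ r * Real.log 2 := by
  unfold Y
  push_cast
  rw [Real.log_pow]
  push_cast
  ring

lemma PP_mono {M N : ℕ} (h : M ≤ N) : PP M ⊆ PP N := by
  intro p hp
  rw [mem_PP] at hp ⊢
  exact ⟨hp.1, hp.2.trans h⟩

lemma PP_Y_mono {r s : ℕ} (h : r ≤ s) : PP (Y r) ⊆ PP (Y s) := PP_mono (Y_mono h)

lemma mem_BL {r p : ℕ} : p ∈ BL r ↔ p.Prime ∧ Y r < p ∧ p ≤ Y (r + 1) := by
  unfold BL
  rw [Finset.mem_sdiff, mem_PP, mem_PP]
  constructor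
  · rintro ⟨⟨h1, h2⟩, h3⟩
    refine ⟨h1, ?_, h2⟩
    by_contra h4
    exact h3 ⟨h1, not_lt.1 h4⟩
  · rintro ⟨h1, h2, h3⟩
    exact ⟨⟨h1, h3⟩, fun h => absurd h.2 (not_le.2 h2)⟩

lemma BL_disj (r : ℕ) : Disjoint (PP (Y r)) (BL r) := by
  unfold BL
  exact Finset.disjoint_sdiff

lemma PP_Y_succ (r : ℕ) : PP (Y (r + 1)) = PP (Y r) ∪ BL r := by
  unfold BL
  rw [Finset.union_sdiff_of_subset (PP_Y_mono (Nat.le_succ r))]

lemma mem_SM {y z n : ℕ} : n ∈ SM y z ↔ (1 ≤ n ∧ n ≤ z) ∧ ∀ p ∈ n.primeFactors, p < y := by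
  unfold SM
  rw [Finset.mem_filter, Finset.mem_Icc]

/-- `sg` only depends on membership -/
lemma sg_congr {T T' : Finset ℕ} {p : ℕ} (h : p ∈ T ↔ p ∈ T') : sg T p = sg T' p := by
  unfold sg
  simp only [h]

lemma rf_congr {T T' : Finset ℕ} {n : ℕ} (h : ∀ p ∈ n.primeFactors, (p ∈ T ↔ p ∈ T')) : rf T n = rf T' n := by
  unfold rf wal
  split_ifs with hs
  · exact Finset.prod_congr rfl fun p hp => sg_congr (h p hp)
  · rfl

/-- `NN T y z` only depends on the primes `< y` and `≤ z` in `T` -/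
lemma NN_congr {T T' : Finset ℕ} {y z : ℕ} (h : ∀ p, p.Prime → p < y → p ≤ z → (p ∈ T ↔ p ∈ T')) :
    NN T y z = NN T' y z := by
  unfold NN
  refine Finset.sum_congr rfl fun n hn => rf_congr fun p hp => ?_
  rw [mem_SM] at hn
  exact h p (Nat.prime_of_mem_primeFactors hp) (hn.2 p hp)
    ((Nat.le_of_mem_primeFactors hp).trans hn.1.2)

lemma MM_congr {T T' : Finset ℕ} {N : ℕ} (h : ∀ p, p.Prime → p ≤ N → (p ∈ T ↔ p ∈ T')) :
    MM T N = MM T' N := by
  unfold MM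
  refine Finset.sum_congr rfl fun n hn => rf_congr fun p hp => ?_
  rw [Finset.mem_Icc] at hn
  exact h p (Nat.prime_of_mem_primeFactors hp) ((Nat.le_of_mem_primeFactors hp).trans hn.2)

lemma NN_pred (y z : ℕ) : Pred y (fun T => NN T y z) := by
  intro T
  refine NN_congr fun p _ hp _ => ?_
  simp [hp]

lemma GG_nonneg (r : ℕ) (T : Finset ℕ) (n : ℕ) : 0 ≤ GG r T n := by
  unfold GG
  refine le_trans (sq_nonneg (NN T (Y r + 1) n)) (Finset.le_sup' (fun y => NN T y n ^ 2) ?_)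
  rw [Finset.mem_Icc]
  exact ⟨le_rfl, Nat.succ_le_succ (Y_mono (Nat.le_succ r))⟩

lemma le_GG {r y : ℕ} (T : Finset ℕ) (n : ℕ) (h1 : Y r < y) (h2 : y ≤ Y (r + 1) + 1) :
    NN T y n ^ 2 ≤ GG r T n := by
  unfold GG
  exact Finset.le_sup' (fun y => NN T y n ^ 2) (Finset.mem_Icc.2 ⟨h1, h2⟩)

lemma GG_congr {r : ℕ} {T T' : Finset ℕ} {n : ℕ}
    (h : ∀ p, p.Prime → p ≤ Y (r + 1) → p ≤ n → (p ∈ T ↔ p ∈ T')) : GG r T n = GG r T' n := by
  unfold GG
  refine Finset.sup'_congr (GG_ne r) rfl fun y hy => ?_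
  rw [Finset.mem_Icc] at hy
  rw [NN_congr (T := T) (T' := T') fun p hp h1 h2 => h p hp (by omega) h2]

lemma JJ_nonneg (r Z : ℕ) (T : Finset ℕ) : 0 ≤ JJ r Z T := by
  unfold JJ
  refine div_nonneg (Finset.sum_nonneg fun n _ => ?_) (by positivity)
  have := GG_nonneg r T n
  positivity

lemma JJ_mono {r Z Z' : ℕ} (h : Z ≤ Z') (T : Finset ℕ) : JJ r Z T ≤ JJ r Z' T := by
  unfold JJ
  refine div_le_div_of_nonneg_right ?_ (by positivity)
  refine Finset.sum_le_sum_of_subset_of_nonneg (Finset.Icc_subset_Icc le_rfl h) fun n _ _ => ?_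
  have := GG_nonneg r T n
  positivity

lemma JJ_congr {r Z : ℕ} {T T' : Finset ℕ}
    (h : ∀ p, p.Prime → p ≤ Y (r + 1) → p ≤ Z → (p ∈ T ↔ p ∈ T')) : JJ r Z T = JJ r Z T' := by
  unfold JJ
  congr 1
  refine Finset.sum_congr rfl fun n hn => ?_
  rw [Finset.mem_Icc] at hn
  rw [GG_congr (T := T) (T' := T') fun p hp h1 h2 => h p hp h1 (h2.trans hn.2)]

lemma II_nonneg (r Z : ℕ) (T : Finset ℕ) : 0 ≤ II r Z T := by
  unfold II
  refine div_nonneg (Finset.sum_nonneg fun n _ => ?_) (by positivity)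
  positivity

lemma II_congr {r Z : ℕ} {T T' : Finset ℕ} (h : ∀ p, p.Prime → p ≤ Y r → (p ∈ T ↔ p ∈ T')) :
    II r Z T = II r Z T' := by
  unfold II
  congr 1
  refine Finset.sum_congr rfl fun n _ => ?_
  rw [NN_congr (T := T) (T' := T') fun p hp h1 _ => h p hp (by omega)]

/-! ### the coefficients `th` -/

lemma abs_th_le (p : ℕ) (t : ℝ) : |th p t| ≤ 2 * Real.sqrt p / (p + 1) := by
  unfold th
  have h1 : (0 : ℝ) ≤ 2 * Real.sqrt p := by positivity
  have h2 : (0 : ℝ) < (p : ℝ) + 1 := by positivity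
  rw [abs_div, abs_mul, abs_of_nonneg h1, abs_of_pos h2]
  exact div_le_div_of_nonneg_right (mul_le_of_le_one_right h1 (Real.abs_cos_le_one _)) h2.le

lemma th_sq_le {p : ℕ} (hp : 2 ≤ p) (t : ℝ) : th p t ^ 2 ≤ 8 / 9 := by
  have h0 : (2 : ℝ) ≤ p := by exact_mod_cast hp
  have h1 : th p t ^ 2 ≤ (2 * Real.sqrt p / (p + 1)) ^ 2 := by
    rw [← sq_abs]
    exact pow_le_pow_left₀ (abs_nonneg _) (abs_th_le p t) 2
  refine h1.trans ?_
  rw [div_pow, mul_pow, Real.sq_sqrt (by positivity), div_le_div_iff₀ (by positivity) (by norm_num)]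
  nlinarith

lemma th_sq_le' {p : ℕ} (hp : 1 ≤ p) (t : ℝ) : th p t ^ 2 ≤ 4 / p := by
  have h0 : (1 : ℝ) ≤ p := by exact_mod_cast hp
  have h1 : th p t ^ 2 ≤ (2 * Real.sqrt p / (p + 1)) ^ 2 := by
    rw [← sq_abs]
    exact pow_le_pow_left₀ (abs_nonneg _) (abs_th_le p t) 2
  refine h1.trans ?_
  rw [div_pow, mul_pow, Real.sq_sqrt (by positivity), div_le_div_iff₀ (by positivity) (by positivity)]
  nlinarith

lemma abs_th_lt_one {p : ℕ} (hp : 2 ≤ p) (t : ℝ) : |th p t| < 1 := by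
  have h := th_sq_le hp t
  rw [← sq_abs] at h
  nlinarith [abs_nonneg (th p t)]

lemma fac_pos {p : ℕ} (hp : 2 ≤ p) (T : Finset ℕ) (t : ℝ) : 0 < 1 + sg T p * th p t := by
  have h := abs_th_lt_one hp t
  have h1 : |sg T p * th p t| < 1 := by rw [abs_mul, abs_sg, one_mul]; exact h
  have := (abs_lt.1 h1).1
  linarith

lemma dd_pos {S : Finset ℕ} (hS : ∀ p ∈ S, 2 ≤ p) (T : Finset ℕ) (t : ℝ) : 0 < dd S T t := by
  unfold dd
  exact Finset.prod_pos fun p hp => fac_pos (hS p hp) T t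

lemma dd_nonneg {S : Finset ℕ} (hS : ∀ p ∈ S, 2 ≤ p) (T : Finset ℕ) (t : ℝ) : 0 ≤ dd S T t := (dd_pos hS T t).le

lemma two_le_of_mem_PP {N p : ℕ} (h : p ∈ PP N) : 2 ≤ p := (mem_PP.1 h).1.two_le

lemma ww_pos (t : ℝ) : 0 < ww t := by
  unfold ww
  have := Real.pi_pos
  positivity

lemma continuous_th (p : ℕ) : Continuous (th p) := by
  unfold th
  fun_prop

lemma continuous_dd (S T : Finset ℕ) : Continuous (dd S T) := by
  unfold dd
  refine continuous_finsetProd _ fun p _ => ?_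
  have := continuous_th p
  fun_prop

lemma continuous_hh (l : ℕ) (T : Finset ℕ) : Continuous (hh l T) := by
  unfold hh
  refine Real.continuous_exp.comp (continuous_finsetSum _ fun p _ => ?_)
  have := continuous_th p
  fun_prop

lemma continuous_ww : Continuous ww := by
  unfold ww
  refine Continuous.div continuous_const (by fun_prop) fun t => ?_
  have := Real.pi_pos
  positivity

/-! ### averages over disjoint unions -/

/-- iterated averages -/
lemma av_union {S S' : Finset ℕ} (h : Disjoint S S') (F : Finset ℕ → ℝ) :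
    av (S ∪ S') F = av S (fun T => av S' (fun T' => F (T ∪ T'))) := by
  induction S using Finset.induction_on generalizing F with
  | empty => simp [av_empty]
  | insert q S hq ih =>
    rw [Finset.disjoint_insert_left] at h
    rw [Finset.insert_union, av_insert (by simp [hq, h.1]), av_insert hq, ih h.2, ih h.2]
    congr 2
    refine av_congr fun T _ => ?_
    simp [Finset.insert_union]

end Pool.Agent.Helper96.AF
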