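import Pool.Agent.Helper96.AF.Bas

/-!
# Project AF (MP_a499ba_nt), block E1b

PROOF: let `Z' ≥ Z` and `Z' ≥ m` for all `m ∈ s` with `f m ≠ 0`, ... (take `Z' = max Z (s.sup id)`). The left side increases with `Z` (squares), and for `Z'`:
`∑_{n ≤ Z'} (∑_{m ∈ s, m ≤ n} f m)^2/(n (n+1)) = ∑_{m, m'} f m f m' ∑_{max (m,m') ≤ n ≤ Z'} 1/(n (n+1)) =
∑_{m, m'} f m f m' (1/max (m,m') - 1/(Z'+1)) = ∑ f m f m'/max (m,m') - (∑ f m)^2/(Z'+1)`.
-/

set_option autoImplicit false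

namespace Pool.Agent.Helper96.AF

open Finset Pool.Agent.Helper5.RM

/-- telescoping sum -/
private lemma tele (M : ℕ) (hM : 1 ≤ M) (d : ℕ) :
    ∑ n ∈ Finset.Icc 1 (M - 1 + d), (if M ≤ n then 1 / ((n : ℝ) * (n + 1)) else 0) =
      1 / (M : ℝ) - 1 / (((M - 1 + d : ℕ) : ℝ) + 1) := by
  induction d with
  | zero =>
    rw [add_zero, Finset.sum_eq_zero]
    · have : ((M - 1 : ℕ) : ℝ) + 1 = M := by
        have h : M - 1 + 1 = M := by omega
        exact_mod_cast h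
      rw [this, sub_self]
    · intro n hn
      rw [Finset.mem_Icc] at hn
      rw [if_neg (by omega)]
  | succ d ih =>
    rw [← add_assoc, Finset.sum_Icc_succ_top (by omega), ih, if_pos (by omega)]
    have h1 : (0 : ℝ) < ((M - 1 + d : ℕ) : ℝ) + 1 := by positivity
    have h2 : (0 : ℝ) < (M : ℝ) := by exact_mod_cast hM
    generalize hx : ((M - 1 + d : ℕ) : ℝ) = x at *
    have h3 : ((M - 1 + d + 1 : ℕ) : ℝ) = x + 1 := by rw [← hx]; push_cast; ring
    rw [h3]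
    have h4 : (0 : ℝ) < x + 1 + 1 := by linarith
    field_simp
    ring

theorem double_max (s : Finset ℕ) (hs : ∀ m ∈ s, 1 ≤ m) (f : ℕ → ℝ) (Z : ℕ) :
    ∑ n ∈ Finset.Icc 1 Z, (∑ m ∈ s.filter (· ≤ n), f m) ^ 2 / ((n : ℝ) * (n + 1)) ≤
      ∑ m ∈ s, ∑ m' ∈ s, f m * f m' / ((max m m' : ℕ) : ℝ) := by
  set Z' := max Z (s.sup id) with hZ'
  have hle : ∀ m ∈ s, m ≤ Z' := fun m hm => (Finset.le_sup (f := id) hm).trans (le_max_right _ _)
  have h1 : ∑ n ∈ Finset.Icc 1 Z, (∑ m ∈ s.filter (· ≤ n), f m) ^ 2 / ((n : ℝ) * (n + 1)) ≤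
      ∑ n ∈ Finset.Icc 1 Z', (∑ m ∈ s.filter (· ≤ n), f m) ^ 2 / ((n : ℝ) * (n + 1)) := by
    apply Finset.sum_le_sum_of_subset_of_nonneg
    · exact Finset.Icc_subset_Icc_right (le_max_left _ _)
    · intro n _ _
      positivity
  refine h1.trans ?_
  have h2 : ∀ n ∈ Finset.Icc 1 Z', (∑ m ∈ s.filter (· ≤ n), f m) ^ 2 / ((n : ℝ) * (n + 1)) =
      ∑ m ∈ s, ∑ m' ∈ s, f m * f m' * (if max m m' ≤ n then 1 / ((n : ℝ) * (n + 1)) else 0) := by
    intro n _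
    rw [Finset.sum_filter, sq, Finset.sum_mul_sum, Finset.sum_div]
    apply Finset.sum_congr rfl
    intro m _
    rw [Finset.sum_div]
    apply Finset.sum_congr rfl
    intro m' _
    by_cases ha : m ≤ n
    · by_cases hb : m' ≤ n
      · rw [if_pos ha, if_pos hb, if_pos (max_le ha hb)]
        ring
      · rw [if_neg hb, if_neg (fun h => hb ((le_max_right _ _).trans h))]
        ring
    · rw [if_neg ha, if_neg (fun h => ha ((le_max_left _ _).trans h))]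
      ring
  rw [Finset.sum_congr rfl h2, Finset.sum_comm]
  have h3 : ∀ m ∈ s, ∑ n ∈ Finset.Icc 1 Z', ∑ m' ∈ s, f m * f m' *
      (if max m m' ≤ n then 1 / ((n : ℝ) * (n + 1)) else 0) =
      ∑ m' ∈ s, (f m * f m' / ((max m m' : ℕ) : ℝ) - f m * f m' / ((Z' : ℝ) + 1)) := by
    intro m hm
    rw [Finset.sum_comm]
    apply Finset.sum_congr rfl
    intro m' hm'
    rw [← Finset.mul_sum]
    have hM : 1 ≤ max m m' := (hs m hm).trans (le_max_left _ _)
    have hMZ : max m m' ≤ Z' := max_le (hle m hm) (hle m' hm')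
    have ht := tele (max m m') hM (Z' - (max m m' - 1))
    have e : max m m' - 1 + (Z' - (max m m' - 1)) = Z' := by omega
    rw [e] at ht
    rw [ht]
    ring
  rw [Finset.sum_congr rfl h3]
  simp_rw [Finset.sum_sub_distrib]
  have h4 : ∑ m ∈ s, ∑ m' ∈ s, f m * f m' / ((Z' : ℝ) + 1) = (∑ m ∈ s, f m) ^ 2 / ((Z' : ℝ) + 1) := by
    rw [sq, Finset.sum_mul_sum, Finset.sum_div]
    apply Finset.sum_congr rfl
    intro m _
    rw [Finset.sum_div]
  rw [h4]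
  have h5 : 0 ≤ (∑ m ∈ s, f m) ^ 2 / ((Z' : ℝ) + 1) := by positivity
  linarith

end Pool.Agent.Helper96.AF
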