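import Mathlib.Analysis.Fourier.Inversion
import Pool.Agent.Helper96.AF.Bas

/-!
# Project AF (MP_a499ba_nt), block E1a

The Fourier transform of the Cauchy distribution. PROOF: `∫ exp (-|x|/2) exp (-i t x) dx = 1/(1/4 + t^2)` (two half lines), then Fourier inversion
(`MeasureTheory.Integrable.fourierInv_fourier_eq` or `Continuous.fourierInv_fourier_eq`; the function `exp (-|x|/2)` is continuous and integrable, its Fourier
transform is integrable), real part. (Any other proof is fine. Mathlib `integrable_inv_one_add_sq`, `integral_univ_inv_one_add_sq` give the integral of `ww`.)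
-/

set_option autoImplicit false

namespace Pool.Agent.Helper96.AF

open Finset Pool.Agent.Helper5.RM

theorem integrable_ww : MeasureTheory.Integrable ww := by
  have h := (integrable_inv_one_add_sq).comp_mul_left' (R := 2) (by norm_num)
  have h2 := h.const_mul (2 / Real.pi)
  refine h2.congr (MeasureTheory.ae_of_all _ fun t => ?_)
  have := Real.pi_pos
  unfold ww
  have e1 : (1 : ℝ) + (2 * t) ^ 2 ≠ 0 := by positivity
  have e2 : (1 : ℝ) / 4 + t ^ 2 ≠ 0 := by positivity
  simp only
  field_simp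
  ring

/-- the function `exp (-|x| / 2)` -/
noncomputable def cauF (x : ℝ) : ℂ := ((Real.exp (-(|x| / 2)) : ℝ) : ℂ)

lemma cauF_cont : Continuous cauF := by
  unfold cauF
  fun_prop

lemma cauF_left {x : ℝ} (hx : x ∈ Set.Iic (0 : ℝ)) (w : ℝ) :
    Complex.exp (((-2 * Real.pi * x * w : ℝ) : ℂ) * Complex.I) • cauF x =
      Complex.exp ((1 / 2 - 2 * Real.pi * w * Complex.I) * x) := by
  unfold cauF
  rw [abs_of_nonpos hx, Complex.ofReal_exp, smul_eq_mul, ← Complex.exp_add]
  congr 1
  push_cast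
  ring

lemma cauF_right {x : ℝ} (hx : x ∈ Set.Ioi (0 : ℝ)) (w : ℝ) :
    Complex.exp (((-2 * Real.pi * x * w : ℝ) : ℂ) * Complex.I) • cauF x =
      Complex.exp ((-1 / 2 - 2 * Real.pi * w * Complex.I) * x) := by
  unfold cauF
  rw [abs_of_pos hx, Complex.ofReal_exp, smul_eq_mul, ← Complex.exp_add]
  congr 1
  push_cast
  ring

lemma cauF_re1 (w : ℝ) : (0 : ℝ) < ((1 : ℂ) / 2 - 2 * Real.pi * w * Complex.I).re := by
  have : ((1 : ℂ) / 2 - 2 * Real.pi * w * Complex.I) = ⟨1 / 2, -(2 * Real.pi * w)⟩ := by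
    apply Complex.ext <;> simp
  rw [this]
  norm_num

lemma cauF_re2 (w : ℝ) : ((-1 : ℂ) / 2 - 2 * Real.pi * w * Complex.I).re < 0 := by
  have : ((-1 : ℂ) / 2 - 2 * Real.pi * w * Complex.I) = ⟨-1 / 2, -(2 * Real.pi * w)⟩ := by
    apply Complex.ext <;> simp
  rw [this]
  norm_num

lemma cauF_int1 (w : ℝ) : MeasureTheory.IntegrableOn
    (fun x : ℝ => Complex.exp (((-2 * Real.pi * x * w : ℝ) : ℂ) * Complex.I) • cauF x) (Set.Iic 0) := by
  refine (integrableOn_exp_mul_complex_Iic (cauF_re1 w) 0).congr_fun ?_ measurableSet_Iic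
  intro x hx
  exact (cauF_left hx w).symm

lemma cauF_int2 (w : ℝ) : MeasureTheory.IntegrableOn
    (fun x : ℝ => Complex.exp (((-2 * Real.pi * x * w : ℝ) : ℂ) * Complex.I) • cauF x) (Set.Ioi 0) := by
  refine (integrableOn_exp_mul_complex_Ioi (cauF_re2 w) 0).congr_fun ?_ measurableSet_Ioi
  intro x hx
  exact (cauF_right hx w).symm

lemma cauF_integrable : MeasureTheory.Integrable cauF := by
  have h1 := cauF_int1 0
  have h2 := cauF_int2 0
  simp only [mul_zero, Complex.ofReal_zero, zero_mul, Complex.exp_zero, one_smul] at h1 h2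
  have h3 := h1.union h2
  rw [Set.Iic_union_Ioi] at h3
  exact MeasureTheory.integrableOn_univ.1 h3

open FourierTransform in
lemma cauF_fourier (w : ℝ) : 𝓕 cauF w = ((2 * Real.pi * ww (2 * Real.pi * w) : ℝ) : ℂ) := by
  rw [Real.fourier_real_eq_integral_exp_smul,
    ← intervalIntegral.integral_Iic_add_Ioi (cauF_int1 w) (cauF_int2 w),
    MeasureTheory.setIntegral_congr_fun measurableSet_Iic (fun x hx => cauF_left hx w),
    MeasureTheory.setIntegral_congr_fun measurableSet_Ioi (fun x hx => cauF_right hx w),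
    integral_exp_mul_complex_Iic (cauF_re1 w), integral_exp_mul_complex_Ioi (cauF_re2 w)]
  have h1 : ((1 : ℂ) / 2 - 2 * Real.pi * w * Complex.I) ≠ 0 := by
    intro h
    have := cauF_re1 w
    rw [h] at this
    simp at this
  have h2 : ((-1 : ℂ) / 2 - 2 * Real.pi * w * Complex.I) ≠ 0 := by
    intro h
    have := cauF_re2 w
    rw [h] at this
    simp at this
  have h3 : ((2 * Real.pi * ww (2 * Real.pi * w) : ℝ) : ℂ) =
      1 / (1 / 4 + (2 * Real.pi * w) ^ 2) := by
    unfold ww
    push_cast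
    have e1 : (Real.pi : ℂ) ≠ 0 := by exact_mod_cast Real.pi_ne_zero
    have e2 : ((1 : ℂ) / 4 + (2 * Real.pi * w) ^ 2) ≠ 0 := by
      have h : (0 : ℝ) < 1 / 4 + (2 * Real.pi * w) ^ 2 := by positivity
      have e : ((1 : ℂ) / 4 + (2 * Real.pi * w) ^ 2) = ((1 / 4 + (2 * Real.pi * w) ^ 2 : ℝ) : ℂ) := by
        push_cast
        ring
      rw [e]
      exact Complex.ofReal_ne_zero.2 h.ne'
    field_simp
  have h4 : ((1 : ℂ) / 4 + (2 * Real.pi * w) ^ 2) =
      ((1 : ℂ) / 2 - 2 * Real.pi * w * Complex.I) * (-((-1 : ℂ) / 2 - 2 * Real.pi * w * Complex.I)) := by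
    linear_combination (2 * (Real.pi : ℂ) * w) ^ 2 * Complex.I_sq
  rw [h3, h4]
  simp only [Complex.ofReal_zero, mul_zero, Complex.exp_zero]
  rw [div_add_div _ _ h1 h2, div_eq_div_iff (mul_ne_zero h1 h2) (mul_ne_zero h1 (neg_ne_zero.2 h2))]
  ring

open FourierTransform in
theorem cos_int (u : ℝ) : ∫ t, Real.cos (u * t) * ww t = Real.exp (-(|u| / 2)) := by
  have hpi := Real.pi_pos
  have hF : 𝓕 cauF = fun w : ℝ => ((2 * Real.pi * ww (2 * Real.pi * w) : ℝ) : ℂ) := by
    funext w
    exact cauF_fourier w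
  have hww : MeasureTheory.Integrable (fun w : ℝ => 2 * Real.pi * ww (2 * Real.pi * w)) :=
    (integrable_ww.comp_mul_left' (R := 2 * Real.pi) (by positivity)).const_mul _
  have hFi : MeasureTheory.Integrable (𝓕 cauF) := by
    rw [hF]
    exact hww.ofReal
  have hinv := cauF_cont.fourierInv_fourier_eq cauF_integrable hFi
  have h1 := congrFun hinv u
  rw [Real.fourierInv_eq', hF] at h1
  have hint : MeasureTheory.Integrable (fun v : ℝ =>
      Complex.exp (((2 * Real.pi * inner ℝ v u : ℝ) : ℂ) * Complex.I) •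
        ((2 * Real.pi * ww (2 * Real.pi * v) : ℝ) : ℂ)) := by
    refine (hww.ofReal (𝕜 := ℂ)).bdd_mul (c := 1) ?_ ?_
    · refine Continuous.aestronglyMeasurable ?_
      fun_prop
    · refine MeasureTheory.ae_of_all _ fun v => ?_
      rw [Complex.norm_exp_ofReal_mul_I]
  have h2 := congrArg Complex.re h1
  have h3 := integral_re hint
  simp only [RCLike.re_to_complex] at h3
  rw [← h3] at h2
  have h4 := MeasureTheory.Measure.integral_comp_mul_left (fun t => Real.cos (u * t) * ww t) (2 * Real.pi)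
  have h5 : ∫ v : ℝ, (Complex.exp (((2 * Real.pi * inner ℝ v u : ℝ) : ℂ) * Complex.I) •
        ((2 * Real.pi * ww (2 * Real.pi * v) : ℝ) : ℂ)).re =
      2 * Real.pi * ∫ v : ℝ, Real.cos (u * (2 * Real.pi * v)) * ww (2 * Real.pi * v) := by
    rw [← MeasureTheory.integral_const_mul]
    refine MeasureTheory.integral_congr_ae (MeasureTheory.ae_of_all _ fun v => ?_)
    simp only
    rw [smul_eq_mul, Complex.re_mul_ofReal, Complex.exp_ofReal_mul_I_re]
    have e : 2 * Real.pi * inner ℝ v u = u * (2 * Real.pi * v) := by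
      simp
      ring
    rw [e]
    ring
  rw [h5, h4] at h2
  rw [abs_of_pos (by positivity), smul_eq_mul, ← mul_assoc, mul_inv_cancel₀ (by positivity), one_mul] at h2
  rw [h2]
  unfold cauF
  exact Complex.ofReal_re _

end Pool.Agent.Helper96.AF
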