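import Pool.Agent.Helper96.AF.E1a

/-!
# Project AF (MP_a499ba_nt), block E1c

The Plancherel identity for finite Euler products. PROOF: `(1 + 1/p)(1 + sg * th) = 1 + 1/p + 2 sg cos (t log p)/√p = |1 + sg T p * p^(-1/2) e^(-i t log p)|^2`
(`Complex.sq_norm`, `Complex.normSq`), so `∏ (1+1/p) dd S T t = |∏_{p ∈ S} (1 + sg T p z_p)|^2 = |∑_{U ⊆ S} wal T U z_U|^2` (`Finset.prod_one_add`),
`z_U = (n_U)^(-1/2) e^(-i t log n_U)`, `n_U = ∏_{p ∈ U} p`; expand: `∑_{U,V} wal T U wal T V (n_U n_V)^(-1/2) cos (t (log n_U - log n_V))`; integrate with `cos_int`: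
`(n_U n_V)^(-1/2) exp (-|log n_U - log n_V|/2) = 1/max (n_U, n_V)`.
-/

set_option autoImplicit false

namespace Pool.Agent.Helper96.AF

open Finset Pool.Agent.Helper5.RM

/-- `n^(-1/2 - it)` -/
noncomputable def zz (n : ℕ) (t : ℝ) : ℂ :=
  (((Real.sqrt n)⁻¹ : ℝ) : ℂ) * Complex.exp (((-(t * Real.log n) : ℝ) : ℂ) * Complex.I)

lemma zz_prod (U : Finset ℕ) (hU : ∀ p ∈ U, p.Prime) (t : ℝ) :
    ∏ p ∈ U, zz p t = zz (∏ p ∈ U, p) t := by
  induction U using Finset.induction_on with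
  | empty => simp [zz]
  | insert q U hq ih =>
    have hq0 : (q : ℝ) ≠ 0 := by
      exact_mod_cast (hU q (Finset.mem_insert_self q U)).ne_zero
    have hU0 : ((∏ p ∈ U, p : ℕ) : ℝ) ≠ 0 := by
      have : (∏ p ∈ U, p) ≠ 0 :=
        Finset.prod_ne_zero_iff.2 fun p hp => (hU p (Finset.mem_insert_of_mem hp)).ne_zero
      exact_mod_cast this
    rw [Finset.prod_insert hq, Finset.prod_insert hq, ih fun p hp => hU p (Finset.mem_insert_of_mem hp)]
    unfold zz
    rw [Nat.cast_mul, Real.sqrt_mul (by positivity), Real.log_mul hq0 hU0, mul_inv]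
    have : ((-(t * (Real.log q + Real.log ((∏ p ∈ U, p : ℕ) : ℝ))) : ℝ) : ℂ) * Complex.I =
        ((-(t * Real.log q) : ℝ) : ℂ) * Complex.I +
          ((-(t * Real.log ((∏ p ∈ U, p : ℕ) : ℝ)) : ℝ) : ℂ) * Complex.I := by
      push_cast
      ring
    rw [this, Complex.exp_add]
    push_cast
    ring

lemma zz_re (n : ℕ) (t : ℝ) : (zz n t).re = (Real.sqrt n)⁻¹ * Real.cos (t * Real.log n) := by
  unfold zz
  rw [Complex.re_ofReal_mul, Complex.exp_ofReal_mul_I_re, Real.cos_neg]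

lemma zz_im (n : ℕ) (t : ℝ) : (zz n t).im = -((Real.sqrt n)⁻¹ * Real.sin (t * Real.log n)) := by
  unfold zz
  rw [Complex.im_ofReal_mul, Complex.exp_ofReal_mul_I_im, Real.sin_neg]
  ring

lemma zz_fac (p : ℕ) (hp : p.Prime) (s : ℝ) (hs : s * s = 1) (t : ℝ) :
    (1 + (1 : ℝ) / p) * (1 + s * th p t) = Complex.normSq (1 + (s : ℂ) * zz p t) := by
  have hp0 : (0 : ℝ) < p := by exact_mod_cast hp.pos
  have hs0 : Real.sqrt p * Real.sqrt p = p := Real.mul_self_sqrt hp0.le
  have hs1 : Real.sqrt p ≠ 0 := (Real.sqrt_pos.2 hp0).ne'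
  rw [Complex.normSq_apply]
  simp only [Complex.add_re, Complex.one_re, Complex.re_ofReal_mul, Complex.add_im, Complex.one_im,
    Complex.im_ofReal_mul, zz_re, zz_im]
  unfold th
  set c := Real.cos (t * Real.log p) with hc
  set d := Real.sin (t * Real.log p) with hd
  have hcd : c * c + d * d = 1 := by
    have := Real.cos_sq_add_sin_sq (t * Real.log p)
    rw [← hc, ← hd] at this
    nlinarith
  have h1 : (1 + s * ((Real.sqrt p)⁻¹ * c)) * (1 + s * ((Real.sqrt p)⁻¹ * c)) +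
      (0 + s * (-((Real.sqrt p)⁻¹ * d))) * (0 + s * (-((Real.sqrt p)⁻¹ * d))) =
      1 + 2 * s * c * (Real.sqrt p)⁻¹ + (s * s) * ((Real.sqrt p)⁻¹ * (Real.sqrt p)⁻¹) * (c * c + d * d) := by
    ring
  rw [h1, hcd, hs, ← mul_inv, hs0]
  have h2 : (Real.sqrt p)⁻¹ = Real.sqrt p / p := by
    rw [eq_div_iff hp0.ne', inv_mul_eq_iff_eq_mul₀ hs1, hs0]
  rw [h2]
  have h3 : (p : ℝ) + 1 ≠ 0 := by positivity
  field_simp
  ring

lemma prod_dd (S T : Finset ℕ) (hS : ∀ p ∈ S, p.Prime) (t : ℝ) :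
    (∏ p ∈ S, (1 + (1 : ℝ) / p)) * dd S T t =
      Complex.normSq (∑ U ∈ S.powerset, (wal T U : ℂ) * zz (∏ p ∈ U, p) t) := by
  have h1 : (∏ p ∈ S, (1 + (1 : ℝ) / p)) * dd S T t =
      Complex.normSq (∏ p ∈ S, (1 + (sg T p : ℂ) * zz p t)) := by
    unfold dd
    rw [← Finset.prod_mul_distrib, map_prod]
    exact Finset.prod_congr rfl fun p hp => zz_fac p (hS p hp) _ (sg_mul_self T p) t
  rw [h1, Finset.prod_one_add]
  congr 1
  refine Finset.sum_congr rfl fun U hU => ?_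
  rw [Finset.prod_mul_distrib, zz_prod U fun p hp => hS p (Finset.mem_powerset.1 hU hp)]
  congr 1
  unfold wal
  push_cast
  rfl

lemma normSq_sum {ι : Type*} (s : Finset ι) (a : ι → ℝ) (z : ι → ℂ) :
    Complex.normSq (∑ i ∈ s, (a i : ℂ) * z i) =
      ∑ i ∈ s, ∑ j ∈ s, a i * a j * ((z i).re * (z j).re + (z i).im * (z j).im) := by
  rw [Complex.normSq_apply, Complex.re_sum, Complex.im_sum]
  simp only [Complex.re_ofReal_mul, Complex.im_ofReal_mul]
  rw [Finset.sum_mul_sum, Finset.sum_mul_sum, ← Finset.sum_add_distrib]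
  refine Finset.sum_congr rfl fun i _ => ?_
  rw [← Finset.sum_add_distrib]
  refine Finset.sum_congr rfl fun j _ => ?_
  ring

lemma zz_zz (m n : ℕ) (t : ℝ) :
    (zz m t).re * (zz n t).re + (zz m t).im * (zz n t).im =
      ((Real.sqrt m)⁻¹ * (Real.sqrt n)⁻¹) * Real.cos ((Real.log m - Real.log n) * t) := by
  rw [zz_re, zz_re, zz_im, zz_im]
  have : (Real.log m - Real.log n) * t = t * Real.log m - t * Real.log n := by ring
  rw [this, Real.cos_sub]
  ring

lemma exp_max (m n : ℕ) (hm : 0 < m) (hn : 0 < n) :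
    ((Real.sqrt m)⁻¹ * (Real.sqrt n)⁻¹) * Real.exp (-(|Real.log m - Real.log n| / 2)) =
      1 / ((max m n : ℕ) : ℝ) := by
  have key : ∀ m n : ℕ, 0 < m → m ≤ n →
      ((Real.sqrt m)⁻¹ * (Real.sqrt n)⁻¹) * Real.exp (-(|Real.log m - Real.log n| / 2)) = 1 / (n : ℝ) := by
    intro m n hm hmn
    have hm0 : (0 : ℝ) < m := by exact_mod_cast hm
    have hn0 : (0 : ℝ) < n := by exact_mod_cast (lt_of_lt_of_le hm hmn)
    have hlog : Real.log m ≤ Real.log n := Real.log_le_log hm0 (by exact_mod_cast hmn)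
    rw [abs_of_nonpos (by linarith)]
    have h1 : Real.sqrt m = Real.exp (Real.log m / 2) := by
      rw [Real.sqrt_eq_rpow, Real.rpow_def_of_pos hm0]
      congr 1
      ring
    have h2 : Real.sqrt n = Real.exp (Real.log n / 2) := by
      rw [Real.sqrt_eq_rpow, Real.rpow_def_of_pos hn0]
      congr 1
      ring
    rw [h1, h2, ← Real.exp_neg, ← Real.exp_neg, ← Real.exp_add, ← Real.exp_add]
    rw [show (-(Real.log m / 2) + -(Real.log n / 2) + -(-(Real.log m - Real.log n) / 2)) = -Real.log n by ring,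
      Real.exp_neg, Real.exp_log hn0, one_div]
  rcases le_total m n with h | h
  · rw [max_eq_right h]
    exact key m n hm h
  · rw [max_eq_left h, abs_sub_comm, mul_comm (Real.sqrt m)⁻¹]
    exact key n m hn h

lemma integrable_cos_ww (u : ℝ) : MeasureTheory.Integrable (fun t => Real.cos (u * t) * ww t) := by
  refine MeasureTheory.Integrable.mono integrable_ww ?_ ?_
  · have := continuous_ww
    exact (Continuous.mul (by fun_prop) this).aestronglyMeasurable
  · refine Filter.Eventually.of_forall fun t => ?_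
    rw [norm_mul]
    exact mul_le_of_le_one_left (norm_nonneg _) (by rw [Real.norm_eq_abs]; exact Real.abs_cos_le_one _)

theorem int_dd (S T : Finset ℕ) (hS : ∀ p ∈ S, p.Prime) :
    (∏ p ∈ S, (1 + (1 : ℝ) / p)) * ∫ t, dd S T t * ww t =
      ∑ U ∈ S.powerset, ∑ V ∈ S.powerset, wal T U * wal T V / ((max (∏ p ∈ U, p) (∏ p ∈ V, p) : ℕ) : ℝ) := by
  have hpt : ∀ t, (∏ p ∈ S, (1 + (1 : ℝ) / p)) * (dd S T t * ww t) =
      ∑ U ∈ S.powerset, ∑ V ∈ S.powerset,
        (wal T U * wal T V * ((Real.sqrt ((∏ p ∈ U, p : ℕ) : ℝ))⁻¹ * (Real.sqrt ((∏ p ∈ V, p : ℕ) : ℝ))⁻¹)) *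
          (Real.cos ((Real.log ((∏ p ∈ U, p : ℕ) : ℝ) - Real.log ((∏ p ∈ V, p : ℕ) : ℝ)) * t) * ww t) := by
    intro t
    rw [← mul_assoc, prod_dd S T hS t, normSq_sum, Finset.sum_mul]
    refine Finset.sum_congr rfl fun U _ => ?_
    rw [Finset.sum_mul]
    refine Finset.sum_congr rfl fun V _ => ?_
    rw [zz_zz]
    ring
  rw [← MeasureTheory.integral_const_mul]
  simp only [hpt]
  rw [MeasureTheory.integral_finsetSum]
  · refine Finset.sum_congr rfl fun U hU => ?_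
    rw [MeasureTheory.integral_finsetSum]
    · refine Finset.sum_congr rfl fun V hV => ?_
      rw [MeasureTheory.integral_const_mul, cos_int, mul_assoc, exp_max, mul_one_div]
      · exact Finset.prod_pos fun p hp => (hS p (Finset.mem_powerset.1 hU hp)).pos
      · exact Finset.prod_pos fun p hp => (hS p (Finset.mem_powerset.1 hV hp)).pos
    · intro V _
      exact (integrable_cos_ww _).const_mul _
  · intro U _
    refine MeasureTheory.integrable_finsetSum _ fun V _ => ?_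
    exact (integrable_cos_ww _).const_mul _

end Pool.Agent.Helper96.AF
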