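import Pool.Agent.Helper96.AF.Bas

/-!
# Project AF (MP_a499ba_nt), block E2

Martingale property of `dd` and interchange of averages and integrals.
PROOF of `av_dd`: induction on `S` (`av_insert`; `sg (insert q T) q = -1`, `sg T q = 1` for `T ⊆ S`, `q ∉ S`). `av_dd_union`: `dd (S ∪ S') (T0 ∪ T) t = dd S T0 t * dd S' T t` for
`T0 ⊆ S`, `T ⊆ S'`, `S`, `S'` disjoint. `integrable_dd`: `dd S T` is continuous and bounded (`0 ≤ dd S T t ≤ 2^(S.card)`), `ww` is integrable.
`av_integral`: linearity (`integral_finset_sum`, `integral_div`).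
-/

set_option autoImplicit false

namespace Pool.Agent.Helper96.AF

open Finset Pool.Agent.Helper5.RM

theorem av_dd (S : Finset ℕ) (t : ℝ) : av S (fun T => dd S T t) = 1 := by
  induction S using Finset.induction_on with
  | empty => simp [av_empty, dd]
  | insert q S hq ih =>
    rw [av_insert hq]
    have h1 : av S (fun T => dd (insert q S) T t) = (1 + th q t) * av S (fun T => dd S T t) := by
      rw [← av_mul_left]
      refine av_congr fun T hT => ?_
      have hqT : q ∉ T := fun h => hq (hT h)
      simp only [dd, Finset.prod_insert hq, sg_not_mem hqT, one_mul]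
    have h2 : av S (fun T => dd (insert q S) (insert q T) t) =
        (1 - th q t) * av S (fun T => dd S T t) := by
      rw [← av_mul_left]
      refine av_congr fun T hT => ?_
      simp only [dd, Finset.prod_insert hq, sg_mem (Finset.mem_insert_self q T)]
      congr 1
      · ring
      · refine Finset.prod_congr rfl fun p hp => ?_
        have hpq : p ≠ q := fun h => hq (h ▸ hp)
        rw [sg_insert_of_ne hpq]
    rw [h1, h2, ih]
    ring

theorem av_dd_union (S S' : Finset ℕ) (h : Disjoint S S') (T0 : Finset ℕ) (hT0 : T0 ⊆ S) (t : ℝ) :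
    av S' (fun T => dd (S ∪ S') (T0 ∪ T) t) = dd S T0 t := by
  have h1 : av S' (fun T => dd (S ∪ S') (T0 ∪ T) t) = av S' (fun T => dd S T0 t * dd S' T t) := by
    refine av_congr fun T hT => ?_
    unfold dd
    rw [Finset.prod_union h]
    congr 1
    · refine Finset.prod_congr rfl fun p hp => ?_
      have hpT : p ∉ T := fun hh => Finset.disjoint_left.1 h hp (hT hh)
      rw [sg_congr (T := T0 ∪ T) (T' := T0) (by simp [hpT])]
    · refine Finset.prod_congr rfl fun p hp => ?_
      have hpT : p ∉ T0 := fun hh => Finset.disjoint_left.1 h (hT0 hh) hp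
      rw [sg_congr (T := T0 ∪ T) (T' := T) (by simp [hpT])]
  rw [h1, av_mul_left, av_dd, mul_one]

theorem dd_le (S : Finset ℕ) (hS : ∀ p ∈ S, 2 ≤ p) (T : Finset ℕ) (t : ℝ) : dd S T t ≤ 2 ^ S.card := by
  unfold dd
  rw [← Finset.prod_const]
  refine Finset.prod_le_prod (fun p hp => (fac_pos (hS p hp) T t).le) fun p hp => ?_
  have h := abs_th_lt_one (hS p hp) t
  have h1 : |sg T p * th p t| < 1 := by rw [abs_mul, abs_sg, one_mul]; exact h
  have := (abs_lt.1 h1).2
  linarith

private lemma ww_le (t : ℝ) : ww t ≤ 2 / Real.pi * (1 + t ^ 2)⁻¹ := by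
  unfold ww
  have hpi := Real.pi_pos
  rw [div_mul_eq_mul_div, ← one_div, mul_one_div, div_div, div_le_div_iff₀ (by positivity) (by positivity)]
  nlinarith [sq_nonneg t, mul_nonneg hpi.le (sq_nonneg t)]

theorem integrable_dd (S : Finset ℕ) (hS : ∀ p ∈ S, 2 ≤ p) (T : Finset ℕ) :
    MeasureTheory.Integrable (fun t => dd S T t * ww t) := by
  have h0 : MeasureTheory.Integrable (fun t : ℝ => 2 ^ S.card * (2 / Real.pi) * (1 + t ^ 2)⁻¹) :=
    integrable_inv_one_add_sq.const_mul _
  refine h0.mono' ((continuous_dd S T).mul continuous_ww).aestronglyMeasurable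
    (Filter.Eventually.of_forall fun t => ?_)
  have h1 := dd_nonneg hS T t
  have h2 := (ww_pos t).le
  rw [Real.norm_eq_abs, abs_of_nonneg (mul_nonneg h1 h2), mul_assoc]
  exact mul_le_mul (dd_le S hS T t) (ww_le t) h2 (by positivity)

theorem av_integral (S : Finset ℕ) (f : Finset ℕ → ℝ → ℝ) (A : Set ℝ)
    (hf : ∀ T ⊆ S, MeasureTheory.IntegrableOn (f T) A) :
    av S (fun T => ∫ t in A, f T t) = ∫ t in A, av S (fun T => f T t) := by
  unfold av
  rw [MeasureTheory.integral_div, MeasureTheory.integral_finsetSum]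
  intro T hT
  exact hf T (Finset.mem_powerset.1 hT)

end Pool.Agent.Helper96.AF
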