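import Pool.Agent.Helper96.AF.E2

/-!
# Project AF (MP_a499ba_nt), block E7

The truncated mass is a supermartingale. `AA a r T t` only depends on `T ∩ PP (Y r)`; `AA a (r+1) T t → AA a r T t`; for fixed `T` the set `{t | AA a r T t}` is measurable
(`t ↦ ⌊2^l * t⌋` is measurable, every set of integers is measurable); the integrand of `TI` is bounded measurable, hence integrable on `[-K, K]`.
`TI_sup`: `TI K a (r+1) (T0 ∪ T) ≤ ∫_{-K}^{K} 1_{AA a r T0 t} dd (PP (Y (r+1))) (T0 ∪ T) t ww t dt`; average over `T ⊆ BL r` inside the integral, `av_dd_union`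
(`PP_Y_succ`, `BL_disj`).
-/

set_option autoImplicit false

namespace Pool.Agent.Helper96.AF

open Finset Pool.Agent.Helper5.RM

private lemma hh_congr' {l : ℕ} {T T' : Finset ℕ} (h : ∀ p ∈ PP (Y l), (p ∈ T ↔ p ∈ T')) :
    hh l T = hh l T' := by
  funext t
  unfold hh
  congr 1
  refine Finset.sum_congr rfl fun p hp => ?_
  rw [sg_congr (h p hp)]

private lemma UU_congr' {l : ℕ} {T T' : Finset ℕ} (h : ∀ p ∈ PP (Y l), (p ∈ T ↔ p ∈ T')) (j : ℤ) :
    UU l T j = UU l T' j := by
  unfold UU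
  rw [hh_congr' h]

theorem AA_congr {a : ℝ} {r : ℕ} {T T' : Finset ℕ} {t : ℝ} (h : T ∩ PP (Y r) = T' ∩ PP (Y r)) :
    AA a r T t ↔ AA a r T' t := by
  unfold AA
  refine forall₂_congr fun l hl => ?_
  rw [Finset.mem_Icc] at hl
  rw [UU_congr' (T := T) (T' := T')]
  intro p hp
  have hp' := PP_Y_mono hl.2 hp
  constructor
  · intro hT
    have : p ∈ T ∩ PP (Y r) := Finset.mem_inter.2 ⟨hT, hp'⟩
    rw [h] at this
    exact (Finset.mem_inter.1 this).1
  · intro hT
    have : p ∈ T' ∩ PP (Y r) := Finset.mem_inter.2 ⟨hT, hp'⟩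
    rw [← h] at this
    exact (Finset.mem_inter.1 this).1

theorem measurable_AA (a : ℝ) (r : ℕ) (T : Finset ℕ) : MeasurableSet {t | AA a r T t} := by
  have h : {t | AA a r T t} = ⋂ l ∈ Finset.Icc 1 r, {t : ℝ | UU l T ⌊2 ^ l * t⌋ ≤ Real.exp a} := by
    ext t
    simp only [AA, Set.mem_ofPred_eq, Set.mem_iInter]
  rw [h]
  refine Finset.measurableSet_biInter _ fun l _ => ?_
  have hm : Measurable (fun t : ℝ => ⌊2 ^ l * t⌋) := Int.measurable_floor.comp (by fun_prop)
  exact hm (MeasurableSet.of_discrete : MeasurableSet {j : ℤ | UU l T j ≤ Real.exp a})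

theorem TI_nonneg (K : ℕ) (a : ℝ) (r : ℕ) (T : Finset ℕ) : 0 ≤ TI K a r T := by
  unfold TI
  refine intervalIntegral.integral_nonneg (by linarith [(Nat.cast_nonneg K : (0 : ℝ) ≤ K)]) fun t _ => ?_
  split_ifs
  · exact mul_nonneg (dd_nonneg (fun p hp => two_le_of_mem_PP hp) T t) (ww_pos t).le
  · exact le_rfl

private lemma dd_congr' {S T T' : Finset ℕ} (h : ∀ p ∈ S, (p ∈ T ↔ p ∈ T')) (t : ℝ) : dd S T t = dd S T' t := by
  unfold dd
  refine Finset.prod_congr rfl fun p hp => ?_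
  rw [sg_congr (h p hp)]

theorem TI_dep (K : ℕ) (a : ℝ) (r : ℕ) (T : Finset ℕ) : TI K a r T = TI K a r (T ∩ PP (Y r)) := by
  unfold TI
  congr 1
  funext t
  have h1 : AA a r T t ↔ AA a r (T ∩ PP (Y r)) t := by
    apply AA_congr
    rw [Finset.inter_assoc, Finset.inter_self]
  have h2 : dd (PP (Y r)) T t = dd (PP (Y r)) (T ∩ PP (Y r)) t := by
    apply dd_congr'
    intro p hp
    rw [Finset.mem_inter]
    exact ⟨fun h => ⟨h, hp⟩, fun h => h.1⟩
  rw [h2]
  by_cases h : AA a r T t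
  · rw [if_pos h, if_pos (h1.1 h)]
  · rw [if_neg h, if_neg (fun h' => h (h1.2 h'))]

open Classical in
private lemma integrableOn_cut (K : ℕ) (a : ℝ) (r s : ℕ) (T T' : Finset ℕ) :
    MeasureTheory.IntegrableOn (fun t => if AA a r T t then dd (PP (Y s)) T' t * ww t else 0)
      (Set.Ioc (-(K : ℝ)) K) := by
  have h1 : MeasureTheory.Integrable (fun t => dd (PP (Y s)) T' t * ww t) :=
    integrable_dd _ (fun p hp => two_le_of_mem_PP hp) T'
  have h2 : (fun t => if AA a r T t then dd (PP (Y s)) T' t * ww t else 0) =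
      Set.indicator {t | AA a r T t} (fun t => dd (PP (Y s)) T' t * ww t) := by
    funext t
    by_cases h : AA a r T t
    · rw [if_pos h, Set.indicator_of_mem (show t ∈ {t | AA a r T t} from h)]
    · rw [if_neg h, Set.indicator_of_notMem (show t ∉ {t | AA a r T t} from h)]
  rw [h2]
  exact (h1.indicator (measurable_AA a r T)).integrableOn

theorem TI_sup (K : ℕ) (a : ℝ) (r : ℕ) (T0 : Finset ℕ) (hT0 : T0 ⊆ PP (Y r)) :
    av (BL r) (fun T => TI K a (r + 1) (T0 ∪ T)) ≤ TI K a r T0 := by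
  classical
  have hK : -(K : ℝ) ≤ K := by linarith [(Nat.cast_nonneg K : (0 : ℝ) ≤ K)]
  have hstep : ∀ T ⊆ BL r, TI K a (r + 1) (T0 ∪ T) ≤
      ∫ t in Set.Ioc (-(K : ℝ)) K, (if AA a r T0 t then dd (PP (Y (r + 1))) (T0 ∪ T) t * ww t else 0) := by
    intro T hT
    unfold TI
    rw [intervalIntegral.integral_of_le hK]
    refine MeasureTheory.setIntegral_mono (integrableOn_cut K a (r + 1) (r + 1) (T0 ∪ T) (T0 ∪ T))
      (integrableOn_cut K a r (r + 1) T0 (T0 ∪ T)) fun t => ?_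
    have hpos : 0 ≤ dd (PP (Y (r + 1))) (T0 ∪ T) t * ww t :=
      mul_nonneg (dd_nonneg (fun p hp => two_le_of_mem_PP hp) _ t) (ww_pos t).le
    by_cases h : AA a (r + 1) (T0 ∪ T) t
    · have h1 : AA a r (T0 ∪ T) t := fun l hl =>
        h l (Finset.Icc_subset_Icc le_rfl (Nat.le_succ r) hl)
      have h2 : AA a r T0 t := by
        refine (AA_congr ?_).1 h1
        ext p
        rw [Finset.mem_inter, Finset.mem_inter, Finset.mem_union]
        constructor
        · rintro ⟨h3 | h3, h4⟩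
          · exact ⟨h3, h4⟩
          · exact absurd (hT h3) (Finset.disjoint_left.1 (BL_disj r) h4)
        · rintro ⟨h3, h4⟩
          exact ⟨Or.inl h3, h4⟩
      simp only [if_pos h, if_pos h2, le_refl]
    · simp only [if_neg h]
      split_ifs
      · exact hpos
      · exact le_rfl
  refine (av_mono hstep).trans (le_of_eq ?_)
  rw [av_integral (BL r) (fun T t => if AA a r T0 t then dd (PP (Y (r + 1))) (T0 ∪ T) t * ww t else 0)
    (Set.Ioc (-(K : ℝ)) K) (fun T _ => integrableOn_cut K a r (r + 1) T0 (T0 ∪ T))]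
  unfold TI
  rw [intervalIntegral.integral_of_le hK]
  congr 1
  funext t
  by_cases h : AA a r T0 t
  · simp only [if_pos h]
    have h1 : av (BL r) (fun T => dd (PP (Y (r + 1))) (T0 ∪ T) t * ww t) =
        ww t * av (BL r) (fun T => dd (PP (Y r) ∪ BL r) (T0 ∪ T) t) := by
      rw [← av_mul_left]
      refine av_congr fun T _ => ?_
      rw [PP_Y_succ, mul_comm]
    rw [h1, av_dd_union _ _ (BL_disj r) T0 hT0, mul_comm]
  · simp only [if_neg h]
    exact av_const _ _

end Pool.Agent.Helper96.AF
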