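import Pool.Agent.Helper96.AF.D6

/-!
# Project AF (MP_a499ba_nt), block D7

PROOF: `PP (Y (r+1)) = PP (Y r) ∪ BL r` (`PP_Y_succ`, `BL_disj`, `av_union`); `II r Z (T0 ∪ T) = II r Z T0` (`II_congr`). For fixed `T0 ⊆ PP (Y r)`: take `q = ⌈2/δ⌉₊`; if
`II r Z T0 = 0` then `JJ_mom` gives `JJ r Z (T0 ∪ T) = 0` for all `T ⊆ BL r` and the event is empty; otherwise Markov (`markov_pow`):
`pr (BL r) (r^δ II < JJ) ≤ (4 e^(c0 (2q-1)))^q / r^(δ q) ≤ C / r^2`.
-/

set_option autoImplicit false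

namespace Pool.Agent.Helper96.AF

open Finset Pool.Agent.Helper5.RM

private lemma d7_av_zero {S : Finset ℕ} {F : Finset ℕ → ℝ} (hF : ∀ T, 0 ≤ F T) (h : av S F ≤ 0) :
    ∀ T ⊆ S, F T = 0 := by
  unfold av at h
  have h2 : (0 : ℝ) < 2 ^ S.card := by positivity
  have h3 : ∑ T ∈ S.powerset, F T ≤ 0 := by
    rw [div_le_iff₀ h2, zero_mul] at h
    exact h
  have h4 : ∑ T ∈ S.powerset, F T = 0 := le_antisymm h3 (Finset.sum_nonneg fun T _ => hF T)
  intro T hT
  exact (Finset.sum_eq_zero_iff_of_nonneg fun T _ => hF T).1 h4 T (Finset.mem_powerset.2 hT)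

theorem JJ_tail (δ : ℝ) (hδ : 0 < δ) : ∃ C : ℝ, 0 < C ∧ ∀ r Z : ℕ, 1 ≤ r →
    pr (PP (Y (r + 1))) (fun T => (r : ℝ) ^ δ * II r Z T < JJ r Z T) ≤ C / (r : ℝ) ^ 2 := by
  obtain ⟨c0, hc0, hmom⟩ := JJ_mom
  set q : ℕ := ⌈2 / δ⌉₊ with hqdef
  have hq : 1 ≤ q := Nat.one_le_iff_ne_zero.2 (Nat.ceil_pos.2 (by positivity)).ne'
  have hδq : 2 ≤ δ * q := by
    have h1 : 2 / δ ≤ q := Nat.le_ceil _
    rw [div_le_iff₀ hδ] at h1
    linarith
  refine ⟨(4 * Real.exp (c0 * (2 * q - 1))) ^ q, by positivity, fun r Z hr => ?_⟩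
  set C : ℝ := (4 * Real.exp (c0 * (2 * q - 1))) ^ q with hC
  have hCpos : 0 < C := by positivity
  have hr1 : (1 : ℝ) ≤ r := by exact_mod_cast hr
  have hr0 : (0 : ℝ) < r := by linarith
  have hfib : ∀ T0 ⊆ PP (Y r), pr (BL r) (fun T => (r : ℝ) ^ δ * II r Z (T0 ∪ T) < JJ r Z (T0 ∪ T)) ≤
      C / (r : ℝ) ^ 2 := by
    intro T0 h0
    have hII : ∀ T ⊆ BL r, II r Z (T0 ∪ T) = II r Z T0 := by
      intro T hT
      refine II_congr fun p _ hp => ?_
      have h7 : p ∉ T := fun h => by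
        have h8 := (mem_BL.1 (hT h)).2.1
        omega
      simp [h7]
    have hm := hmom q r Z T0 hq h0
    rcases (II_nonneg r Z T0).eq_or_lt with h1 | h1
    · rw [← h1, mul_zero, zero_pow (by omega)] at hm
      have h2 := d7_av_zero (F := fun T => JJ r Z (T0 ∪ T) ^ q)
        (fun T => pow_nonneg (JJ_nonneg r Z _) q) hm
      have h3 : pr (BL r) (fun T => (r : ℝ) ^ δ * II r Z (T0 ∪ T) < JJ r Z (T0 ∪ T)) ≤
          pr (BL r) (fun _ => False) := by
        refine pr_mono fun T hT hlt => ?_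
        rw [hII T hT, ← h1, mul_zero] at hlt
        have h4 : JJ r Z (T0 ∪ T) = 0 := pow_eq_zero_iff (by omega) |>.1 (h2 T hT)
        rw [h4] at hlt
        exact lt_irrefl _ hlt
      refine h3.trans ?_
      have h5 : pr (BL r) (fun _ => False) = 0 := by
        unfold pr av
        simp
      rw [h5]
      positivity
    · have hcpos : 0 < (r : ℝ) ^ δ * II r Z T0 := mul_pos (Real.rpow_pos_of_pos hr0 δ) h1
      have hmk := markov_pow (S := BL r) (F := fun T => JJ r Z (T0 ∪ T)) q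
        (fun T _ => JJ_nonneg r Z _) hcpos hm
      refine (pr_mono fun T hT hlt => ?_).trans (hmk.trans ?_)
      · rw [hII T hT] at hlt
        exact hlt.le
      · rw [mul_pow _ (II r Z T0) q, mul_pow _ (II r Z T0) q, ← hC]
        have hI : II r Z T0 ^ q ≠ 0 := (pow_pos h1 q).ne'
        rw [mul_div_mul_right _ _ hI]
        refine div_le_div_of_nonneg_left hCpos.le (by positivity) ?_
        rw [← Real.rpow_natCast ((r : ℝ) ^ δ) q, ← Real.rpow_mul hr0.le, ← Real.rpow_two]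
        exact Real.rpow_le_rpow_of_exponent_le hr1 hδq
  rw [PP_Y_succ]
  unfold pr
  rw [av_union (BL_disj r)]
  calc _ ≤ av (PP (Y r)) (fun _ => C / (r : ℝ) ^ 2) := av_mono fun T0 h0 => hfib T0 h0
    _ = C / (r : ℝ) ^ 2 := by
      unfold av
      rw [Finset.sum_const, Finset.card_powerset, nsmul_eq_mul]
      push_cast
      field_simp

end Pool.Agent.Helper96.AF
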