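import Pool.Agent.Helper96.AF.Bas

/-!
# Project AF (MP_a499ba_nt), block E6

Maximal inequality for nonnegative supermartingales on the chain `PP (Y r)`. PROOF: prove for `R1 ≤ r ≤ R2`, `T0 ⊆ PP (Y r)`, by induction on `R2 - r`:
`av (PP (Y R2) \ PP (Y r)) (fun T => if ∃ r' ∈ Icc r R2, lam ≤ X r' (T0 ∪ T) then 1 else 0) ≤ X r T0 / lam`. If `lam ≤ X r T0` the left side is `≤ 1`. Otherwise
(`X r (T0 ∪ T) = X r T0` by `hdep`) the event is `∃ r' ∈ Icc (r+1) R2`; `PP (Y R2) \ PP (Y r) = BL r ∪ (PP (Y R2) \ PP (Y (r+1)))`, `av_union`, induction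
hypothesis for `T0 ∪ T`, `T ⊆ BL r`, and `hsup`. Then average over `T0 ⊆ PP (Y R1)`.
-/

set_option autoImplicit false

namespace Pool.Agent.Helper96.AF

open Finset Pool.Agent.Helper5.RM

private theorem e6_pr_union {S S' : Finset ℕ} (h : Disjoint S S') (P : Finset ℕ → Prop) :
    pr (S ∪ S') P = av S (fun T => pr S' (fun T' => P (T ∪ T'))) := by
  unfold pr
  exact av_union h _

private theorem e6_step (X : ℕ → Finset ℕ → ℝ) (R1 R2 : ℕ) (lam : ℝ) (hl : 0 < lam)
    (h0 : ∀ r T, 0 ≤ X r T) (hdep : ∀ r T, X r T = X r (T ∩ PP (Y r)))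
    (hsup : ∀ r, R1 ≤ r → r < R2 → ∀ T0 ⊆ PP (Y r), av (BL r) (fun T => X (r + 1) (T0 ∪ T)) ≤ X r T0)
    (d : ℕ) : ∀ r, R1 ≤ r → r + d = R2 → ∀ T0 ⊆ PP (Y r),
      pr (PP (Y R2) \ PP (Y r))
        (fun T => ∃ r' ∈ Finset.Icc r R2, lam ≤ X r' (T0 ∪ T)) ≤ X r T0 / lam := by
  have hbig : ∀ (r : ℕ) (T0 : Finset ℕ) (S : Finset ℕ) (P : Finset ℕ → Prop), lam ≤ X r T0 →
      pr S P ≤ X r T0 / lam := by
    intro r T0 S P h
    exact (pr_le_one S P).trans ((one_le_div hl).2 h)
  induction d with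
  | zero =>
    intro r _ hr T0 _
    rw [add_zero] at hr
    subst hr
    by_cases h : lam ≤ X r T0
    · exact hbig _ _ _ _ h
    · rw [pr_false]
      · exact div_nonneg (h0 _ _) hl.le
      · rintro T hT ⟨r', hr', h1⟩
        rw [Finset.mem_Icc] at hr'
        have h2 : r' = r := le_antisymm hr'.2 hr'.1
        rw [Finset.sdiff_self] at hT
        rw [h2, Finset.subset_empty.1 hT, Finset.union_empty] at h1
        exact h h1
  | succ d ih =>
    intro r hR hr T0 hT0
    by_cases h : lam ≤ X r T0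
    · exact hbig _ _ _ _ h
    · have hsub1 : PP (Y r) ⊆ PP (Y (r + 1)) := PP_Y_mono (Nat.le_succ r)
      have hsub2 : PP (Y (r + 1)) ⊆ PP (Y R2) := PP_Y_mono (by omega)
      have hsplit : PP (Y R2) \ PP (Y r) = BL r ∪ (PP (Y R2) \ PP (Y (r + 1))) := by
        unfold BL
        ext p
        simp only [Finset.mem_sdiff, Finset.mem_union]
        constructor
        · rintro ⟨h1, h2⟩
          by_cases h3 : p ∈ PP (Y (r + 1))
          · exact Or.inl ⟨h3, h2⟩
          · exact Or.inr ⟨h1, h3⟩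
        · rintro (⟨h1, h2⟩ | ⟨h1, h2⟩)
          · exact ⟨hsub2 h1, h2⟩
          · exact ⟨h1, fun h3 => h2 (hsub1 h3)⟩
      have hdisj : Disjoint (BL r) (PP (Y R2) \ PP (Y (r + 1))) := by
        unfold BL
        rw [Finset.disjoint_left]
        intro p h1 h2
        exact (Finset.mem_sdiff.1 h2).2 (Finset.mem_sdiff.1 h1).1
      rw [hsplit, e6_pr_union hdisj]
      have h1 : av (BL r) (fun T => pr (PP (Y R2) \ PP (Y (r + 1))) (fun T' =>
          ∃ r' ∈ Finset.Icc r R2, lam ≤ X r' (T0 ∪ (T ∪ T')))) ≤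
          av (BL r) (fun T => (1 / lam) * X (r + 1) (T0 ∪ T)) := by
        refine av_mono fun T hT => ?_
        have hT1 : T0 ∪ T ⊆ PP (Y (r + 1)) := by
          apply Finset.union_subset (hT0.trans hsub1)
          intro p hp
          have := hT hp
          unfold BL at this
          exact (Finset.mem_sdiff.1 this).1
        have h2 := ih (r + 1) (by omega) (by omega) (T0 ∪ T) hT1
        rw [one_div, inv_mul_eq_div]
        refine (pr_mono fun T' hT' h3 => ?_).trans h2
        obtain ⟨r', hr', h4⟩ := h3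
        rw [Finset.mem_Icc] at hr'
        rcases Nat.eq_or_lt_of_le hr'.1 with h5 | h5
        · exfalso
          apply h
          rw [← h5, hdep] at h4
          have h6 : (T0 ∪ (T ∪ T')) ∩ PP (Y r) = T0 := by
            ext p
            simp only [Finset.mem_inter, Finset.mem_union]
            constructor
            · rintro ⟨h7 | h7 | h7, h8⟩
              · exact h7
              · have := hT h7
                unfold BL at this
                exact absurd h8 (Finset.mem_sdiff.1 this).2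
              · exact absurd (hsub1 h8) (Finset.mem_sdiff.1 (hT' h7)).2
            · intro h7
              exact ⟨Or.inl h7, hT0 h7⟩
          rw [h6] at h4
          exact h4
        · refine ⟨r', Finset.mem_Icc.2 ⟨h5, hr'.2⟩, ?_⟩
          rw [Finset.union_assoc]
          exact h4
      refine h1.trans ?_
      rw [av_mul_left, one_div, inv_mul_eq_div]
      exact div_le_div_of_nonneg_right (hsup r hR (by omega) T0 hT0) hl.le

theorem maxsm (X : ℕ → Finset ℕ → ℝ) (R1 R2 : ℕ) (h12 : R1 ≤ R2) (lam : ℝ) (hl : 0 < lam)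
    (h0 : ∀ r T, 0 ≤ X r T) (hdep : ∀ r T, X r T = X r (T ∩ PP (Y r)))
    (hsup : ∀ r, R1 ≤ r → r < R2 → ∀ T0 ⊆ PP (Y r), av (BL r) (fun T => X (r + 1) (T0 ∪ T)) ≤ X r T0) :
    pr (PP (Y R2)) (fun T => ∃ r ∈ Finset.Icc R1 R2, lam ≤ X r T) ≤ av (PP (Y R1)) (X R1) / lam := by
  have hsub : PP (Y R1) ⊆ PP (Y R2) := PP_Y_mono h12
  have hdisj : Disjoint (PP (Y R1)) (PP (Y R2) \ PP (Y R1)) := Finset.disjoint_sdiff
  rw [← Finset.union_sdiff_of_subset hsub, e6_pr_union hdisj]
  have h1 : av (PP (Y R1)) (fun T => pr (PP (Y R2) \ PP (Y R1)) (fun T' =>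
      ∃ r ∈ Finset.Icc R1 R2, lam ≤ X r (T ∪ T'))) ≤
      av (PP (Y R1)) (fun T => (1 / lam) * X R1 T) := by
    refine av_mono fun T0 hT0 => ?_
    have h2 := e6_step X R1 R2 lam hl h0 hdep hsup (R2 - R1) R1 le_rfl (by omega) T0 hT0
    rw [one_div, inv_mul_eq_div]
    exact h2
  refine h1.trans ?_
  rw [av_mul_left, one_div, inv_mul_eq_div]

end Pool.Agent.Helper96.AF
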