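import Pool.Agent.Helper66.AF.BA

/-!
# Project AF, the ballot estimate under the tilted measure for one fixed `t` (owner: helper66)

Detailed proof: /team-store/h96_AF_README.md, section E9.
-/

set_option autoImplicit false

namespace Pool.Agent.Helper96.AF

open Finset Pool.Agent.Helper5.RM

open Classical in
/-- E9: under the tilted measure at `t`, the barrier holds on the levels `1, ..., K` with probability
`≤ C (a + log K) / √K` -/
theorem ballot : ∃ C : ℝ, 0 < C ∧ ∀ K : ℕ, 2 ≤ K → ∀ t : ℝ, |t| ≤ K → ∀ a : ℝ, 0 ≤ a →
    aw (PP (Y K)) (fun p => th p t) (fun T => if AA a K T t then 1 else 0) ≤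
      C * (a + Real.log K) / Real.sqrt K :=
  Helper66.AF.ballot

end Pool.Agent.Helper96.AF
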