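import Pool.Agent.Helper96.AF.E7
import Pool.Agent.Helper96.AF.E1a
import Pool.Agent.Helper96.AF.BALL

/-!
# Project AF (MP_a499ba_nt), block E7b

The mean of the truncated mass. PROOF: interchange of average and integral: `av (PP (Y K)) (TI K a K) = ∫_{-K}^{K} ww t * aw (PP (Y K)) (th · t) (1_{AA a K T t}) dt ≤
C (a + log K)/√K * ∫ ww` (`ballot`), and `∫ ww = 1` (`cos_int 0`), `ww ≥ 0`.
-/

set_option autoImplicit false

namespace Pool.Agent.Helper96.AF

open Finset Pool.Agent.Helper5.RM

private lemma ww_nonneg (t : ℝ) : 0 ≤ ww t := by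
  unfold ww
  have := Real.pi_pos
  positivity

private lemma int_ww : ∫ t, ww t = 1 := by
  have h := cos_int 0
  simpa using h

theorem TI_mean : ∃ C : ℝ, 0 < C ∧ ∀ K : ℕ, 2 ≤ K → ∀ a : ℝ, 0 ≤ a →
    av (PP (Y K)) (TI K a K) ≤ C * (a + Real.log K) / Real.sqrt K := by
  classical
  obtain ⟨C, hC, hball⟩ := ballot
  refine ⟨C, hC, fun K hK a ha => ?_⟩
  set S := PP (Y K) with hS
  have hS2 : ∀ p ∈ S, 2 ≤ p := fun p hp => (mem_PP.1 hp).1.two_le
  have hK0 : (0 : ℝ) ≤ K := Nat.cast_nonneg K
  have hlog : 0 ≤ Real.log K := Real.log_natCast_nonneg K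
  set c : ℝ := C * (a + Real.log K) / Real.sqrt K with hc
  have hc0 : 0 ≤ c := by positivity
  set f : Finset ℕ → ℝ → ℝ := fun T t => if AA a K T t then dd S T t * ww t else 0 with hf
  have hTI : ∀ T, TI K a K T = ∫ t in Set.Ioc (-(K : ℝ)) K, f T t := by
    intro T
    unfold TI
    rw [intervalIntegral.integral_of_le (by linarith)]
  have hint : ∀ T, MeasureTheory.Integrable (f T) := by
    intro T
    have h := (integrable_dd S hS2 T).indicator (measurable_AA a K T)
    refine h.congr (Filter.Eventually.of_forall fun t => ?_)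
    simp only [hf, Set.indicator]
    rfl
  have h1 : av S (TI K a K) = ∫ t in Set.Ioc (-(K : ℝ)) K, av S (fun T => f T t) := by
    rw [← av_integral S f (Set.Ioc (-(K : ℝ)) K) (fun T _ => (hint T).integrableOn)]
    exact av_congr fun T _ => hTI T
  have h2 : ∀ t ∈ Set.Ioc (-(K : ℝ)) K, av S (fun T => f T t) ≤ c * ww t := by
    intro t ht
    have h3 := hball K hK t (abs_le.2 ⟨ht.1.le, ht.2⟩) a ha
    have h4 : av S (fun T => f T t) = ww t * aw S (fun p => th p t) (fun T => if AA a K T t then 1 else 0) := by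
      unfold aw
      rw [← av_mul_left]
      apply av_congr
      intro T _
      simp only [hf, dd]
      split_ifs
      · ring
      · ring
    rw [h4, mul_comm c]
    exact mul_le_mul_of_nonneg_left h3 (ww_nonneg t)
  have h3 : MeasureTheory.IntegrableOn (fun t => av S (fun T => f T t)) (Set.Ioc (-(K : ℝ)) K) := by
    unfold av
    apply MeasureTheory.Integrable.div_const
    exact MeasureTheory.integrable_finsetSum _ fun T _ => (hint T).integrableOn
  rw [h1]
  calc ∫ t in Set.Ioc (-(K : ℝ)) K, av S (fun T => f T t)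
      ≤ ∫ t in Set.Ioc (-(K : ℝ)) K, c * ww t :=
        MeasureTheory.setIntegral_mono_on h3 (integrable_ww.const_mul c).integrableOn measurableSet_Ioc h2
    _ ≤ ∫ t, c * ww t :=
        MeasureTheory.setIntegral_le_integral (integrable_ww.const_mul c)
          (Filter.Eventually.of_forall fun t => mul_nonneg hc0 (ww_nonneg t))
    _ = c := by rw [MeasureTheory.integral_const_mul, int_ww, mul_one]

end Pool.Agent.Helper96.AF
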