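import Pool.Agent.Helper96.AF.E2

/-!
# Project AF (MP_a499ba_nt), block E8

The mass of `|t| > K` is a martingale with mean `∫_{|t|>K} ww ≤ 1/K`. PROOF: `av_integral`, `av_dd_union`, `av_dd`; `ww t ≤ 1/(2 π t^2)` and
`∫_K^∞ dt/t^2 = 1/K` (two sides: `1/(π K)`).
-/

set_option autoImplicit false

namespace Pool.Agent.Helper96.AF

open Finset Pool.Agent.Helper5.RM

private lemma PP_two_le (r : ℕ) : ∀ p ∈ PP (Y r), 2 ≤ p := fun _ hp => two_le_of_mem_PP hp

theorem TA_nonneg (K r : ℕ) (T : Finset ℕ) : 0 ≤ TA K r T := by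
  unfold TA
  exact MeasureTheory.integral_nonneg fun t => mul_nonneg (dd_nonneg (PP_two_le r) T t) (ww_pos t).le

theorem TA_dep (K r : ℕ) (T : Finset ℕ) : TA K r T = TA K r (T ∩ PP (Y r)) := by
  unfold TA
  refine MeasureTheory.integral_congr_ae (Filter.Eventually.of_forall fun t => ?_)
  show dd (PP (Y r)) T t * ww t = dd (PP (Y r)) (T ∩ PP (Y r)) t * ww t
  congr 1
  unfold dd
  refine Finset.prod_congr rfl fun p hp => ?_
  rw [sg_congr (T := T) (T' := T ∩ PP (Y r)) (by simp [hp])]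

private lemma av_mul_ww (S : Finset ℕ) (F : Finset ℕ → ℝ) (c : ℝ) : av S (fun T => F T * c) = av S F * c := by
  rw [mul_comm, ← av_mul_left]
  exact av_congr fun T _ => mul_comm _ _

theorem TA_mart (K r : ℕ) (T0 : Finset ℕ) (hT0 : T0 ⊆ PP (Y r)) :
    av (BL r) (fun T => TA K (r + 1) (T0 ∪ T)) = TA K r T0 := by
  unfold TA
  rw [av_integral (BL r) (fun T t => dd (PP (Y (r + 1))) (T0 ∪ T) t * ww t) _
    (fun T _ => (integrable_dd _ (PP_two_le (r + 1)) (T0 ∪ T)).integrableOn)]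
  refine MeasureTheory.integral_congr_ae (Filter.Eventually.of_forall fun t => ?_)
  show av (BL r) (fun T => dd (PP (Y (r + 1))) (T0 ∪ T) t * ww t) = dd (PP (Y r)) T0 t * ww t
  rw [av_mul_ww, PP_Y_succ, av_dd_union _ _ (BL_disj r) T0 hT0 t]

private lemma ww_abs (t : ℝ) : ww |t| = ww t := by
  unfold ww
  rw [sq_abs]

theorem TA_mean (K r : ℕ) (hK : 1 ≤ K) : av (PP (Y r)) (TA K r) ≤ 1 / K := by
  have hK0 : (0 : ℝ) < K := by exact_mod_cast hK
  have h1 : av (PP (Y r)) (TA K r) = ∫ t in {t : ℝ | (K : ℝ) < |t|}, ww t := by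
    unfold TA
    rw [av_integral (PP (Y r)) (fun T t => dd (PP (Y r)) T t * ww t) _
      (fun T _ => (integrable_dd _ (PP_two_le r) T).integrableOn)]
    refine MeasureTheory.integral_congr_ae (Filter.Eventually.of_forall fun t => ?_)
    show av (PP (Y r)) (fun T => dd (PP (Y r)) T t * ww t) = ww t
    rw [av_mul_ww, av_dd, one_mul]
  have hmeas : MeasurableSet {t : ℝ | (K : ℝ) < |t|} := measurableSet_lt measurable_const (by fun_prop)
  have h2 : ∫ t in {t : ℝ | (K : ℝ) < |t|}, ww t = 2 * ∫ t in Set.Ioi (K : ℝ), ww t := by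
    rw [← MeasureTheory.integral_indicator hmeas]
    have h3 := integral_comp_abs (f := (Set.Ioi (K : ℝ)).indicator ww)
    have h4 : (fun x : ℝ => (Set.Ioi (K : ℝ)).indicator ww |x|) = {t : ℝ | (K : ℝ) < |t|}.indicator ww := by
      funext x
      by_cases hx : (K : ℝ) < |x|
      · rw [Set.indicator_of_mem (show |x| ∈ Set.Ioi (K : ℝ) from hx),
          Set.indicator_of_mem (show x ∈ {t : ℝ | (K : ℝ) < |t|} from hx), ww_abs]
      · rw [Set.indicator_of_notMem (show |x| ∉ Set.Ioi (K : ℝ) from hx),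
          Set.indicator_of_notMem (show x ∉ {t : ℝ | (K : ℝ) < |t|} from hx)]
    rw [h4] at h3
    rw [h3, MeasureTheory.setIntegral_indicator measurableSet_Ioi]
    congr 2
    have h5 : Set.Ioi (0 : ℝ) ∩ Set.Ioi (K : ℝ) = Set.Ioi (K : ℝ) :=
      Set.inter_eq_right.2 (Set.Ioi_subset_Ioi hK0.le)
    rw [h5]
  have h6 : ∫ t in Set.Ioi (K : ℝ), ww t ≤ ∫ t in Set.Ioi (K : ℝ), (1 / (2 * Real.pi)) * t ^ (-2 : ℝ) := by
    refine MeasureTheory.setIntegral_mono_on ?_ ?_ measurableSet_Ioi fun t ht => ?_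
    · have := (integrable_dd ∅ (by simp) ∅).integrableOn (s := Set.Ioi (K : ℝ))
      simpa [dd] using this
    · exact (integrableOn_Ioi_rpow_of_lt (by norm_num) hK0).const_mul _
    · have ht0 : (0 : ℝ) < t := hK0.trans ht
      unfold ww
      rw [Real.rpow_neg ht0.le, Real.rpow_two, ← one_div, one_div_mul_one_div]
      have hpi := Real.pi_pos
      refine one_div_le_one_div_of_le (by positivity) ?_
      nlinarith
  have h7 : ∫ t in Set.Ioi (K : ℝ), (1 / (2 * Real.pi)) * t ^ (-2 : ℝ) = 1 / (2 * Real.pi) * (1 / K) := by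
    rw [MeasureTheory.integral_const_mul, integral_Ioi_rpow_of_lt (by norm_num) hK0]
    congr 1
    have h8 : (-2 : ℝ) + 1 = -1 := by norm_num
    rw [h8, Real.rpow_neg_one]
    field_simp
  rw [h1, h2]
  have h9 : 2 * (1 / (2 * Real.pi) * (1 / K)) ≤ 1 / (K : ℝ) := by
    have hpi := Real.pi_gt_three
    have h10 : 2 * (1 / (2 * Real.pi) * (1 / (K : ℝ))) = 1 / Real.pi * (1 / K) := by field_simp
    rw [h10]
    refine mul_le_of_le_one_left (by positivity) ?_
    rw [div_le_one (by linarith)]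
    linarith
  calc 2 * ∫ t in Set.Ioi (K : ℝ), ww t ≤ 2 * (1 / (2 * Real.pi) * (1 / K)) := by
        rw [← h7]; linarith
    _ ≤ 1 / K := h9

end Pool.Agent.Helper96.AF
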