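import Pool.Agent.Helper96.AF.E5
import Pool.Agent.Helper96.AF.E6
import Pool.Agent.Helper96.AF.E7b
import Pool.Agent.Helper96.AF.E8

/-!
# Project AF (MP_a499ba_nt), block E10

The critical chaos. PROOF: let `C` be the constant of `barrier`, `a = C log K`. If `T` is not in the event of `barrier` then `AA a r T t` holds for all `r ≤ 2K`, `|t| ≤ K`
(`-K 2^l ≤ ⌊2^l t⌋ ≤ K 2^l`), so `DI r T = TI K a r T + TA K r T` (the set `|t| ≤ K` is the interval `[-K, K]`; the integral over `ℝ` splits). Hence the probability is at most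
`1/K + pr (∃ r ∈ Icc K (2K), λ ≤ TI K a r T) + pr (∃ r ∈ Icc K (2K), λ ≤ TA K r T)`, `λ = K^(-1/2+δ)/2`; `maxsm` with `R1 = K`, `R2 = 2K`, `TI_mean`, `TA_mean`:
`≤ 1/K + 2 C' (C + 1) log K * K^(-δ) + 2 K^(-1/2-δ) ≤ K^(-δ/2)` for `K ≥ K1(δ)` (`log K ≤ K^(δ/4)/..`: `isLittleO_log_rpow_atTop`; `δ ≤ 1/2`).
-/

set_option autoImplicit false

namespace Pool.Agent.Helper96.AF

open Finset Pool.Agent.Helper5.RM

/-- off the event of `barrier` the barrier holds at all points `|t| ≤ K` -/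
lemma E10_AA {K r : ℕ} {a : ℝ} {T : Finset ℕ} (hr : r ≤ 2 * K)
    (hB : ¬ ∃ l ∈ Finset.Icc 1 (2 * K), ∃ j ∈ Finset.Icc (-((K : ℤ) * 2 ^ l)) ((K : ℤ) * 2 ^ l),
      Real.exp a < UU l T j) {t : ℝ} (h1 : -(K : ℝ) ≤ t) (h2 : t ≤ K) : AA a r T t := by
  intro l hl
  rw [Finset.mem_Icc] at hl
  by_contra hc
  rw [not_le] at hc
  refine hB ⟨l, Finset.mem_Icc.2 ⟨hl.1, hl.2.trans hr⟩, ⌊2 ^ l * t⌋, ?_, hc⟩
  have hp : (0 : ℝ) < 2 ^ l := by positivity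
  rw [Finset.mem_Icc]
  constructor
  · rw [Int.le_floor]
    push_cast
    nlinarith
  · have h3 : (⌊2 ^ l * t⌋ : ℝ) ≤ 2 ^ l * t := Int.floor_le _
    have h4 : (⌊2 ^ l * t⌋ : ℝ) ≤ (((K : ℤ) * 2 ^ l : ℤ) : ℝ) := by
      push_cast
      nlinarith
    exact_mod_cast h4

/-- the splitting of the total mass -/
lemma E10_split {K r : ℕ} {a : ℝ} {T : Finset ℕ} (hr : r ≤ 2 * K)
    (hB : ¬ ∃ l ∈ Finset.Icc 1 (2 * K), ∃ j ∈ Finset.Icc (-((K : ℤ) * 2 ^ l)) ((K : ℤ) * 2 ^ l),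
      Real.exp a < UU l T j) : DI r T = TI K a r T + TA K r T := by
  have hK : -(K : ℝ) ≤ K := by
    have : (0 : ℝ) ≤ K := Nat.cast_nonneg K
    linarith
  have hint := integrable_dd (PP (Y r)) (fun p hp => two_le_of_mem_PP hp) T
  have hS : MeasurableSet {t : ℝ | (K : ℝ) < |t|} := measurableSet_lt measurable_const measurable_id.abs
  have hc : {t : ℝ | (K : ℝ) < |t|}ᶜ = Set.Icc (-(K : ℝ)) K := by
    ext t
    simp only [Set.mem_compl_iff, Set.mem_ofPred_eq, not_lt, Set.mem_Icc, abs_le]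
  have e1 := MeasureTheory.integral_add_compl hS hint
  have e2 : TI K a r T = ∫ t in Set.Icc (-(K : ℝ)) K, dd (PP (Y r)) T t * ww t := by
    unfold TI
    rw [intervalIntegral.integral_of_le hK, MeasureTheory.integral_Icc_eq_integral_Ioc]
    refine MeasureTheory.setIntegral_congr_fun measurableSet_Ioc fun t ht => ?_
    have := E10_AA hr hB ht.1.le ht.2
    simp only [if_pos this]
  unfold DI TA
  rw [e2, ← e1, hc]
  ring

theorem chaos (δ : ℝ) (hδ : 0 < δ) (hδ2 : δ ≤ 1 / 2) : ∃ K1 : ℕ, ∀ K : ℕ, K1 ≤ K →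
    pr (PP (Y (2 * K))) (fun T => ∃ r ∈ Finset.Icc K (2 * K), (K : ℝ) ^ (-(1 / 2) + δ) < DI r T) ≤
      (K : ℝ) ^ (-(δ / 2)) := by
  obtain ⟨C, hC, hbar⟩ := barrier
  obtain ⟨C', hC', hTI⟩ := TI_mean
  -- the numerical part
  have lim : Filter.Tendsto (fun x : ℝ => x ^ (-(1 - δ / 2)) + 2 * C' * (C + 1) * (Real.log x / x ^ (δ / 2)) +
      2 * x ^ (-(1 / 2 + δ / 2))) Filter.atTop (nhds 0) := by
    have l1 : Filter.Tendsto (fun x : ℝ => x ^ (-(1 - δ / 2))) Filter.atTop (nhds 0) :=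
      tendsto_rpow_neg_atTop (by linarith)
    have l2 : Filter.Tendsto (fun x : ℝ => Real.log x / x ^ (δ / 2)) Filter.atTop (nhds 0) :=
      (isLittleO_log_rpow_atTop (by linarith)).tendsto_div_nhds_zero
    have l3 : Filter.Tendsto (fun x : ℝ => x ^ (-(1 / 2 + δ / 2))) Filter.atTop (nhds 0) :=
      tendsto_rpow_neg_atTop (by linarith)
    have := (l1.add (l2.const_mul (2 * C' * (C + 1)))).add (l3.const_mul 2)
    simpa using this
  have ev : ∀ᶠ K : ℕ in Filter.atTop, (K : ℝ) ^ (-(1 - δ / 2)) + 2 * C' * (C + 1) * (Real.log K / (K : ℝ) ^ (δ / 2)) +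
      2 * (K : ℝ) ^ (-(1 / 2 + δ / 2)) ≤ 1 := by
    have h1 : ∀ᶠ x : ℝ in Filter.atTop, x ^ (-(1 - δ / 2)) + 2 * C' * (C + 1) * (Real.log x / x ^ (δ / 2)) +
        2 * x ^ (-(1 / 2 + δ / 2)) ≤ 1 := (lim.eventually (ge_mem_nhds (by norm_num : (0 : ℝ) < 1)))
    exact tendsto_natCast_atTop_atTop.eventually h1
  obtain ⟨K0, hK0⟩ := Filter.eventually_atTop.1 ev
  refine ⟨max K0 2, fun K hK => ?_⟩
  have hK2 : 2 ≤ K := (le_max_right _ _).trans hK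
  have hnum := hK0 K ((le_max_left _ _).trans hK)
  have hKr : (0 : ℝ) < K := by
    have : 0 < K := by omega
    exact_mod_cast this
  have hK1 : (1 : ℝ) ≤ K := by
    have : 1 ≤ K := by omega
    exact_mod_cast this
  have hlog : 0 ≤ Real.log K := Real.log_nonneg hK1
  set a : ℝ := C * Real.log K with ha
  have ha0 : 0 ≤ a := by positivity
  set lam : ℝ := (K : ℝ) ^ (-(1 / 2) + δ) / 2 with hlam
  have hlam0 : 0 < lam := by positivity
  have hsub : ∀ T ⊆ PP (Y (2 * K)), (∃ r ∈ Finset.Icc K (2 * K), (K : ℝ) ^ (-(1 / 2) + δ) < DI r T) →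
      (∃ l ∈ Finset.Icc 1 (2 * K), ∃ j ∈ Finset.Icc (-((K : ℤ) * 2 ^ l)) ((K : ℤ) * 2 ^ l),
        Real.exp (C * Real.log K) < UU l T j) ∨
      ((∃ r ∈ Finset.Icc K (2 * K), lam ≤ TI K a r T) ∨ (∃ r ∈ Finset.Icc K (2 * K), lam ≤ TA K r T)) := by
    rintro T - ⟨r, hr, hD⟩
    by_cases hB : ∃ l ∈ Finset.Icc 1 (2 * K), ∃ j ∈ Finset.Icc (-((K : ℤ) * 2 ^ l)) ((K : ℤ) * 2 ^ l),
        Real.exp (C * Real.log K) < UU l T j
    · exact Or.inl hB
    · right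
      have h1 := E10_split (K := K) (a := a) (T := T) (Finset.mem_Icc.1 hr).2 hB
      by_cases h2 : lam ≤ TI K a r T
      · exact Or.inl ⟨r, hr, h2⟩
      · refine Or.inr ⟨r, hr, ?_⟩
        rw [not_le] at h2
        rw [h1] at hD
        rw [hlam] at h2 ⊢
        linarith
  have p1 := pr_le_add hsub
  have p2 := pr_or (PP (Y (2 * K))) (fun T => ∃ r ∈ Finset.Icc K (2 * K), lam ≤ TI K a r T)
    (fun T => ∃ r ∈ Finset.Icc K (2 * K), lam ≤ TA K r T)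
  have p3 := hbar K hK2
  have p4 := maxsm (fun r T => TI K a r T) K (2 * K) (by omega) lam hlam0 (fun r T => TI_nonneg K a r T)
    (fun r T => TI_dep K a r T) (fun r _ _ T0 hT0 => TI_sup K a r T0 hT0)
  have p5 := maxsm (fun r T => TA K r T) K (2 * K) (by omega) lam hlam0 (fun r T => TA_nonneg K r T)
    (fun r T => TA_dep K r T) (fun r _ _ T0 hT0 => (TA_mart K r T0 hT0).le)
  have p6 : av (PP (Y K)) (fun T => TI K a K T) / lam ≤ (C' * (a + Real.log K) / Real.sqrt K) / lam :=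
    div_le_div_of_nonneg_right (hTI K hK2 a ha0) hlam0.le
  have p7 : av (PP (Y K)) (fun T => TA K K T) / lam ≤ (1 / K) / lam :=
    div_le_div_of_nonneg_right (TA_mean K K (by omega)) hlam0.le
  have key : (1 : ℝ) / K + ((C' * (a + Real.log K) / Real.sqrt K) / lam + (1 / K) / lam) ≤ (K : ℝ) ^ (-(δ / 2)) := by
    have hP : 0 < (K : ℝ) ^ (-(δ / 2)) := by positivity
    have f1 : (1 : ℝ) / K = (K : ℝ) ^ (-(δ / 2)) * (K : ℝ) ^ (-(1 - δ / 2)) := by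
      rw [← Real.rpow_add hKr, show -(δ / 2) + -(1 - δ / 2) = (-1 : ℝ) by ring, Real.rpow_neg_one, one_div]
    have f2 : (C' * (a + Real.log K) / Real.sqrt K) / lam =
        (K : ℝ) ^ (-(δ / 2)) * (2 * C' * (C + 1) * (Real.log K / (K : ℝ) ^ (δ / 2))) := by
      have g1 : Real.sqrt K * (K : ℝ) ^ (-(1 / 2) + δ) = (K : ℝ) ^ δ := by
        rw [Real.sqrt_eq_rpow, ← Real.rpow_add hKr]
        congr 1
        ring
      have g2 : (K : ℝ) ^ δ = (K : ℝ) ^ (δ / 2) * (K : ℝ) ^ (δ / 2) := by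
        rw [← Real.rpow_add hKr]
        congr 1
        ring
      have g3 : (K : ℝ) ^ (-(δ / 2)) = ((K : ℝ) ^ (δ / 2))⁻¹ := Real.rpow_neg hKr.le _
      have g4 : 0 < (K : ℝ) ^ (δ / 2) := by positivity
      have g5 : 0 < Real.sqrt K := Real.sqrt_pos.2 hKr
      have g6 : 0 < (K : ℝ) ^ (-(1 / 2) + δ) := by positivity
      rw [hlam, ha, g3, div_div, show Real.sqrt K * ((K : ℝ) ^ (-(1 / 2) + δ) / 2) =
        (Real.sqrt K * (K : ℝ) ^ (-(1 / 2) + δ)) / 2 by ring, g1, g2]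
      field_simp
    have f3 : ((1 : ℝ) / K) / lam = (K : ℝ) ^ (-(δ / 2)) * (2 * (K : ℝ) ^ (-(1 / 2 + δ / 2))) := by
      have g1 : (K : ℝ) * (K : ℝ) ^ (-(1 / 2) + δ) = (K : ℝ) ^ (1 / 2 + δ) := by
        nth_rewrite 1 [← Real.rpow_one (K : ℝ)]
        rw [← Real.rpow_add hKr]
        congr 1
        ring
      have g2 : (K : ℝ) ^ (-(δ / 2)) * (2 * (K : ℝ) ^ (-(1 / 2 + δ / 2))) = 2 * ((K : ℝ) ^ (1 / 2 + δ))⁻¹ := by
        rw [← Real.rpow_neg hKr.le, show (K : ℝ) ^ (-(δ / 2)) * (2 * (K : ℝ) ^ (-(1 / 2 + δ / 2))) =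
          2 * ((K : ℝ) ^ (-(δ / 2)) * (K : ℝ) ^ (-(1 / 2 + δ / 2))) by ring, ← Real.rpow_add hKr]
        congr 2
        ring
      rw [g2, hlam, div_div, show (K : ℝ) * ((K : ℝ) ^ (-(1 / 2) + δ) / 2) =
        ((K : ℝ) * (K : ℝ) ^ (-(1 / 2) + δ)) / 2 by ring, g1]
      have g3 : 0 < (K : ℝ) ^ (1 / 2 + δ) := by positivity
      field_simp
    rw [f2, f3, f1, ← mul_add, ← mul_add]
    calc (K : ℝ) ^ (-(δ / 2)) * ((K : ℝ) ^ (-(1 - δ / 2)) + (2 * C' * (C + 1) * (Real.log K / (K : ℝ) ^ (δ / 2)) +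
          2 * (K : ℝ) ^ (-(1 / 2 + δ / 2)))) ≤ (K : ℝ) ^ (-(δ / 2)) * 1 :=
          mul_le_mul_of_nonneg_left (by linarith) hP.le
      _ = _ := mul_one _
  linarith

end Pool.Agent.Helper96.AF
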