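import Pool.Agent.Helper96.AF.E1b
import Pool.Agent.Helper96.AF.E1c
import Pool.Agent.Helper96.AF.ZI

/-!
# Project AF (MP_a499ba_nt), block E1d

PROOF of `plancherel`: `NN T (y+1) n = ∑ rf T m` over the squarefree `m ≤ n` with all primes `≤ y`, i.e. over `m = n_U`, `U ⊆ PP y`, `m ≤ n`; `double_max` with
`s` the image of `(PP y).powerset` under `U ↦ ∏_{p ∈ U} p` (injective, `Squarefree`, `primeFactors = U`), `f = rf T`; then `int_dd`.
`II_le`: `plancherel` with `y = Y r` and `mertens_prod`.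
-/

set_option autoImplicit false

namespace Pool.Agent.Helper96.AF

open Finset Pool.Agent.Helper5.RM

private lemma sqf_prod (U : Finset ℕ) (hU : ∀ p ∈ U, p.Prime) : Squarefree (∏ p ∈ U, p) := by
  induction U using Finset.induction_on with
  | empty => simp
  | insert q U hq ih =>
    rw [Finset.prod_insert hq]
    have hqp := hU q (Finset.mem_insert_self q U)
    have hU' : ∀ p ∈ U, p.Prime := fun p hp => hU p (Finset.mem_insert_of_mem hp)
    have hc : Nat.Coprime q (∏ p ∈ U, p) := by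
      apply Nat.Coprime.prod_right
      intro p hp
      rw [Nat.coprime_primes hqp (hU' p hp)]
      rintro rfl
      exact hq hp
    rw [Nat.squarefree_mul hc]
    exact ⟨hqp.prime.squarefree, ih hU'⟩

private lemma prime_of_sub {y : ℕ} {U : Finset ℕ} (hU : U ∈ (PP y).powerset) : ∀ p ∈ U, p.Prime :=
  fun _ hp => (mem_PP.1 (Finset.mem_powerset.1 hU hp)).1

theorem plancherel (y Z : ℕ) (T : Finset ℕ) :
    ∑ n ∈ Finset.Icc 1 Z, NN T (y + 1) n ^ 2 / ((n : ℝ) * (n + 1)) ≤
      (∏ p ∈ PP y, (1 + (1 : ℝ) / p)) * ∫ t, dd (PP y) T t * ww t := by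
  classical
  set s : Finset ℕ := (PP y).powerset.image (fun U => ∏ p ∈ U, p) with hs
  have hs1 : ∀ m ∈ s, 1 ≤ m := by
    intro m hm
    obtain ⟨U, hU, rfl⟩ := Finset.mem_image.1 hm
    exact Finset.prod_pos fun p hp => (prime_of_sub hU p hp).pos
  have hN : ∀ n : ℕ, NN T (y + 1) n = ∑ m ∈ s.filter (· ≤ n), rf T m := by
    intro n
    unfold NN
    symm
    apply Finset.sum_subset
    · intro m hm
      rw [Finset.mem_filter] at hm
      obtain ⟨U, hU, rfl⟩ := Finset.mem_image.1 hm.1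
      rw [mem_SM]
      refine ⟨⟨hs1 _ hm.1, hm.2⟩, ?_⟩
      rw [Nat.primeFactors_prod (prime_of_sub hU)]
      intro p hp
      have := (mem_PP.1 (Finset.mem_powerset.1 hU hp)).2
      omega
    · intro m hm hm'
      by_cases hsq : Squarefree m
      · exfalso
        apply hm'
        rw [mem_SM] at hm
        rw [Finset.mem_filter]
        refine ⟨Finset.mem_image.2 ⟨m.primeFactors, ?_, Nat.prod_primeFactors_of_squarefree hsq⟩, hm.1.2⟩
        rw [Finset.mem_powerset]
        intro p hp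
        rw [mem_PP]
        have := hm.2 p hp
        exact ⟨Nat.prime_of_mem_primeFactors hp, by omega⟩
      · exact rf_not hsq
  have h1 := double_max s hs1 (rf T) Z
  have h2 : ∑ m ∈ s, ∑ m' ∈ s, rf T m * rf T m' / ((max m m' : ℕ) : ℝ) =
      ∑ U ∈ (PP y).powerset, ∑ V ∈ (PP y).powerset,
        wal T U * wal T V / ((max (∏ p ∈ U, p) (∏ p ∈ V, p) : ℕ) : ℝ) := by
    have hinj : Set.InjOn (fun U : Finset ℕ => ∏ p ∈ U, p) ((PP y).powerset : Set (Finset ℕ)) := by
      intro U hU V hV h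
      have e1 := Nat.primeFactors_prod (prime_of_sub (Finset.mem_coe.1 hU))
      have e2 := Nat.primeFactors_prod (prime_of_sub (Finset.mem_coe.1 hV))
      simp only at h
      rw [← e1, ← e2, h]
    have hrf : ∀ U ∈ (PP y).powerset, rf T (∏ p ∈ U, p) = wal T U := by
      intro U hU
      rw [rf_sqf (sqf_prod U (prime_of_sub hU)), Nat.primeFactors_prod (prime_of_sub hU)]
    rw [hs, Finset.sum_image hinj]
    refine Finset.sum_congr rfl fun U hU => ?_
    rw [Finset.sum_image hinj]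
    refine Finset.sum_congr rfl fun V hV => ?_
    rw [hrf U hU, hrf V hV]
  rw [int_dd (PP y) T fun p hp => (mem_PP.1 hp).1, ← h2]
  refine le_trans (le_of_eq ?_) h1
  refine Finset.sum_congr rfl fun n _ => ?_
  rw [hN n]

theorem II_le : ∃ C : ℝ, 0 < C ∧ ∀ (r Z : ℕ) (T : Finset ℕ), II r Z T ≤ C * DI r T := by
  obtain ⟨C, hC, h⟩ := mertens_prod
  refine ⟨C, hC, fun r Z T => ?_⟩
  unfold II DI
  have hD : 0 ≤ ∫ t, dd (PP (Y r)) T t * ww t :=
    MeasureTheory.integral_nonneg fun t =>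
      mul_nonneg (dd_nonneg (fun p hp => two_le_of_mem_PP hp) T t) (ww_pos t).le
  rw [div_le_iff₀ (by positivity)]
  refine (plancherel (Y r) Z T).trans ?_
  calc (∏ p ∈ PP (Y r), (1 + (1 : ℝ) / p)) * ∫ t, dd (PP (Y r)) T t * ww t
      ≤ (C * 2 ^ r) * ∫ t, dd (PP (Y r)) T t * ww t := mul_le_mul_of_nonneg_right (h r) hD
    _ = _ := by ring

end Pool.Agent.Helper96.AF
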