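import Pool.Agent.Helper96.AF.F0
import Pool.Agent.Helper96.AF.E10
import Pool.Agent.Helper96.AF.D7
import Pool.Agent.Helper96.AF.E1d

/-!
# Project AF (MP_a499ba_nt), block F1

PROOF of `chaos_as`: `bc` with `M j = Y (2^(j+1))`, `Q j T = ∃ r ∈ Icc (2^j) (2^(j+1)), (2^j)^(-1/2+δ) < DI r T`, `g j = (2^j)^(-δ/2)` (`chaos`, `K = 2^j`). For `r` with `2^j ≤ r < 2^(j+1)`:
`(2^j)^(-1/2+δ) ≤ (r/2)^(-1/2+δ) ≤ 2 r^(-1/2+δ)`; `DI r T` only depends on `T ∩ PP (Y r)` (prove `DI_congr`).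
PROOF of `JJ_as`: `bc` with `M R = Y (R+1)`, `Q R T = ∃ r ∈ Icc (R - (log2 R + c)) R, r^δ * II r (Y (R+1)) T < JJ r (Y (R+1)) T`; union bound: `pr (PP (Y (R+1))) ≤ ∑_r C/r^2 ≤ (log2 R + c + 1) 4 C/R^2`,
summable (`log2 R ≤ √R`..); the event of `r` only depends on `T ∩ PP (Y (r+1))` (`JJ_congr`, `II_congr`, `av_restrict`). Then `II_le`, `chaos_as` and, for `N ≤ Y (R+1)`, `JJ_mono`, `JJ_congr`
(both sets are given by `ε p ω = -1` on the relevant primes): `∑_r JJ r N ≤ (log2 R + c + 1) R^δ C 2 (R/2)^(-1/2+δ) ≤ R^(-1/2+3δ)` for large `R`.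
-/

set_option autoImplicit false

namespace Pool.Agent.Helper96.AF

open Finset Pool.Agent.Helper5.RM

open MeasureTheory ProbabilityTheory

lemma DI_congr {r : ℕ} {T T' : Finset ℕ} (h : ∀ p ∈ PP (Y r), (p ∈ T ↔ p ∈ T')) : DI r T = DI r T' := by
  unfold DI dd
  congr 1
  funext t
  congr 1
  exact Finset.prod_congr rfl fun p hp => by rw [sg_congr (h p hp)]

lemma F1_mem_TT {Ω : Type*} (ε : ℕ → Ω → ℝ) (ω : Ω) {M p : ℕ} (hp : p ∈ PP M) : p ∈ TT ε ω M ↔ ε p ω = -1 := by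
  unfold TT
  rw [Finset.mem_filter]
  exact ⟨fun h => h.2, fun h => ⟨hp, h⟩⟩

lemma F1_TT_iff {Ω : Type*} (ε : ℕ → Ω → ℝ) (ω : Ω) {M M' p : ℕ} (hp : p.Prime) (h : p ≤ M) (h' : p ≤ M') :
    p ∈ TT ε ω M ↔ p ∈ TT ε ω M' := by
  rw [F1_mem_TT ε ω (mem_PP.2 ⟨hp, h⟩), F1_mem_TT ε ω (mem_PP.2 ⟨hp, h'⟩)]

/-- `x^(-s) ≤ 2 y^(-s)` for `y ≤ 2 x`, `0 ≤ s ≤ 1` -/
lemma F1_half {x y s : ℝ} (hy : 0 < y) (hxy : y ≤ 2 * x) (hs0 : 0 ≤ s) (hs1 : s ≤ 1) : x ^ (-s) ≤ 2 * y ^ (-s) := by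
  have h1 : y / 2 ≤ x := by linarith
  have h2 : x ^ (-s) ≤ (y / 2) ^ (-s) := Real.rpow_le_rpow_of_nonpos (by linarith) h1 (by linarith)
  refine h2.trans ?_
  rw [Real.div_rpow hy.le (by norm_num), Real.rpow_neg (by norm_num : (0 : ℝ) ≤ 2), div_inv_eq_mul, mul_comm]
  have h3 : (2 : ℝ) ^ s ≤ 2 := by
    calc (2 : ℝ) ^ s ≤ 2 ^ (1 : ℝ) := Real.rpow_le_rpow_of_exponent_le (by norm_num) hs1
      _ = 2 := Real.rpow_one 2
  exact mul_le_mul_of_nonneg_right h3 (by positivity)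

theorem chaos_as (δ : ℝ) (hδ : 0 < δ) (hδ2 : δ ≤ 1 / 2) {Ω : Type*} [MeasurableSpace Ω] (μ : Measure Ω)
    (ε : ℕ → Ω → ℝ) (hM : Unif μ ε) :
    ∀ᵐ ω ∂μ, ∃ R0 : ℕ, ∀ r, R0 ≤ r → DI r (TT ε ω (Y r)) ≤ 2 * (r : ℝ) ^ (-(1 / 2) + δ) := by
  obtain ⟨K1, hK1⟩ := chaos δ hδ hδ2
  have hg : Summable (fun j : ℕ => (((2 ^ j : ℕ) : ℝ)) ^ (-(δ / 2))) := by
    have h0 : (fun j : ℕ => (((2 ^ j : ℕ) : ℝ)) ^ (-(δ / 2))) = fun j : ℕ => ((2 : ℝ) ^ (-(δ / 2))) ^ j := by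
      funext j
      push_cast
      rw [← Real.rpow_natCast, ← Real.rpow_mul (by norm_num), ← Real.rpow_natCast, ← Real.rpow_mul (by norm_num), mul_comm]
    rw [h0]
    exact summable_geometric_of_lt_one (by positivity) (Real.rpow_lt_one_of_one_lt_of_neg (by norm_num) (by linarith))
  have key := bcU μ ε hM (fun j => Y (2 * 2 ^ j))
    (fun j T => ∃ r ∈ Finset.Icc (2 ^ j) (2 * 2 ^ j), (((2 ^ j : ℕ) : ℝ)) ^ (-(1 / 2) + δ) < DI r T) _ hg K1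
    (fun j hj => hK1 (2 ^ j) (hj.trans (Nat.lt_two_pow_self).le))
  filter_upwards [key] with ω hω
  obtain ⟨i1, hi1⟩ := hω
  refine ⟨2 ^ i1, fun r hr => ?_⟩
  have hr0 : r ≠ 0 := by
    have : 0 < 2 ^ i1 := by positivity
    omega
  have hj1 : 2 ^ Nat.log 2 r ≤ r := Nat.pow_log_le_self 2 hr0
  have hj2 : r < 2 ^ (Nat.log 2 r + 1) := Nat.lt_pow_succ_log_self (by norm_num) r
  have hj3 : i1 ≤ Nat.log 2 r := by
    have := Nat.log_mono_right (b := 2) hr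
    rwa [Nat.log_pow (by norm_num)] at this
  set j := Nat.log 2 r with hj
  have hno := hi1 j hj3
  have hr2 : r ≤ 2 * 2 ^ j := by
    rw [pow_succ] at hj2
    omega
  have hle : DI r (TT ε ω (Y (2 * 2 ^ j))) ≤ (((2 ^ j : ℕ) : ℝ)) ^ (-(1 / 2) + δ) := by
    by_contra hc
    exact hno ⟨r, Finset.mem_Icc.2 ⟨hj1, hr2⟩, not_le.1 hc⟩
  have hD : DI r (TT ε ω (Y r)) = DI r (TT ε ω (Y (2 * 2 ^ j))) := by
    refine DI_congr fun p hp => ?_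
    rw [mem_PP] at hp
    exact F1_TT_iff ε ω hp.1 hp.2 (hp.2.trans (Y_mono hr2))
  rw [hD]
  refine hle.trans ?_
  have hrr : (0 : ℝ) < r := by
    have : 0 < r := Nat.pos_of_ne_zero hr0
    exact_mod_cast this
  have := F1_half (x := ((2 ^ j : ℕ) : ℝ)) (y := r) (s := 1 / 2 - δ) hrr (by exact_mod_cast hr2) (by linarith) (by linarith)
  rw [show -(1 / 2) + δ = -(1 / 2 - δ) by ring]
  exact this

/-- the number of terms -/
lemma F1_log {R : ℕ} (hR : 1 ≤ R) : (Nat.log 2 R : ℝ) ≤ 3 * (R : ℝ) ^ ((1 : ℝ) / 2) := by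
  have h1 : (Nat.log 2 R : ℝ) ≤ Real.logb 2 R := Real.natLog_le_logb R 2
  have h2 : Real.log R ≤ (R : ℝ) ^ ((1 : ℝ) / 2) / (1 / 2) := Real.log_le_rpow_div (by positivity) (by norm_num)
  have h3 : (0.6931471803 : ℝ) < Real.log 2 := Real.log_two_gt_d9
  have h4 : 0 ≤ (R : ℝ) ^ ((1 : ℝ) / 2) := by positivity
  refine h1.trans ?_
  rw [Real.logb, div_le_iff₀ (by linarith)]
  nlinarith

/-- the union bound in `JJ_as` -/
lemma F1_union (δ C : ℝ) (hC : 0 < C) (c : ℕ)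
    (hJ : ∀ r Z : ℕ, 1 ≤ r → pr (PP (Y (r + 1))) (fun T => (r : ℝ) ^ δ * II r Z T < JJ r Z T) ≤ C / (r : ℝ) ^ 2)
    (R : ℕ) (hR1 : 2 ≤ R) (hR : 2 * (Nat.log 2 R + c) ≤ R) :
    pr (PP (Y (R + 1))) (fun T => ∃ r ∈ Finset.Icc (R - (Nat.log 2 R + c)) R,
      (r : ℝ) ^ δ * II r (Y (R + 1)) T < JJ r (Y (R + 1)) T) ≤ (4 * C * (c + 4)) * (R : ℝ) ^ (-(3 / 2) : ℝ) := by
  have hRr : (2 : ℝ) ≤ R := by exact_mod_cast hR1
  refine (pr_exists _ _ _).trans ?_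
  have h1 : ∀ r ∈ Finset.Icc (R - (Nat.log 2 R + c)) R,
      pr (PP (Y (R + 1))) (fun T => (r : ℝ) ^ δ * II r (Y (R + 1)) T < JJ r (Y (R + 1)) T) ≤ 4 * C / (R : ℝ) ^ 2 := by
    intro r hr
    rw [Finset.mem_Icc] at hr
    have hr2 : R ≤ 2 * r := by omega
    have hr1 : 1 ≤ r := by omega
    have e1 : pr (PP (Y (R + 1))) (fun T => (r : ℝ) ^ δ * II r (Y (R + 1)) T < JJ r (Y (R + 1)) T) =
        pr (PP (Y (r + 1))) (fun T => (r : ℝ) ^ δ * II r (Y (R + 1)) T < JJ r (Y (R + 1)) T) := by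
      unfold pr
      refine av_restrict (PP_Y_mono (by omega)) _ fun T => ?_
      have e2 : II r (Y (R + 1)) T = II r (Y (R + 1)) (T ∩ PP (Y (r + 1))) := by
        refine II_congr fun p hp h => ?_
        rw [Finset.mem_inter, mem_PP]
        exact ⟨fun hT => ⟨hT, hp, h.trans (Y_mono (by omega))⟩, fun hT => hT.1⟩
      have e3 : JJ r (Y (R + 1)) T = JJ r (Y (R + 1)) (T ∩ PP (Y (r + 1))) := by
        refine JJ_congr fun p hp h _ => ?_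
        rw [Finset.mem_inter, mem_PP]
        exact ⟨fun hT => ⟨hT, hp, h⟩, fun hT => hT.1⟩
      beta_reduce
      rw [← e2, ← e3]
    rw [e1]
    refine (hJ r _ hr1).trans ?_
    have hrr : (0 : ℝ) < r := by exact_mod_cast hr1
    have hr3 : (R : ℝ) ≤ 2 * r := by exact_mod_cast hr2
    rw [div_le_div_iff₀ (by positivity) (by positivity)]
    have : (R : ℝ) ^ 2 ≤ 4 * (r : ℝ) ^ 2 := by nlinarith
    nlinarith
  refine (Finset.sum_le_card_nsmul _ _ _ h1).trans ?_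
  rw [nsmul_eq_mul, Nat.card_Icc]
  have h2 : ((R + 1 - (R - (Nat.log 2 R + c)) : ℕ) : ℝ) ≤ (c + 4) * (R : ℝ) ^ ((1 : ℝ) / 2) := by
    have h3 : R + 1 - (R - (Nat.log 2 R + c)) = Nat.log 2 R + c + 1 := by omega
    rw [h3]
    push_cast
    have h4 := F1_log (R := R) (by omega)
    have h5 : 1 ≤ (R : ℝ) ^ ((1 : ℝ) / 2) := Real.one_le_rpow (by linarith) (by norm_num)
    have h6 : (0 : ℝ) ≤ c := Nat.cast_nonneg c
    nlinarith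
  have h7 : (R : ℝ) ^ (-(3 / 2) : ℝ) * (R : ℝ) ^ 2 = (R : ℝ) ^ ((1 : ℝ) / 2) := by
    rw [← Real.rpow_natCast, ← Real.rpow_add (by linarith)]
    norm_num
  have h8 : (R : ℝ) ^ ((1 : ℝ) / 2) * (4 * C / (R : ℝ) ^ 2) = 4 * C * (R : ℝ) ^ (-(3 / 2) : ℝ) := by
    rw [← h7]
    have : (R : ℝ) ^ 2 ≠ 0 := by positivity
    field_simp
  calc ((R + 1 - (R - (Nat.log 2 R + c)) : ℕ) : ℝ) * (4 * C / (R : ℝ) ^ 2)
      ≤ ((c + 4) * (R : ℝ) ^ ((1 : ℝ) / 2)) * (4 * C / (R : ℝ) ^ 2) := mul_le_mul_of_nonneg_right h2 (by positivity)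
    _ = (c + 4) * ((R : ℝ) ^ ((1 : ℝ) / 2) * (4 * C / (R : ℝ) ^ 2)) := by ring
    _ = _ := by rw [h8]; ring

/-- `log2 R` is small -/
lemma F1_ev (B δ : ℝ) (hδ : 0 < δ) (c : ℕ) :
    ∀ᶠ R : ℕ in Filter.atTop, ((Nat.log 2 R + c + 1 : ℕ) : ℝ) * B ≤ (R : ℝ) ^ δ := by
  have l1 : Filter.Tendsto (fun x : ℝ => Real.log x / x ^ δ) Filter.atTop (nhds 0) :=
    (isLittleO_log_rpow_atTop hδ).tendsto_div_nhds_zero
  have l2 : Filter.Tendsto (fun x : ℝ => x ^ (-δ)) Filter.atTop (nhds 0) := tendsto_rpow_neg_atTop hδ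
  have l3 : Filter.Tendsto (fun x : ℝ => |B| * (2 * (Real.log x / x ^ δ)) + (|B| * (c + 1)) * x ^ (-δ)) Filter.atTop
      (nhds 0) := by
    have := ((l1.const_mul 2).const_mul |B|).add (l2.const_mul (|B| * (c + 1)))
    simpa using this
  have ev := tendsto_natCast_atTop_atTop.eventually (l3.eventually (ge_mem_nhds (by norm_num : (0 : ℝ) < 1)))
  filter_upwards [ev, Filter.eventually_ge_atTop 1] with R hR hR1
  have hRr : (0 : ℝ) < R := by exact_mod_cast hR1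
  have hR1r : (1 : ℝ) ≤ R := by exact_mod_cast hR1
  have h1 : (Nat.log 2 R : ℝ) ≤ 2 * Real.log R := by
    have h1 : (Nat.log 2 R : ℝ) ≤ Real.logb 2 R := Real.natLog_le_logb R 2
    have h3 : (0.6931471803 : ℝ) < Real.log 2 := Real.log_two_gt_d9
    have h4 := Real.log_nonneg hR1r
    refine h1.trans ?_
    rw [Real.logb, div_le_iff₀ (by linarith)]
    nlinarith
  have hP : 0 < (R : ℝ) ^ δ := by positivity
  have h2 : ((Nat.log 2 R + c + 1 : ℕ) : ℝ) * B ≤ ((Nat.log 2 R + c + 1 : ℕ) : ℝ) * |B| :=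
    mul_le_mul_of_nonneg_left (le_abs_self B) (by positivity)
  refine h2.trans ?_
  have h5 : (|B| * (2 * (Real.log R / (R : ℝ) ^ δ)) + (|B| * (c + 1)) * (R : ℝ) ^ (-δ)) * (R : ℝ) ^ δ =
      (2 * Real.log R + c + 1) * |B| := by
    rw [Real.rpow_neg hRr.le]
    field_simp
    ring
  have h6 : (|B| * (2 * (Real.log R / (R : ℝ) ^ δ)) + (|B| * (c + 1)) * (R : ℝ) ^ (-δ)) * (R : ℝ) ^ δ ≤ 1 * (R : ℝ) ^ δ :=
    mul_le_mul_of_nonneg_right hR hP.le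
  rw [h5, one_mul] at h6
  refine le_trans ?_ h6
  refine mul_le_mul_of_nonneg_right ?_ (abs_nonneg B)
  push_cast
  linarith

theorem JJ_as (δ : ℝ) (hδ : 0 < δ) (hδ2 : δ ≤ 1 / 8) (c : ℕ) {Ω : Type*} [MeasurableSpace Ω] (μ : Measure Ω)
    (ε : ℕ → Ω → ℝ) (hM : Unif μ ε) :
    ∀ᵐ ω ∂μ, ∃ R0 : ℕ, ∀ R, R0 ≤ R → ∀ N ≤ Y (R + 1),
      ∑ r ∈ Finset.Icc (R - (Nat.log 2 R + c)) R, JJ r N (TT ε ω N) ≤ (R : ℝ) ^ (-(1 / 2) + 3 * δ) := by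
  obtain ⟨C, hC, hJ⟩ := JJ_tail δ hδ
  obtain ⟨C2, hC2, hII⟩ := II_le
  have ev1 : ∀ᶠ R : ℕ in Filter.atTop, 2 ≤ R ∧ 2 * (Nat.log 2 R + c) ≤ R := by
    have := F1_ev 2 1 one_pos c
    filter_upwards [this, Filter.eventually_ge_atTop 2] with R hR hR2
    refine ⟨hR2, ?_⟩
    rw [Real.rpow_one] at hR
    have h3 : (((Nat.log 2 R + c + 1) * 2 : ℕ) : ℝ) ≤ (R : ℝ) := by
      push_cast at hR ⊢
      linarith
    have h4 : (Nat.log 2 R + c + 1) * 2 ≤ R := by exact_mod_cast h3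
    omega
  obtain ⟨R1, hR1⟩ := Filter.eventually_atTop.1 ev1
  have hg : Summable (fun R : ℕ => (4 * C * (c + 4)) * (R : ℝ) ^ (-(3 / 2) : ℝ)) :=
    (Real.summable_nat_rpow.2 (by norm_num)).mul_left _
  have key := bcU μ ε hM (fun R => Y (R + 1))
    (fun R T => ∃ r ∈ Finset.Icc (R - (Nat.log 2 R + c)) R, (r : ℝ) ^ δ * II r (Y (R + 1)) T < JJ r (Y (R + 1)) T)
    _ hg R1 (fun R hR => F1_union δ C hC c hJ R (hR1 R hR).1 (hR1 R hR).2)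
  obtain ⟨R2, hR2⟩ := Filter.eventually_atTop.1 (F1_ev (4 * C2) δ hδ c)
  filter_upwards [key, chaos_as δ hδ (by linarith) μ ε hM] with ω hω hD
  obtain ⟨i1, hi1⟩ := hω
  obtain ⟨i2, hi2⟩ := hD
  refine ⟨max (max R1 R2) (max i1 (2 * i2)), fun R hR N hN => ?_⟩
  have g1 : R1 ≤ R := (le_max_left _ _).trans ((le_max_left _ _).trans hR)
  have g2 : R2 ≤ R := (le_max_right _ _).trans ((le_max_left _ _).trans hR)
  have g3 : i1 ≤ R := (le_max_left _ _).trans ((le_max_right _ _).trans hR)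
  have g4 : 2 * i2 ≤ R := (le_max_right _ _).trans ((le_max_right _ _).trans hR)
  obtain ⟨g5, g6⟩ := hR1 R g1
  have hRr : (2 : ℝ) ≤ R := by exact_mod_cast g5
  have hno := hi1 R g3
  have hterm : ∀ r ∈ Finset.Icc (R - (Nat.log 2 R + c)) R, JJ r N (TT ε ω N) ≤ (4 * C2) * (R : ℝ) ^ (-(1 / 2) + 2 * δ) := by
    intro r hr
    have hr' := Finset.mem_Icc.1 hr
    have hr2 : R ≤ 2 * r := by omega
    have hr3 : (R : ℝ) ≤ 2 * r := by exact_mod_cast hr2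
    have hr0 : (0 : ℝ) < r := by linarith
    have a1 : JJ r N (TT ε ω N) = JJ r N (TT ε ω (Y (R + 1))) :=
      JJ_congr fun p hp _ h => F1_TT_iff ε ω hp h (h.trans hN)
    have a2 : JJ r N (TT ε ω (Y (R + 1))) ≤ JJ r (Y (R + 1)) (TT ε ω (Y (R + 1))) := JJ_mono hN _
    have a3 : JJ r (Y (R + 1)) (TT ε ω (Y (R + 1))) ≤ (r : ℝ) ^ δ * II r (Y (R + 1)) (TT ε ω (Y (R + 1))) := by
      by_contra hc
      exact hno ⟨r, hr, not_le.1 hc⟩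
    have a4 : II r (Y (R + 1)) (TT ε ω (Y (R + 1))) ≤ C2 * DI r (TT ε ω (Y (R + 1))) := hII r _ _
    have a5 : DI r (TT ε ω (Y (R + 1))) = DI r (TT ε ω (Y r)) := by
      refine DI_congr fun p hp => ?_
      rw [mem_PP] at hp
      exact F1_TT_iff ε ω hp.1 (hp.2.trans (Y_mono (by omega))) hp.2
    have a6 : DI r (TT ε ω (Y r)) ≤ 2 * (r : ℝ) ^ (-(1 / 2) + δ) := hi2 r (by omega)
    rw [a1]
    refine (a2.trans a3).trans ?_
    have a7 : II r (Y (R + 1)) (TT ε ω (Y (R + 1))) ≤ C2 * (2 * (r : ℝ) ^ (-(1 / 2) + δ)) := by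
      rw [a5] at a4
      exact a4.trans (mul_le_mul_of_nonneg_left a6 hC2.le)
    have a8 : (r : ℝ) ^ δ * (C2 * (2 * (r : ℝ) ^ (-(1 / 2) + δ))) = 2 * C2 * (r : ℝ) ^ (-(1 / 2 - 2 * δ)) := by
      have b1 : (r : ℝ) ^ (-(1 / 2 - 2 * δ)) = (r : ℝ) ^ δ * (r : ℝ) ^ (-(1 / 2) + δ) := by
        rw [← Real.rpow_add hr0]
        congr 1
        ring
      rw [b1]
      ring
    have a9 := F1_half (x := (r : ℝ)) (y := R) (s := 1 / 2 - 2 * δ) (by linarith) hr3 (by linarith) (by linarith)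
    calc (r : ℝ) ^ δ * II r (Y (R + 1)) (TT ε ω (Y (R + 1)))
        ≤ (r : ℝ) ^ δ * (C2 * (2 * (r : ℝ) ^ (-(1 / 2) + δ))) := mul_le_mul_of_nonneg_left a7 (by positivity)
      _ = 2 * C2 * (r : ℝ) ^ (-(1 / 2 - 2 * δ)) := a8
      _ ≤ 2 * C2 * (2 * (R : ℝ) ^ (-(1 / 2 - 2 * δ))) := mul_le_mul_of_nonneg_left a9 (by positivity)
      _ = _ := by rw [show -(1 / 2 - 2 * δ) = -(1 / 2) + 2 * δ by ring]; ring
  refine (Finset.sum_le_card_nsmul _ _ _ hterm).trans ?_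
  have h3 : R + 1 - (R - (Nat.log 2 R + c)) = Nat.log 2 R + c + 1 := by omega
  rw [nsmul_eq_mul, Nat.card_Icc, h3]
  have h4 := hR2 R g2
  have hRp : (0 : ℝ) < R := by linarith
  calc ((Nat.log 2 R + c + 1 : ℕ) : ℝ) * (4 * C2 * (R : ℝ) ^ (-(1 / 2) + 2 * δ))
      = (((Nat.log 2 R + c + 1 : ℕ) : ℝ) * (4 * C2)) * (R : ℝ) ^ (-(1 / 2) + 2 * δ) := by ring
    _ ≤ (R : ℝ) ^ δ * (R : ℝ) ^ (-(1 / 2) + 2 * δ) := mul_le_mul_of_nonneg_right h4 (by positivity)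
    _ = _ := by
        rw [← Real.rpow_add hRp]
        congr 1
        ring

end Pool.Agent.Helper96.AF
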