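import Pool.Agent.Helper96.AF.Bas

/-!
# Project AF (MP_a499ba_nt), block D4

Minkowski's inequality. PROOF: `C := ∑ w i * c i`. If `w i * c i = 0` then `w i * X i T = 0` for all `T ⊆ S` (if `c i = 0` the average of `X i T ^ q` is `≤ 0`, so
`X i T = 0`). Remove these `i`. If `C = 0` all terms vanish. Otherwise `∑ w i X i = C ∑ (w i c i / C) (X i / c i)`, by Jensen
(`inner`: `inner_le..`; Mathlib `Real.inner_le..`, `Real.pow_arith_mean_le_arith_mean_pow`) the `q`-th power is `≤ C^q ∑ (w i c i/C) (X i/c i)^q`,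
whose average is `≤ C^q`.
-/

set_option autoImplicit false

namespace Pool.Agent.Helper96.AF

open Finset Pool.Agent.Helper5.RM

/-- a nonnegative function with nonpositive average vanishes -/
private lemma eq_zero_of_av_nonpos {S : Finset ℕ} {F : Finset ℕ → ℝ} (h0 : ∀ T ⊆ S, 0 ≤ F T)
    (h : av S F ≤ 0) {T : Finset ℕ} (hT : T ⊆ S) : F T = 0 := by
  unfold av at h
  have h1 : (∑ T ∈ S.powerset, F T) ≤ 0 := by
    by_contra hcon
    push Not at hcon
    have : 0 < (∑ T ∈ S.powerset, F T) / 2 ^ S.card := by positivity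
    linarith
  have h2 : ∀ T ∈ S.powerset, 0 ≤ F T := fun T hT => h0 T (Finset.mem_powerset.1 hT)
  have h3 : ∑ T ∈ S.powerset, F T = 0 := le_antisymm h1 (Finset.sum_nonneg h2)
  exact (Finset.sum_eq_zero_iff_of_nonneg h2).1 h3 T (Finset.mem_powerset.2 hT)

theorem minkowski {ι : Type} (S : Finset ℕ) (s : Finset ι) (q : ℕ) (hq : 1 ≤ q) (w c : ι → ℝ)
    (X : ι → Finset ℕ → ℝ) (hw : ∀ i ∈ s, 0 ≤ w i) (hc : ∀ i ∈ s, 0 ≤ c i) (hX : ∀ i ∈ s, ∀ T, 0 ≤ X i T)
    (h : ∀ i ∈ s, av S (fun T => X i T ^ q) ≤ c i ^ q) :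
    av S (fun T => (∑ i ∈ s, w i * X i T) ^ q) ≤ (∑ i ∈ s, w i * c i) ^ q := by
  classical
  have hq0 : q ≠ 0 := by omega
  have hzero : ∀ i ∈ s, w i * c i = 0 → ∀ T ⊆ S, w i * X i T = 0 := by
    intro i hi hwc T hT
    rcases mul_eq_zero.1 hwc with h1 | h1
    · rw [h1, zero_mul]
    · have h2 := h i hi
      rw [h1, zero_pow hq0] at h2
      have h3 : X i T ^ q = 0 :=
        eq_zero_of_av_nonpos (F := fun T => X i T ^ q) (fun T _ => pow_nonneg (hX i hi T) q) h2 hT
      rw [pow_eq_zero_iff hq0] at h3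
      rw [h3, mul_zero]
  set s' := s.filter (fun i => w i * c i ≠ 0) with hs'
  have hsub : s' ⊆ s := Finset.filter_subset _ _
  have hC : ∑ i ∈ s', w i * c i = ∑ i ∈ s, w i * c i := by
    refine Finset.sum_subset hsub fun i hi hi' => ?_
    by_contra hcon
    exact hi' (Finset.mem_filter.2 ⟨hi, hcon⟩)
  have hXs : ∀ T ⊆ S, ∑ i ∈ s', w i * X i T = ∑ i ∈ s, w i * X i T := by
    intro T hT
    refine Finset.sum_subset hsub fun i hi hi' => ?_
    refine hzero i hi ?_ T hT
    by_contra hcon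
    exact hi' (Finset.mem_filter.2 ⟨hi, hcon⟩)
  have h1 : av S (fun T => (∑ i ∈ s, w i * X i T) ^ q) = av S (fun T => (∑ i ∈ s', w i * X i T) ^ q) :=
    av_congr fun T hT => by rw [hXs T hT]
  rw [h1, ← hC]
  rcases s'.eq_empty_or_nonempty with he | hne
  · rw [he]
    simp only [Finset.sum_empty]
    rw [av_const]
  set C := ∑ i ∈ s', w i * c i with hCdef
  have hpos : ∀ i ∈ s', 0 < w i * c i := by
    intro i hi
    have h2 := (Finset.mem_filter.1 hi).2
    exact lt_of_le_of_ne (mul_nonneg (hw i (hsub hi)) (hc i (hsub hi))) (Ne.symm h2)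
  have hCpos : 0 < C := Finset.sum_pos hpos hne
  have hcpos : ∀ i ∈ s', 0 < c i := by
    intro i hi
    refine lt_of_le_of_ne (hc i (hsub hi)) fun h0 => ?_
    have := hpos i hi
    rw [← h0, mul_zero] at this
    exact lt_irrefl _ this
  have hpt : ∀ T ⊆ S, (∑ i ∈ s', w i * X i T) ^ q
      ≤ C ^ q * ∑ i ∈ s', (w i * c i / C) * ((c i ^ q)⁻¹ * X i T ^ q) := by
    intro T _
    have h2 : ∑ i ∈ s', w i * X i T = C * ∑ i ∈ s', (w i * c i / C) * (X i T / c i) := by
      rw [Finset.mul_sum]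
      refine Finset.sum_congr rfl fun i hi => ?_
      have := (hcpos i hi).ne'
      field_simp
    have h3 := Real.pow_arith_mean_le_arith_mean_pow s' (fun i => w i * c i / C)
      (fun i => X i T / c i) (fun i hi => div_nonneg (hpos i hi).le hCpos.le)
      (by rw [← Finset.sum_div, div_self hCpos.ne'])
      (fun i hi => div_nonneg (hX i (hsub hi) T) (hcpos i hi).le) q
    rw [h2, mul_pow]
    refine mul_le_mul_of_nonneg_left (h3.trans (le_of_eq ?_)) (pow_nonneg hCpos.le q)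
    refine Finset.sum_congr rfl fun i _ => ?_
    rw [div_pow, div_eq_inv_mul (X _ T ^ q)]
  refine (av_mono hpt).trans ?_
  rw [av_mul_left, av_sum]
  have h4 : ∑ i ∈ s', av S (fun T => (w i * c i / C) * ((c i ^ q)⁻¹ * X i T ^ q)) ≤ 1 := by
    have h5 : ∀ i ∈ s', av S (fun T => (w i * c i / C) * ((c i ^ q)⁻¹ * X i T ^ q)) ≤ w i * c i / C := by
      intro i hi
      rw [av_mul_left, av_mul_left]
      have h6 := h i (hsub hi)
      have h7 : 0 < c i ^ q := pow_pos (hcpos i hi) q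
      have h8 : (c i ^ q)⁻¹ * av S (fun T => X i T ^ q) ≤ 1 := by
        rw [inv_mul_le_iff₀ h7, mul_one]
        exact h6
      have h9 : 0 ≤ w i * c i / C := div_nonneg (hpos i hi).le hCpos.le
      calc (w i * c i / C) * ((c i ^ q)⁻¹ * av S (fun T => X i T ^ q)) ≤ (w i * c i / C) * 1 :=
            mul_le_mul_of_nonneg_left h8 h9
        _ = w i * c i / C := mul_one _
    refine (Finset.sum_le_sum h5).trans (le_of_eq ?_)
    rw [← Finset.sum_div, div_self hCpos.ne']
  calc C ^ q * _ ≤ C ^ q * 1 := mul_le_mul_of_nonneg_left h4 (pow_nonneg hCpos.le q)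
    _ = C ^ q := mul_one _

end Pool.Agent.Helper96.AF
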