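import Pool.Agent.Helper96.AF.D1

/-!
# Project AF (MP_a499ba_nt), block D5

The logarithmic mean of a convolution. PROOF: interchange: for a fixed `b` (squarefree, primes in `BL r`) and `m = n/b ≥ 1` the `n` with `n/b = m` are
`b m, ..., b m + b - 1`, and `∑ 1/(n (n+1)) = 1/(b m) - 1/(b (m+1)) = 1/(b m (m+1))`; `m ≤ Z`. So the left side is
`≤ (∑_b w^(om b) / b) ∑_{m ≤ Z} g m/(m (m+1))`, the sum over squarefree `b` with all primes in `BL r` (`b ≤ Z`), and
`∑_b w^(om b)/b ≤ ∏_{p ∈ BL r} (1 + w/p)` (`Finset.prod_one_add`, `b ↦ b.primeFactors` is injective on squarefree numbers).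
-/

set_option autoImplicit false

namespace Pool.Agent.Helper96.AF

open Finset Pool.Agent.Helper5.RM

private lemma tele (a : ℕ) (ha : 1 ≤ a) (k : ℕ) :
    ∑ n ∈ Finset.Ico a (a + k), 1 / ((n : ℝ) * (n + 1)) = 1 / (a : ℝ) - 1 / ((a : ℝ) + k) := by
  induction k with
  | zero => simp
  | succ k ih =>
    rw [show a + (k + 1) = (a + k) + 1 from rfl, Finset.sum_Ico_succ_top (by omega), ih]
    have h1 : (0 : ℝ) < a := by exact_mod_cast ha
    have h2 : (0 : ℝ) < (a : ℝ) + k := by positivity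
    have h3 : (0 : ℝ) < (a : ℝ) + k + 1 := by positivity
    push_cast
    field_simp
    ring

private lemma inner (Z b : ℕ) (hb : 1 ≤ b) (g : ℕ → ℝ) (hg : ∀ n, 0 ≤ g n) :
    ∑ n ∈ Finset.Icc b Z, g (n / b) / ((n : ℝ) * (n + 1)) ≤
      (1 / (b : ℝ)) * ∑ m ∈ Finset.Icc 1 Z, g m / ((m : ℝ) * (m + 1)) := by
  have hmaps : ∀ n ∈ Finset.Icc b Z, n / b ∈ Finset.Icc 1 Z := by
    intro n hn
    rw [Finset.mem_Icc] at hn ⊢
    exact ⟨(Nat.one_le_div_iff (by omega)).2 hn.1, (Nat.div_le_self n b).trans hn.2⟩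
  rw [← Finset.sum_fiberwise_of_maps_to hmaps, Finset.mul_sum]
  refine Finset.sum_le_sum fun m hm => ?_
  rw [Finset.mem_Icc] at hm
  have hb0 : (0 : ℝ) < b := by exact_mod_cast hb
  have hm0 : (0 : ℝ) < m := by exact_mod_cast hm.1
  have hsub : (Finset.Icc b Z).filter (fun n => n / b = m) ⊆ Finset.Ico (b * m) (b * m + b) := by
    intro n hn
    rw [Finset.mem_filter] at hn
    have h1 := hn.2
    rw [Nat.div_eq_iff (by omega)] at h1
    rw [Finset.mem_Ico]
    constructor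
    · have := h1.1
      rw [mul_comm]
      exact this
    · have := h1.2
      have h2 : m * b = b * m := mul_comm _ _
      omega
  calc ∑ n ∈ (Finset.Icc b Z).filter (fun n => n / b = m), g (n / b) / ((n : ℝ) * (n + 1))
      = ∑ n ∈ (Finset.Icc b Z).filter (fun n => n / b = m), g m * (1 / ((n : ℝ) * (n + 1))) := by
        refine Finset.sum_congr rfl fun n hn => ?_
        rw [(Finset.mem_filter.1 hn).2]
        ring
    _ ≤ ∑ n ∈ Finset.Ico (b * m) (b * m + b), g m * (1 / ((n : ℝ) * (n + 1))) := by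
        refine Finset.sum_le_sum_of_subset_of_nonneg hsub fun n _ _ => ?_
        have := hg m
        positivity
    _ = g m * (1 / ((b * m : ℕ) : ℝ) - 1 / (((b * m : ℕ) : ℝ) + b)) := by
        rw [← Finset.mul_sum, tele _ (Nat.mul_pos hb hm.1)]
    _ = 1 / (b : ℝ) * (g m / ((m : ℝ) * (m + 1))) := by
        push_cast
        field_simp
        ring

private lemma euler (r Z w : ℕ) :
    ∑ b ∈ (SB r (Y (r + 1) + 1) Z).filter Squarefree, (w : ℝ) ^ om b * (1 / (b : ℝ)) ≤
      ∏ p ∈ BL r, (1 + (w : ℝ) / p) := by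
  rw [Finset.prod_one_add]
  have hinj : Set.InjOn (fun b : ℕ => b.primeFactors)
      ((SB r (Y (r + 1) + 1) Z).filter Squarefree : Finset ℕ) := by
    intro a ha b hb hab
    rw [Finset.mem_coe, Finset.mem_filter] at ha hb
    simp only at hab
    rw [← Nat.prod_primeFactors_of_squarefree ha.2, ← Nat.prod_primeFactors_of_squarefree hb.2, hab]
  have h1 : ∑ b ∈ (SB r (Y (r + 1) + 1) Z).filter Squarefree, (w : ℝ) ^ om b * (1 / (b : ℝ)) =
      ∑ t ∈ ((SB r (Y (r + 1) + 1) Z).filter Squarefree).image (fun b : ℕ => b.primeFactors),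
        ∏ p ∈ t, ((w : ℝ) / p) := by
    rw [Finset.sum_image hinj]
    refine Finset.sum_congr rfl fun b hb => ?_
    have hsq := (Finset.mem_filter.1 hb).2
    rw [Finset.prod_div_distrib, Finset.prod_const]
    unfold om
    rw [mul_one_div]
    congr 1
    conv_lhs => rw [← Nat.prod_primeFactors_of_squarefree hsq]
    push_cast
    rfl
  rw [h1]
  refine Finset.sum_le_sum_of_subset_of_nonneg ?_ fun t _ _ => ?_
  · intro t ht
    rw [Finset.mem_image] at ht
    obtain ⟨b, hb, rfl⟩ := ht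
    rw [Finset.mem_filter] at hb
    obtain ⟨hb, -⟩ := hb
    unfold SB at hb
    rw [Finset.mem_filter] at hb
    rw [Finset.mem_powerset]
    intro p hp
    rw [mem_BL]
    have := hb.2 p hp
    exact ⟨Nat.prime_of_mem_primeFactors hp, this.1, by omega⟩
  · exact Finset.prod_nonneg fun p _ => by positivity

theorem log_conv (r Z w : ℕ) (g : ℕ → ℝ) (hg : ∀ n, 0 ≤ g n) :
    ∑ n ∈ Finset.Icc 1 Z, (∑ b ∈ (SB r (Y (r + 1) + 1) n).filter Squarefree, (w : ℝ) ^ om b * g (n / b)) /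
      ((n : ℝ) * (n + 1)) ≤
      (∏ p ∈ BL r, (1 + (w : ℝ) / p)) * ∑ m ∈ Finset.Icc 1 Z, g m / ((m : ℝ) * (m + 1)) := by
  have hS : 0 ≤ ∑ m ∈ Finset.Icc 1 Z, g m / ((m : ℝ) * (m + 1)) :=
    Finset.sum_nonneg fun m _ => div_nonneg (hg m) (by positivity)
  have hfil : ∀ n ∈ Finset.Icc 1 Z, (SB r (Y (r + 1) + 1) n).filter Squarefree =
      ((SB r (Y (r + 1) + 1) Z).filter Squarefree).filter (fun b => b ≤ n) := by
    intro n hn
    rw [Finset.mem_Icc] at hn
    ext b
    unfold SB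
    simp only [Finset.mem_filter, Finset.mem_Icc]
    constructor
    · rintro ⟨⟨⟨h1, h2⟩, h3⟩, h4⟩
      exact ⟨⟨⟨⟨h1, h2.trans hn.2⟩, h3⟩, h4⟩, h2⟩
    · rintro ⟨⟨⟨⟨h1, _⟩, h3⟩, h4⟩, h2⟩
      exact ⟨⟨⟨h1, h2⟩, h3⟩, h4⟩
  calc ∑ n ∈ Finset.Icc 1 Z, (∑ b ∈ (SB r (Y (r + 1) + 1) n).filter Squarefree, (w : ℝ) ^ om b * g (n / b)) /
        ((n : ℝ) * (n + 1))
      = ∑ n ∈ Finset.Icc 1 Z, ∑ b ∈ (SB r (Y (r + 1) + 1) Z).filter Squarefree,
          (if b ≤ n then (w : ℝ) ^ om b * (g (n / b) / ((n : ℝ) * (n + 1))) else 0) := by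
        refine Finset.sum_congr rfl fun n hn => ?_
        rw [hfil n hn, Finset.sum_filter, Finset.sum_div]
        refine Finset.sum_congr rfl fun b _ => ?_
        split_ifs
        · ring
        · simp
    _ = ∑ b ∈ (SB r (Y (r + 1) + 1) Z).filter Squarefree, (w : ℝ) ^ om b *
          ∑ n ∈ Finset.Icc b Z, g (n / b) / ((n : ℝ) * (n + 1)) := by
        rw [Finset.sum_comm]
        refine Finset.sum_congr rfl fun b hb => ?_
        have hb1 : 1 ≤ b := by
          have := (Finset.mem_filter.1 hb).1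
          unfold SB at this
          exact (Finset.mem_Icc.1 (Finset.mem_filter.1 this).1).1
        rw [← Finset.sum_filter, Finset.mul_sum]
        refine Finset.sum_congr ?_ fun n _ => rfl
        ext n
        simp only [Finset.mem_filter, Finset.mem_Icc]
        omega
    _ ≤ ∑ b ∈ (SB r (Y (r + 1) + 1) Z).filter Squarefree, (w : ℝ) ^ om b *
          ((1 / (b : ℝ)) * ∑ m ∈ Finset.Icc 1 Z, g m / ((m : ℝ) * (m + 1))) := by
        refine Finset.sum_le_sum fun b hb => ?_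
        have hb1 : 1 ≤ b := by
          have := (Finset.mem_filter.1 hb).1
          unfold SB at this
          exact (Finset.mem_Icc.1 (Finset.mem_filter.1 this).1).1
        exact mul_le_mul_of_nonneg_left (inner Z b hb1 g hg) (by positivity)
    _ = (∑ b ∈ (SB r (Y (r + 1) + 1) Z).filter Squarefree, (w : ℝ) ^ om b * (1 / (b : ℝ))) *
          ∑ m ∈ Finset.Icc 1 Z, g m / ((m : ℝ) * (m + 1)) := by
        rw [Finset.sum_mul]
        refine Finset.sum_congr rfl fun b _ => ?_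
        ring
    _ ≤ _ := mul_le_mul_of_nonneg_right (euler r Z w) hS

end Pool.Agent.Helper96.AF
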