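import Pool.Agent.Helper96.AF.F0

/-!
# Project AF (MP_a499ba_nt), block F5: signs attached to the primes only
(as in Helper5/RM/ASP.lean)
-/

set_option autoImplicit false

namespace Pool.Agent.Helper96.AF

open Finset Pool.Agent.Helper5.RM

open MeasureTheory ProbabilityTheory

/-- extension of a family indexed by the primes to all naturals -/
noncomputable def ext {Ω : Type*} (ε : Nat.Primes → Ω → ℝ) (n : ℕ) (ω : Ω) : ℝ :=
  if h : n.Prime then ε ⟨n, h⟩ ω else 1

theorem unif_primes {Ω : Type*} [MeasurableSpace Ω] (μ : Measure Ω) [IsProbabilityMeasure μ] (ε : Nat.Primes → Ω → ℝ)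
    (hm : ∀ p, Measurable (ε p)) (hi : iIndepFun ε μ)
    (h2 : ∀ p, μ {ω | ε p ω = -1} = 1 / 2) : Unif μ (ext ε) := by
  classical
  intro N Q
  obtain ⟨S, hS⟩ : ∃ S : Finset ℕ, S = PP N := ⟨_, rfl⟩
  have hSp : ∀ p ∈ S, Nat.Prime p := by
    intro p hp
    rw [hS] at hp
    exact (Finset.mem_filter.1 hp).2
  rw [← hS]
  have hsub : {ω | Q (S.filter (fun p => ext ε p ω = -1))} ⊆
      ⋃ T ∈ S.powerset.filter Q, {ω | S.filter (fun p => ext ε p ω = -1) = T} := by
    intro ω hω
    rw [Set.mem_iUnion₂]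
    exact ⟨S.filter (fun p => ext ε p ω = -1),
      Finset.mem_filter.2 ⟨Finset.mem_powerset.2 (Finset.filter_subset _ _), hω⟩, rfl⟩
  have hB : ∀ T : Finset ℕ, ∀ p : Nat.Primes,
      μ (ε p ⁻¹' (if (p : ℕ) ∈ T then ({-1} : Set ℝ) else {-1}ᶜ)) = 1 / 2 := by
    intro T p
    by_cases hp : (p : ℕ) ∈ T
    · rw [if_pos hp]
      exact h2 p
    · rw [if_neg hp, Set.preimage_compl, measure_compl (hm p (measurableSet_singleton _)) (measure_ne_top _ _),
        measure_univ]
      have h3 : μ (ε p ⁻¹' {-1}) = 1 / 2 := h2 p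
      rw [h3]
      simp
  obtain ⟨S', hS', hcard⟩ : ∃ S' : Finset Nat.Primes, (∀ p ∈ S', (p : ℕ) ∈ S) ∧ S'.card = S.card := by
    have hc : (S.subtype Nat.Prime).card = S.card := by
      rw [Finset.card_subtype, Finset.filter_true_of_mem hSp]
    exact ⟨S.subtype Nat.Prime, fun p hp => Finset.mem_subtype.1 hp, hc⟩
  have hone : ∀ T : Finset ℕ, μ {ω | S.filter (fun p => ext ε p ω = -1) = T} ≤ (1 / 2) ^ S.card := by
    intro T
    have h4 : {ω | S.filter (fun p => ext ε p ω = -1) = T} ⊆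
        ⋂ p ∈ S', ε p ⁻¹' (if (p : ℕ) ∈ T then ({-1} : Set ℝ) else {-1}ᶜ) := by
      intro ω hω
      rw [Set.mem_iInter₂]
      intro p hp
      have hpS : (p : ℕ) ∈ S := hS' p hp
      have he : ext ε (p : ℕ) ω = ε p ω := by
        unfold ext
        rw [dif_pos p.2]
        rfl
      have h5 : S.filter (fun p => ext ε p ω = -1) = T := hω
      rw [← h5]
      by_cases h6 : ε p ω = -1
      · rw [if_pos (Finset.mem_filter.2 ⟨hpS, by rw [he]; exact h6⟩)]
        exact h6
      · have h7 : (p : ℕ) ∉ S.filter (fun p => ext ε p ω = -1) := fun h7 => by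
          have := (Finset.mem_filter.1 h7).2
          rw [he] at this
          exact h6 this
        rw [if_neg h7]
        exact h6
    refine (measure_mono h4).trans (le_of_eq ?_)
    rw [hi.measure_inter_preimage_eq_mul S'
      (sets := fun p => if (p : ℕ) ∈ T then ({-1} : Set ℝ) else {-1}ᶜ)
      (fun p _ => by
        by_cases hp : (p : ℕ) ∈ T
        · simp only [if_pos hp]; exact measurableSet_singleton _
        · simp only [if_neg hp]; exact (measurableSet_singleton _).compl)]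
    rw [Finset.prod_congr rfl fun p _ => hB T p, Finset.prod_const, hcard]
  calc μ {ω | Q (S.filter (fun p => ext ε p ω = -1))}
      ≤ μ (⋃ T ∈ S.powerset.filter Q, {ω | S.filter (fun p => ext ε p ω = -1) = T}) := measure_mono hsub
    _ ≤ ∑ T ∈ S.powerset.filter Q, μ {ω | S.filter (fun p => ext ε p ω = -1) = T} := measure_biUnion_finset_le _ _
    _ ≤ ∑ _T ∈ S.powerset.filter Q, (1 / 2) ^ S.card := Finset.sum_le_sum fun T _ => hone T
    _ = ENNReal.ofReal (pr S Q) := by
        rw [Finset.sum_const, nsmul_eq_mul]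
        unfold pr av
        rw [← Finset.sum_filter, Finset.sum_const, nsmul_eq_mul, mul_one,
          ENNReal.ofReal_div_of_pos (by positivity), ENNReal.ofReal_natCast, ENNReal.ofReal_pow (by norm_num)]
        have h8 : ENNReal.ofReal 2 = 2 := by norm_num
        rw [h8, div_eq_mul_inv _ ((2 : ENNReal) ^ _), one_div, ENNReal.inv_pow]

theorem ae_pm_primes {Ω : Type*} [MeasurableSpace Ω] (μ : Measure Ω) [IsProbabilityMeasure μ] (ε : Nat.Primes → Ω → ℝ)
    (hm : ∀ p, Measurable (ε p)) (h2 : ∀ p, μ {ω | ε p ω = -1} = 1 / 2) (h1 : ∀ p, μ {ω | ε p ω = 1} = 1 / 2) :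
    ∀ᵐ ω ∂μ, ∀ p, ext ε p ω = -1 ∨ ext ε p ω = 1 := by
  have hsign : ∀ᵐ ω ∂μ, ∀ p, ε p ω = -1 ∨ ε p ω = 1 := by
    rw [ae_all_iff]
    intro p
    have hm1 : MeasurableSet {ω | ε p ω = -1} := hm p (measurableSet_singleton _)
    have hm2 : MeasurableSet {ω | ε p ω = 1} := hm p (measurableSet_singleton _)
    have hd : Disjoint {ω | ε p ω = -1} {ω | ε p ω = 1} := by
      rw [Set.disjoint_left]
      intro ω ha hb
      have ha' : ε p ω = -1 := ha
      have hb' : ε p ω = 1 := hb
      rw [ha'] at hb'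
      norm_num at hb'
    have hu : μ ({ω | ε p ω = -1} ∪ {ω | ε p ω = 1}) = 1 := by
      rw [measure_union hd hm2, h2 p, h1 p]
      exact ENNReal.add_halves 1
    exact (mem_ae_iff_prob_eq_one (hm1.union hm2)).2 hu
  filter_upwards [hsign] with ω hω p
  unfold ext
  split_ifs with h
  · exact hω _
  · right; rfl

end Pool.Agent.Helper96.AF
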