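import Pool.Agent.Helper96.AF.Bas
import Pool.Agent.Helper5.RM.HC4

/-!
# Project AF (MP_a499ba_nt), block N2

Orthogonality. PROOF of `av_sq_le`: `hyper_sqf` with `k = 1`, `c = 1`, on `s.filter Squarefree` (`rf T n = 0` otherwise).
`av_NN_sq_le`, `av_NN_diff_le`: special cases (`NN T y z - NN T y z'` is the sum over `SM y z \ SM y z'`, which is
contained in `(z', z]`).
-/

set_option autoImplicit false

namespace Pool.Agent.Helper96.AF

open Finset Pool.Agent.Helper5.RM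

theorem av_sq_le (S s : Finset ℕ) (hs : ∀ n ∈ s, Squarefree n → n.primeFactors ⊆ S) :
    av S (fun T => (∑ n ∈ s, rf T n) ^ 2) ≤ ((s.filter Squarefree).card : ℝ) := by
  have h1 := hyper_sqf 1 le_rfl S (s.filter Squarefree) (fun n hn => by
    rw [Finset.mem_filter] at hn
    exact ⟨hn.2, hs n hn.1 hn.2⟩) (fun _ => 1)
  have e1 : ∀ T : Finset ℕ, ‖∑ n ∈ s.filter Squarefree, (rf T n : ℂ) * 1‖ ^ (2 * 1) =
      (∑ n ∈ s, rf T n) ^ 2 := by
    intro T
    have e2 : ∑ n ∈ s.filter Squarefree, (rf T n : ℂ) * 1 = ((∑ n ∈ s, rf T n : ℝ) : ℂ) := by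
      rw [Finset.sum_filter]
      push_cast
      refine Finset.sum_congr rfl fun n _ => ?_
      split_ifs with h
      · rw [mul_one]
      · rw [rf_not h]
        simp
    rw [e2, Complex.norm_real, mul_one, Real.norm_eq_abs, sq_abs]
  rw [av_congr fun T _ => e1 T] at h1
  refine h1.trans (le_of_eq ?_)
  have e3 : ∀ n : ℕ, (2 * ((1 : ℕ) : ℝ) - 1) ^ om n * ‖(1 : ℂ)‖ ^ 2 = 1 := by
    intro n
    norm_num
  rw [Finset.sum_congr rfl fun n _ => e3 n]
  simp

theorem av_NN_sq_le (S : Finset ℕ) (y z : ℕ) (hS : ∀ p, p.Prime → p < y → p ≤ z → p ∈ S) :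
    av S (fun T => NN T y z ^ 2) ≤ (((SM y z).filter Squarefree).card : ℝ) := by
  refine av_sq_le S (SM y z) fun n hn _ p hp => ?_
  rw [mem_SM] at hn
  exact hS p (Nat.prime_of_mem_primeFactors hp) (hn.2 p hp)
    ((Nat.le_of_mem_primeFactors hp).trans hn.1.2)

theorem av_NN_diff_le (S : Finset ℕ) (y z z' : ℕ) (hz : z' ≤ z) (hS : ∀ p, p.Prime → p < y → p ≤ z → p ∈ S) :
    av S (fun T => (NN T y z - NN T y z') ^ 2) ≤ (z : ℝ) - z' := by
  have hsub : SM y z' ⊆ SM y z := by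
    intro n hn
    rw [mem_SM] at hn ⊢
    exact ⟨⟨hn.1.1, hn.1.2.trans hz⟩, hn.2⟩
  have e1 : ∀ T : Finset ℕ, (NN T y z - NN T y z') ^ 2 = (∑ n ∈ SM y z \ SM y z', rf T n) ^ 2 := by
    intro T
    unfold NN
    rw [← Finset.sum_sdiff hsub]
    ring
  rw [av_congr fun T _ => e1 T]
  refine (av_sq_le S (SM y z \ SM y z') fun n hn _ p hp => ?_).trans ?_
  · rw [Finset.mem_sdiff, mem_SM] at hn
    exact hS p (Nat.prime_of_mem_primeFactors hp) (hn.1.2 p hp)
      ((Nat.le_of_mem_primeFactors hp).trans hn.1.1.2)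
  · have h2 : (SM y z \ SM y z').filter Squarefree ⊆ Finset.Ioc z' z := by
      intro n hn
      rw [Finset.mem_filter, Finset.mem_sdiff, mem_SM, mem_SM] at hn
      rw [Finset.mem_Ioc]
      refine ⟨?_, hn.1.1.1.2⟩
      by_contra h
      exact hn.1.2 ⟨⟨hn.1.1.1.1, not_lt.1 h⟩, hn.1.1.2⟩
    have h3 := Finset.card_le_card h2
    rw [Nat.card_Ioc] at h3
    have h4 : (((SM y z \ SM y z').filter Squarefree).card : ℝ) ≤ ((z - z' : ℕ) : ℝ) := by
      exact_mod_cast h3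
    rwa [Nat.cast_sub hz] at h4

end Pool.Agent.Helper96.AF
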