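import Pool.Agent.Helper96.AF.Bas
import Pool.Agent.Helper5.RM.MEAS

/-!
# Project AF (MP_a499ba_nt), block F0

Borel-Cantelli in the form used here. PROOF: `meas_le` bounds `μ {ω | Q i (TT ε ω (M i))}` by `ofReal (g i)`; the sum of `ofReal (g i)` is finite (`Summable`, `ENNReal.ofReal_tsum..`);
`MeasureTheory.ae_eventually_notMem` (Borel-Cantelli).
-/

set_option autoImplicit false

namespace Pool.Agent.Helper96.AF

open Finset Pool.Agent.Helper5.RM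

open MeasureTheory ProbabilityTheory

/-- the random set of primes `≤ M` with sign `-1` -/
noncomputable def TT {Ω : Type*} (ε : ℕ → Ω → ℝ) (ω : Ω) (M : ℕ) : Finset ℕ := (PP M).filter (fun p => ε p ω = -1)

/-- the random multiplicative function -/
noncomputable def rs {Ω : Type*} (ε : ℕ → Ω → ℝ) (ω : Ω) (n : ℕ) : ℝ :=
  if Squarefree n then ∏ p ∈ n.primeFactors, ε p ω else 0

/-- (same proof as `AS_rs_eq` in Helper5/RM/AS.lean; do not import that file) -/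
theorem rs_eq {Ω : Type*} (ε : ℕ → Ω → ℝ) (ω : Ω) (h : ∀ p, ε p ω = -1 ∨ ε p ω = 1) (M n : ℕ) (hn : n ≤ M) :
    rs ε ω n = rf (TT ε ω M) n := by
  unfold rs rf TT
  split_ifs with hs
  · unfold wal
    apply Finset.prod_congr rfl
    intro p hp
    have hpM : p ∈ PP M := primeFactors_subset_PP hn hp
    unfold sg
    rcases h p with h1 | h1
    · rw [if_pos (Finset.mem_filter.2 ⟨hpM, h1⟩), h1]
    · rw [if_neg, h1]
      intro hmem
      have := (Finset.mem_filter.1 hmem).2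
      rw [h1] at this
      norm_num at this
  · rfl

/-- (cf. Helper5/RM/AS.lean) -/
theorem ae_pm {Ω : Type*} [MeasurableSpace Ω] (μ : Measure Ω) [IsProbabilityMeasure μ] (ε : ℕ → Ω → ℝ)
    (hm : ∀ p, Measurable (ε p)) (h2 : ∀ p, μ {ω | ε p ω = -1} = 1 / 2) (h1 : ∀ p, μ {ω | ε p ω = 1} = 1 / 2) :
    ∀ᵐ ω ∂μ, ∀ p, ε p ω = -1 ∨ ε p ω = 1 := by
  rw [ae_all_iff]
  intro p
  have hm1 : MeasurableSet {ω | ε p ω = -1} := hm p (measurableSet_singleton _)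
  have hm2 : MeasurableSet {ω | ε p ω = 1} := hm p (measurableSet_singleton _)
  have hd : Disjoint {ω | ε p ω = -1} {ω | ε p ω = 1} := by
    rw [Set.disjoint_left]
    intro ω ha hb
    rw [Set.mem_ofPred_eq] at ha hb
    rw [ha] at hb
    norm_num at hb
  have hu : μ ({ω | ε p ω = -1} ∪ {ω | ε p ω = 1}) = 1 := by
    rw [measure_union hd hm2, h2 p, h1 p]
    exact ENNReal.add_halves 1
  exact (mem_ae_iff_prob_eq_one (hm1.union hm2)).2 hu

/-- the set of the primes `≤ N` with sign `-1` is uniformly distributed, for each `N` -/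
def Unif {Ω : Type*} [MeasurableSpace Ω] (μ : Measure Ω) (ε : ℕ → Ω → ℝ) : Prop :=
  ∀ (N : ℕ) (Q : Finset ℕ → Prop), μ {ω | Q ((PP N).filter (fun p => ε p ω = -1))} ≤ ENNReal.ofReal (pr (PP N) Q)

/-- Borel-Cantelli -/
theorem bcU {Ω : Type*} [MeasurableSpace Ω] (μ : Measure Ω) (ε : ℕ → Ω → ℝ) (hM : Unif μ ε)
    (M : ℕ → ℕ) (Q : ℕ → Finset ℕ → Prop) (g : ℕ → ℝ) (hg : Summable g) (i0 : ℕ)
    (h : ∀ i, i0 ≤ i → pr (PP (M i)) (Q i) ≤ g i) :
    ∀ᵐ ω ∂μ, ∃ i1 : ℕ, ∀ i, i1 ≤ i → ¬ Q i (TT ε ω (M i)) := by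
  have hs : ∀ r, μ {ω | Q (r + i0) ((PP (M (r + i0))).filter (fun p => ε p ω = -1))} ≤
      ENNReal.ofReal (g (r + i0)) := fun r =>
    (hM (M (r + i0)) (Q (r + i0))).trans
      (ENNReal.ofReal_le_ofReal (h (r + i0) (by omega)))
  have hsum : ∑' r, μ {ω | Q (r + i0) ((PP (M (r + i0))).filter (fun p => ε p ω = -1))} ≠ ⊤ :=
    ne_top_of_le_ne_top ((summable_nat_add_iff i0).2 hg).tsum_ofReal_ne_top (ENNReal.tsum_le_tsum hs)
  filter_upwards [ae_eventually_notMem hsum] with ω hev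
  obtain ⟨r0, hr0⟩ := Filter.eventually_atTop.1 hev
  refine ⟨r0 + i0, fun i hi1 => ?_⟩
  have h3 := hr0 (i - i0) (by omega)
  have h4 : i - i0 + i0 = i := by omega
  rw [h4] at h3
  exact h3

theorem bc {Ω : Type} [MeasurableSpace Ω] (μ : Measure Ω) [IsProbabilityMeasure μ] (ε : ℕ → Ω → ℝ)
    (hm : ∀ p, Measurable (ε p)) (hi : iIndepFun ε μ) (h2 : ∀ p, μ {ω | ε p ω = -1} = 1 / 2)
    (M : ℕ → ℕ) (Q : ℕ → Finset ℕ → Prop) (g : ℕ → ℝ) (hg : Summable g) (i0 : ℕ)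
    (h : ∀ i, i0 ≤ i → pr (PP (M i)) (Q i) ≤ g i) :
    ∀ᵐ ω ∂μ, ∃ i1 : ℕ, ∀ i, i1 ≤ i → ¬ Q i (TT ε ω (M i)) :=
  bcU μ ε (fun N Q => meas_le μ ε hm hi h2 N Q) M Q g hg i0 h

end Pool.Agent.Helper96.AF
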