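import Pool.Agent.Helper96.AF.E3

/-!
# Project AF (MP_a499ba_nt), block E5

The barrier. PROOF: for a cell `[j/2^l, (j+1)/2^l]` with `|j| ≤ K 2^l` all `t` in it have `|t| ≤ K + 1`; averages and integrals may be interchanged, so
`av (PP (Y l)) (UU l · j) ≤ B (K+3)^B/2^l`, and the same for `av (PP (Y (2K)))` (`UU l T j` only depends on `T ∩ PP (Y l)`; prove the lemma `av_restrict`:
if `F T = F (T ∩ S')`, `S' ⊆ S`, then `av S F = av S' F`; `av_union`). Markov and the union over `2 K 2^l + 1 ≤ 3 K 2^l` cells and `2K` levels: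
`≤ 6 K^2 B (K+3)^B / exp (C log K) ≤ 1/K` for `C` large (`K + 3 ≤ K^3` for `K ≥ 2`, `6 B ≤ 2^(6B) ≤ K^(6B)`).
-/

set_option autoImplicit false

namespace Pool.Agent.Helper96.AF

open Finset Pool.Agent.Helper5.RM

theorem av_restrict {S S' : Finset ℕ} (h : S' ⊆ S) (F : Finset ℕ → ℝ) (hF : ∀ T, F T = F (T ∩ S')) :
    av S F = av S' F := by
  have h1 : S = S' ∪ (S \ S') := (Finset.union_sdiff_of_subset h).symm
  conv_lhs => rw [h1, av_union Finset.disjoint_sdiff]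
  refine av_congr fun T hT => ?_
  have h2 : av (S \ S') (fun T' => F (T ∪ T')) = av (S \ S') (fun _ => F T) := by
    refine av_congr fun T' hT' => ?_
    rw [hF (T ∪ T'), hF T]
    congr 1
    ext x
    simp only [Finset.mem_inter, Finset.mem_union]
    constructor
    · rintro ⟨h3 | h3, h4⟩
      · exact ⟨h3, h4⟩
      · exact absurd h4 (Finset.mem_sdiff.1 (hT' h3)).2
    · rintro ⟨h3, h4⟩
      exact ⟨Or.inl h3, h4⟩
  rw [h2, av_const]

/-- averages and interval integrals may be interchanged -/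
private lemma av_integral_E5 (S : Finset ℕ) (a b : ℝ) (G : Finset ℕ → ℝ → ℝ) (hG : ∀ T, Continuous (G T)) :
    av S (fun T => ∫ t in a..b, G T t) = ∫ t in a..b, av S (fun T => G T t) := by
  unfold av
  rw [intervalIntegral.integral_div, intervalIntegral.integral_finsetSum]
  intro T _
  exact (hG T).intervalIntegrable a b

lemma hh_restrict (l : ℕ) (T : Finset ℕ) (t : ℝ) : hh l T t = hh l (T ∩ PP (Y l)) t := by
  unfold hh
  congr 1
  refine Finset.sum_congr rfl fun p hp => ?_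
  rw [sg_congr (T := T) (T' := T ∩ PP (Y l)) (by simp [hp])]

lemma UU_restrict (l : ℕ) (T : Finset ℕ) (j : ℤ) : UU l T j = UU l (T ∩ PP (Y l)) j := by
  unfold UU
  congr 1
  refine intervalIntegral.integral_congr fun t _ => ?_
  exact hh_restrict l T t

lemma UU_nonneg (l : ℕ) (T : Finset ℕ) (j : ℤ) : 0 ≤ UU l T j := by
  unfold UU
  refine mul_nonneg (by positivity) (intervalIntegral.integral_nonneg ?_ fun t _ => (Real.exp_pos _).le)
  exact div_le_div_of_nonneg_right (by linarith) (by positivity)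

lemma av_UU {B : ℕ} (hB : ∀ (l : ℕ) (t : ℝ), av (PP (Y l)) (fun T => hh l T t) ≤ B * (2 + |t|) ^ B / 2 ^ l)
    (K l : ℕ) (j : ℤ) (h1 : -((K : ℤ) * 2 ^ l) ≤ j) (h2 : j ≤ (K : ℤ) * 2 ^ l) :
    av (PP (Y l)) (fun T => UU l T j) ≤ B * ((K : ℝ) + 3) ^ B / 2 ^ l := by
  have h2l : (0 : ℝ) < 2 ^ l := by positivity
  have h1l : (1 : ℝ) ≤ 2 ^ l := one_le_pow₀ (by norm_num)
  have h1' : -((K : ℝ) * 2 ^ l) ≤ j := by exact_mod_cast h1
  have h2' : (j : ℝ) ≤ (K : ℝ) * 2 ^ l := by exact_mod_cast h2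
  have hab : (j : ℝ) / 2 ^ l ≤ ((j : ℝ) + 1) / 2 ^ l :=
    div_le_div_of_nonneg_right (by linarith) h2l.le
  have e1 : av (PP (Y l)) (fun T => UU l T j) =
      2 ^ l * ∫ t in ((j : ℝ) / 2 ^ l)..(((j : ℝ) + 1) / 2 ^ l), av (PP (Y l)) (fun T => hh l T t) := by
    unfold UU
    rw [av_mul_left, av_integral_E5 _ _ _ _ (fun T => continuous_hh l T)]
  have hcont : Continuous (fun t => av (PP (Y l)) (fun T => hh l T t)) := by
    unfold av
    refine Continuous.div_const (continuous_finsetSum _ fun T _ => continuous_hh l T) _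
  have e2 : (∫ t in ((j : ℝ) / 2 ^ l)..(((j : ℝ) + 1) / 2 ^ l), av (PP (Y l)) (fun T => hh l T t)) ≤
      ∫ t in ((j : ℝ) / 2 ^ l)..(((j : ℝ) + 1) / 2 ^ l), B * ((K : ℝ) + 3) ^ B / 2 ^ l := by
    refine intervalIntegral.integral_mono_on hab (hcont.intervalIntegrable _ _)
      (continuous_const.intervalIntegrable _ _) fun t ht => ?_
    refine (hB l t).trans ?_
    have ht1 : -(K : ℝ) ≤ t := by
      refine le_trans ?_ ht.1
      rw [le_div_iff₀ h2l]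
      linarith
    have ht2 : t ≤ (K : ℝ) + 1 := by
      refine le_trans ht.2 ?_
      rw [div_le_iff₀ h2l]
      nlinarith
    have ht3 : |t| ≤ (K : ℝ) + 1 := abs_le.2 ⟨by linarith, ht2⟩
    have ht4 : (2 + |t|) ^ B ≤ ((K : ℝ) + 3) ^ B :=
      pow_le_pow_left₀ (by positivity) (by linarith) B
    exact div_le_div_of_nonneg_right (mul_le_mul_of_nonneg_left ht4 (by positivity)) h2l.le
  rw [intervalIntegral.integral_const] at e2
  have e3 : ((j : ℝ) + 1) / 2 ^ l - (j : ℝ) / 2 ^ l = 1 / 2 ^ l := by ring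
  rw [e3, smul_eq_mul] at e2
  rw [e1]
  calc (2 : ℝ) ^ l * ∫ t in ((j : ℝ) / 2 ^ l)..(((j : ℝ) + 1) / 2 ^ l), av (PP (Y l)) (fun T => hh l T t)
      ≤ 2 ^ l * (1 / 2 ^ l * (B * ((K : ℝ) + 3) ^ B / 2 ^ l)) := mul_le_mul_of_nonneg_left e2 h2l.le
    _ = B * ((K : ℝ) + 3) ^ B / 2 ^ l := by
        rw [← mul_assoc, mul_one_div_cancel h2l.ne', one_mul]

theorem barrier : ∃ C : ℝ, 0 < C ∧ ∀ K : ℕ, 2 ≤ K →
    pr (PP (Y (2 * K))) (fun T => ∃ l ∈ Finset.Icc 1 (2 * K),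
      ∃ j ∈ Finset.Icc (-((K : ℤ) * 2 ^ l)) ((K : ℤ) * 2 ^ l), Real.exp (C * Real.log K) < UU l T j) ≤ 1 / K := by
  obtain ⟨B, hB1, hB⟩ := av_hh
  refine ⟨(3 + 9 * B : ℕ), by positivity, fun K hK => ?_⟩
  have hK2 : (2 : ℝ) ≤ K := by exact_mod_cast hK
  have hK0 : (0 : ℝ) < K := by linarith
  have hexp : Real.exp (((3 + 9 * B : ℕ) : ℝ) * Real.log K) = (K : ℝ) ^ (3 + 9 * B) := by
    rw [← Real.log_pow, Real.exp_log (by positivity)]
  rw [hexp]
  set E : ℝ := (K : ℝ) ^ (3 + 9 * B) with hE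
  have hE0 : 0 < E := by positivity
  set A : ℝ := B * ((K : ℝ) + 3) ^ B with hA
  have hA0 : 0 ≤ A := by positivity
  -- one cell
  have hcell : ∀ l ∈ Finset.Icc 1 (2 * K), ∀ j ∈ Finset.Icc (-((K : ℤ) * 2 ^ l)) ((K : ℤ) * 2 ^ l),
      pr (PP (Y (2 * K))) (fun T => E < UU l T j) ≤ A / 2 ^ l / E := by
    intro l hl j hj
    rw [Finset.mem_Icc] at hl hj
    have e1 : av (PP (Y (2 * K))) (fun T => UU l T j) ≤ A / 2 ^ l := by
      rw [av_restrict (PP_Y_mono hl.2) (fun T => UU l T j) (fun T => UU_restrict l T j)]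
      exact av_UU hB K l j hj.1 hj.2
    refine (pr_mono ?_).trans (markov (F := fun T => UU l T j) (fun T _ => UU_nonneg l T j) hE0 e1)
    intro T _ h
    exact le_of_lt h
  -- one level
  have hlev : ∀ l ∈ Finset.Icc 1 (2 * K),
      pr (PP (Y (2 * K))) (fun T => ∃ j ∈ Finset.Icc (-((K : ℤ) * 2 ^ l)) ((K : ℤ) * 2 ^ l), E < UU l T j) ≤
        3 * K * A / E := by
    intro l hl
    refine (pr_exists _ _ _).trans ((Finset.sum_le_sum (hcell l hl)).trans ?_)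
    rw [Finset.sum_const, nsmul_eq_mul, Int.card_Icc]
    have h1l : (1 : ℝ) ≤ 2 ^ l := one_le_pow₀ (by norm_num)
    have h2l : (0 : ℝ) < 2 ^ l := by positivity
    have hcard : ((((K : ℤ) * 2 ^ l + 1 - -((K : ℤ) * 2 ^ l)).toNat : ℕ) : ℝ) ≤ 3 * K * 2 ^ l := by
      have h3 : ((K : ℤ) * 2 ^ l + 1 - -((K : ℤ) * 2 ^ l)).toNat = K * 2 ^ l + 1 + K * 2 ^ l := by
        have : ((K : ℤ) * 2 ^ l + 1 - -((K : ℤ) * 2 ^ l)) = ((K * 2 ^ l + 1 + K * 2 ^ l : ℕ) : ℤ) := by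
          push_cast
          ring
        rw [this, Int.toNat_natCast]
      rw [h3]
      push_cast
      nlinarith
    calc _ ≤ (3 * K * 2 ^ l) * (A / 2 ^ l / E) := mul_le_mul_of_nonneg_right hcard (by positivity)
      _ = 3 * K * A / E := by field_simp
  refine (pr_exists _ _ _).trans ((Finset.sum_le_sum hlev).trans ?_)
  rw [Finset.sum_const, nsmul_eq_mul, Nat.card_Icc, Nat.add_sub_cancel]
  push_cast
  -- numerics
  have h1 : (K : ℝ) + 3 ≤ (K : ℝ) ^ 3 := by nlinarith [mul_pos hK0 hK0]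
  have h2 : ((K : ℝ) + 3) ^ B ≤ (K : ℝ) ^ (3 * B) := by
    rw [pow_mul]
    exact pow_le_pow_left₀ (by positivity) h1 B
  have h3 : (6 : ℝ) * B ≤ (K : ℝ) ^ (6 * B) := by
    have h4 : (6 * B : ℕ) < 2 ^ (6 * B) := Nat.lt_two_pow_self
    have h5 : ((6 * B : ℕ) : ℝ) ≤ (2 : ℝ) ^ (6 * B) := by exact_mod_cast h4.le
    push_cast at h5
    exact h5.trans (pow_le_pow_left₀ (by norm_num) hK2 _)
  have h6 : 6 * A ≤ (K : ℝ) ^ (9 * B) := by
    rw [hA]
    calc 6 * (B * ((K : ℝ) + 3) ^ B) = (6 * B) * ((K : ℝ) + 3) ^ B := by ring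
      _ ≤ (K : ℝ) ^ (6 * B) * (K : ℝ) ^ (3 * B) := mul_le_mul h3 h2 (by positivity) (by positivity)
      _ = (K : ℝ) ^ (9 * B) := by rw [← pow_add]; congr 1; ring
  have h7 : E = (K : ℝ) ^ 3 * (K : ℝ) ^ (9 * B) := by rw [hE, pow_add]
  rw [← mul_div_assoc, div_le_div_iff₀ hE0 hK0, h7]
  have h8 : (0 : ℝ) ≤ (K : ℝ) ^ 3 := by positivity
  nlinarith [mul_le_mul_of_nonneg_left h6 h8]

end Pool.Agent.Helper96.AF
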