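import Pool.Agent.Helper96.AF.Bas

/-!
# Project AF (MP_a499ba_nt), block A1

Binary decomposition. PROOF of `bin_dec`: telescoping `F N - F (2^j (N/2^j)) = ∑_{i<j} (F (2^i (N/2^i)) - F (2^(i+1) (N/2^(i+1))))`
and `(∑_{i<j} a_i)^4 ≤ j^3 ∑ a_i^4` (`sq_sum_le_card_mul_sum_sq` two times).
PROOF of `bin_term`: let `q = N / 2^i`; `N / 2^(i+1) = q / 2`. If `q` is even both arguments agree and the left side
is `0`; if `q` is odd then `2^(i+1) (q/2) = 2^i (q-1)` and the left side is the term of `q`.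
-/

set_option autoImplicit false

namespace Pool.Agent.Helper96.AF

open Finset Pool.Agent.Helper5.RM

theorem bin_dec (F : ℕ → ℝ) (j N : ℕ) : (F N - F (2 ^ j * (N / 2 ^ j))) ^ 4 ≤
    (j : ℝ) ^ 3 * ∑ i ∈ Finset.range j, (F (2 ^ i * (N / 2 ^ i)) - F (2 ^ (i + 1) * (N / 2 ^ (i + 1)))) ^ 4 := by
  set a : ℕ → ℝ := fun i => F (2 ^ i * (N / 2 ^ i)) - F (2 ^ (i + 1) * (N / 2 ^ (i + 1))) with ha
  have htel : F N - F (2 ^ j * (N / 2 ^ j)) = ∑ i ∈ Finset.range j, a i := by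
    have h := Finset.sum_range_sub' (fun i => F (2 ^ i * (N / 2 ^ i))) j
    simp only [pow_zero, Nat.div_one, one_mul] at h
    rw [← h]
  have h1 : (∑ i ∈ Finset.range j, a i) ^ 2 ≤ (j : ℝ) * ∑ i ∈ Finset.range j, (a i) ^ 2 := by
    have := sq_sum_le_card_mul_sum_sq (s := Finset.range j) (f := a)
    simpa using this
  have h2 : (∑ i ∈ Finset.range j, (a i) ^ 2) ^ 2 ≤ (j : ℝ) * ∑ i ∈ Finset.range j, ((a i) ^ 2) ^ 2 := by
    have := sq_sum_le_card_mul_sum_sq (s := Finset.range j) (f := fun i => (a i) ^ 2)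
    simpa using this
  have hj : (0 : ℝ) ≤ j := Nat.cast_nonneg j
  have e4 : ∀ x : ℝ, x ^ 4 = (x ^ 2) ^ 2 := fun x => by ring
  rw [htel, e4]
  calc ((∑ i ∈ Finset.range j, a i) ^ 2) ^ 2
      ≤ ((j : ℝ) * ∑ i ∈ Finset.range j, (a i) ^ 2) ^ 2 := by
        exact pow_le_pow_left₀ (sq_nonneg _) h1 2
    _ = (j : ℝ) ^ 2 * (∑ i ∈ Finset.range j, (a i) ^ 2) ^ 2 := by ring
    _ ≤ (j : ℝ) ^ 2 * ((j : ℝ) * ∑ i ∈ Finset.range j, ((a i) ^ 2) ^ 2) :=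
        mul_le_mul_of_nonneg_left h2 (by positivity)
    _ = (j : ℝ) ^ 3 * ∑ i ∈ Finset.range j, (a i) ^ 4 := by
        have : ∑ i ∈ Finset.range j, ((a i) ^ 2) ^ 2 = ∑ i ∈ Finset.range j, (a i) ^ 4 :=
          Finset.sum_congr rfl fun i _ => (e4 (a i)).symm
        rw [this]; ring

theorem bin_term (F : ℕ → ℝ) (i N : ℕ) :
    (F (2 ^ i * (N / 2 ^ i)) - F (2 ^ (i + 1) * (N / 2 ^ (i + 1)))) ^ 4 ≤
      ∑ q ∈ Finset.Icc 1 (N / 2 ^ i), (F (2 ^ i * q) - F (2 ^ i * (q - 1))) ^ 4 := by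
  have hdiv : N / 2 ^ (i + 1) = (N / 2 ^ i) / 2 := by
    rw [pow_succ, Nat.div_div_eq_div_mul]
  rw [hdiv]
  set q := N / 2 ^ i with hq
  have hnn : ∀ r : ℕ, 0 ≤ (F (2 ^ i * r) - F (2 ^ i * (r - 1))) ^ 4 := fun r => by positivity
  rcases Nat.even_or_odd q with he | ho
  · obtain ⟨r, hr⟩ := he
    have h1 : 2 ^ (i + 1) * (q / 2) = 2 ^ i * q := by
      have : q / 2 = r := by omega
      rw [this, hr, pow_succ]; ring
    rw [h1, sub_self]
    have : (0 : ℝ) ^ 4 = 0 := by norm_num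
    rw [this]
    exact Finset.sum_nonneg fun r _ => hnn r
  · obtain ⟨r, hr⟩ := ho
    have h1 : 2 ^ (i + 1) * (q / 2) = 2 ^ i * (q - 1) := by
      have h2 : q / 2 = r := by omega
      have h3 : q - 1 = 2 * r := by omega
      rw [h2, h3, pow_succ]; ring
    rw [h1]
    exact Finset.single_le_sum (f := fun q => (F (2 ^ i * q) - F (2 ^ i * (q - 1))) ^ 4)
      (fun r _ => hnn r) (Finset.mem_Icc.2 ⟨by omega, le_refl q⟩)

end Pool.Agent.Helper96.AF
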