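import Pool.Agent.Helper96.AF.Bas
import Pool.Agent.Helper5.RM.HC4
import Pool.Agent.Helper5.RM.LG5

/-!
# Project AF (MP_a499ba_nt), block A2

Fourth moments. PROOF: `MM T (2^i q) - MM T (2^i (q-1))` is the sum of `rf T n` over `n` in the interval
`I_q = (2^i (q-1), 2^i q]`; `hyper_sqf` with `k = 2` gives `E (..)^4 ≤ (∑_{n ∈ I_q sqfree} 3^(om n))^2 ≤
2^i ∑_{n ∈ I_q sqfree} 9^(om n)` (Cauchy-Schwarz, at most `2^i` terms). The intervals are disjoint subsets of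
`[1, 2^(k+1)]`; `omega_sum` with `w = 9`, `X = 2^(k+1)`, and `1 + log (2^(k+1)) ≤ k + 2`.
-/

set_option autoImplicit false

namespace Pool.Agent.Helper96.AF

open Finset Pool.Agent.Helper5.RM

private lemma MM_diff (T : Finset ℕ) {a b : ℕ} (h : a ≤ b) :
    MM T b - MM T a = ∑ n ∈ (Finset.Ioc a b).filter Squarefree, rf T n := by
  unfold MM
  have hI : ∀ m : ℕ, Finset.Icc 1 m = Finset.Ioc 0 m := fun m => by
    ext x
    simp [Finset.mem_Icc, Finset.mem_Ioc, Nat.succ_le_iff]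
  rw [hI, hI, ← Finset.sum_Ioc_consecutive (rf T) (Nat.zero_le a) h, add_sub_cancel_left, Finset.sum_filter]
  refine Finset.sum_congr rfl fun n _ => ?_
  split_ifs with hn
  · rfl
  · exact rf_not hn

private lemma int4 (X a b : ℕ) (hab : a ≤ b) (hb : b ≤ X) :
    av (PP X) (fun T => (MM T b - MM T a) ^ 4) ≤
      ((b - a : ℕ) : ℝ) * ∑ n ∈ (Finset.Ioc a b).filter Squarefree, (9 : ℝ) ^ om n := by
  have h1 := hyper_sqf 2 (by norm_num) (PP X) ((Finset.Ioc a b).filter Squarefree) (fun n hn => by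
    rw [Finset.mem_filter, Finset.mem_Ioc] at hn
    exact ⟨hn.2, primeFactors_subset_PP (hn.1.2.trans hb)⟩) (fun _ => 1)
  have e1 : av (PP X) (fun T => (MM T b - MM T a) ^ 4) =
      av (PP X) (fun T => ‖∑ n ∈ (Finset.Ioc a b).filter Squarefree, (rf T n : ℂ) * 1‖ ^ (2 * 2)) := by
    refine av_congr fun T _ => ?_
    have : ∑ n ∈ (Finset.Ioc a b).filter Squarefree, (rf T n : ℂ) * 1 = ((MM T b - MM T a : ℝ) : ℂ) := by
      rw [MM_diff T hab]
      push_cast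
      refine Finset.sum_congr rfl fun n _ => by rw [mul_one]
    rw [this, Complex.norm_real, Real.norm_eq_abs]
    have h4 : |MM T b - MM T a| ^ (2 * 2) = (|MM T b - MM T a| ^ 2) ^ 2 := by ring
    rw [h4, sq_abs]
    ring
  rw [e1]
  refine h1.trans ?_
  have h2 : (∑ n ∈ (Finset.Ioc a b).filter Squarefree, (2 * ((2 : ℕ) : ℝ) - 1) ^ om n * ‖(1 : ℂ)‖ ^ 2) ^ 2 ≤
      (((Finset.Ioc a b).filter Squarefree).card : ℝ) *
        ∑ n ∈ (Finset.Ioc a b).filter Squarefree, ((2 * ((2 : ℕ) : ℝ) - 1) ^ om n * ‖(1 : ℂ)‖ ^ 2) ^ 2 :=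
    sq_sum_le_card_mul_sum_sq
  refine h2.trans ?_
  have h3 : ∑ n ∈ (Finset.Ioc a b).filter Squarefree, ((2 * ((2 : ℕ) : ℝ) - 1) ^ om n * ‖(1 : ℂ)‖ ^ 2) ^ 2 =
      ∑ n ∈ (Finset.Ioc a b).filter Squarefree, (9 : ℝ) ^ om n := by
    refine Finset.sum_congr rfl fun n _ => ?_
    have h9 : (9 : ℝ) = 3 ^ 2 := by norm_num
    have h8 : (2 * ((2 : ℕ) : ℝ) - 1) = 3 := by norm_num
    rw [norm_one, one_pow, mul_one, h8, h9, pow_right_comm]
  rw [h3]
  refine mul_le_mul_of_nonneg_right ?_ (Finset.sum_nonneg fun n _ => by positivity)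
  have h5 : ((Finset.Ioc a b).filter Squarefree).card ≤ b - a := by
    refine (Finset.card_filter_le _ _).trans ?_
    rw [Nat.card_Ioc]
  exact_mod_cast h5

private lemma sum_blocks (f : ℕ → ℝ) (L m : ℕ) :
    ∑ q ∈ Finset.Icc 1 m, ∑ n ∈ (Finset.Ioc (L * (q - 1)) (L * q)).filter Squarefree, f n =
      ∑ n ∈ (Finset.Icc 1 (L * m)).filter Squarefree, f n := by
  induction m with
  | zero => simp
  | succ m ih =>
    rw [Finset.sum_Icc_succ_top (by omega), ih]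
    have hI : ∀ m : ℕ, Finset.Icc 1 m = Finset.Ioc 0 m := fun m => by
      ext x
      simp [Finset.mem_Icc, Finset.mem_Ioc, Nat.succ_le_iff]
    rw [hI, hI, Finset.sum_filter, Finset.sum_filter, Finset.sum_filter, Nat.add_sub_cancel]
    exact Finset.sum_Ioc_consecutive _ (Nat.zero_le _) (Nat.mul_le_mul_left L (Nat.le_succ m))

theorem av_int4 (k i : ℕ) (hi : i ≤ k + 1) :
    av (PP (2 ^ (k + 1))) (fun T => ∑ q ∈ Finset.Icc 1 (2 ^ (k + 1 - i)),
      (MM T (2 ^ i * q) - MM T (2 ^ i * (q - 1))) ^ 4) ≤ 2 ^ i * (2 ^ (k + 1) * ((k : ℝ) + 2) ^ 9) := by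
  have hL : 0 < 2 ^ i := by positivity
  have hX : 2 ^ i * 2 ^ (k + 1 - i) = 2 ^ (k + 1) := by
    rw [← pow_add]
    congr 1
    omega
  rw [av_sum]
  have h1 : ∀ q ∈ Finset.Icc 1 (2 ^ (k + 1 - i)),
      av (PP (2 ^ (k + 1))) (fun T => (MM T (2 ^ i * q) - MM T (2 ^ i * (q - 1))) ^ 4) ≤
        2 ^ i * ∑ n ∈ (Finset.Ioc (2 ^ i * (q - 1)) (2 ^ i * q)).filter Squarefree, (9 : ℝ) ^ om n := by
    intro q hq
    rw [Finset.mem_Icc] at hq
    have h := int4 (2 ^ (k + 1)) (2 ^ i * (q - 1)) (2 ^ i * q) (Nat.mul_le_mul_left _ (Nat.sub_le _ _))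
      (by rw [← hX]; exact Nat.mul_le_mul_left _ hq.2)
    have e : 2 ^ i * q - 2 ^ i * (q - 1) = 2 ^ i := by
      rw [← Nat.mul_sub]
      have : q - (q - 1) = 1 := by omega
      rw [this, mul_one]
    rw [e] at h
    push_cast at h
    exact h
  refine (Finset.sum_le_sum h1).trans ?_
  rw [← Finset.mul_sum, sum_blocks, hX]
  refine mul_le_mul_of_nonneg_left ?_ (by positivity)
  have h2 := omega_sum 9 (2 ^ (k + 1)) Nat.one_le_two_pow
  push_cast at h2
  refine h2.trans ?_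
  refine mul_le_mul_of_nonneg_left ?_ (by positivity)
  have h3 : Real.log 2 ≤ 1 := by
    have := Real.log_two_lt_d9
    linarith
  have h4 : Real.log (2 ^ (k + 1)) ≤ (k : ℝ) + 1 := by
    rw [Real.log_pow]
    push_cast
    have : (0 : ℝ) ≤ (k : ℝ) + 1 := by positivity
    nlinarith
  have h5 : 0 ≤ Real.log (2 ^ (k + 1)) := Real.log_nonneg (one_le_pow₀ (by norm_num))
  exact pow_le_pow_left₀ (by linarith) (by linarith) 9

end Pool.Agent.Helper96.AF
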