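import Pool.Agent.Helper96.AF.A1
import Pool.Agent.Helper96.AF.A2

/-!
# Project AF (MP_a499ba_nt), block A3

The octave bound. PROOF: put `j = k - a`. For `N < 2^(k+1)` and `i < j` we have `N / 2^i ≤ 2^(k+1-i)`, so by `bin_dec`,
`bin_term`: `sup_N (MM T N - MM T (2^j (N/2^j)))^4 ≤ j^3 ∑_{i<j} ∑_{q ≤ 2^(k+1-i)} (..)^4`, whose average is
`≤ k^3 * 2^(k-a) * 2^(k+1) (k+2)^9 ≤ 2 * 4^k (k+2)^12 / 2^a ≤ 2 * 4^k / (k+2)^3` (`av_int4`). Markov at `4^k`: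
`2^k < x^2` implies `4^k ≤ x^4`.
-/

set_option autoImplicit false

namespace Pool.Agent.Helper96.AF

open Finset Pool.Agent.Helper5.RM

theorem octave (k a : ℕ) (hak : a ≤ k) (ha : ((k : ℝ) + 2) ^ 15 ≤ 2 ^ a) :
    pr (PP (2 ^ (k + 1))) (fun T => ∃ N ∈ Finset.Ico (2 ^ k) (2 ^ (k + 1)),
      (2 : ℝ) ^ k < (MM T N - MM T (2 ^ (k - a) * (N / 2 ^ (k - a)))) ^ 2) ≤ 2 / ((k : ℝ) + 2) ^ 2 := by
  obtain ⟨j, hj⟩ : ∃ j, j = k - a := ⟨_, rfl⟩
  rw [← hj]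
  have hjk : j ≤ k := by omega
  set FF : Finset ℕ → ℝ := fun T => (j : ℝ) ^ 3 * ∑ i ∈ Finset.range j, ∑ q ∈ Finset.Icc 1 (2 ^ (k + 1 - i)),
    (MM T (2 ^ i * q) - MM T (2 ^ i * (q - 1))) ^ 4 with hFF
  have hFF0 : ∀ T, 0 ≤ FF T := fun T => by
    rw [hFF]
    exact mul_nonneg (by positivity) (Finset.sum_nonneg fun i _ => Finset.sum_nonneg fun q _ => by positivity)
  have hk0 : (0 : ℝ) < (k : ℝ) + 2 := by positivity
  have hE : av (PP (2 ^ (k + 1))) FF ≤ ((k : ℝ) + 2) ^ 12 * 2 ^ j * 2 ^ (k + 1) := by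
    rw [hFF, av_mul_left, av_sum]
    have h1 : ∑ i ∈ Finset.range j, av (PP (2 ^ (k + 1))) (fun T => ∑ q ∈ Finset.Icc 1 (2 ^ (k + 1 - i)),
        (MM T (2 ^ i * q) - MM T (2 ^ i * (q - 1))) ^ 4) ≤
        ∑ i ∈ Finset.range j, (2 : ℝ) ^ i * (2 ^ (k + 1) * ((k : ℝ) + 2) ^ 9) := by
      refine Finset.sum_le_sum fun i hi => ?_
      have hi' := Finset.mem_range.1 hi
      exact av_int4 k i (by omega)
    have h2 : ∑ i ∈ Finset.range j, (2 : ℝ) ^ i * (2 ^ (k + 1) * ((k : ℝ) + 2) ^ 9) ≤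
        2 ^ j * (2 ^ (k + 1) * ((k : ℝ) + 2) ^ 9) := by
      rw [← Finset.sum_mul]
      refine mul_le_mul_of_nonneg_right ?_ (by positivity)
      have h3 : ∑ i ∈ Finset.range j, (2 : ℝ) ^ i = 2 ^ j - 1 := by
        rw [geom_sum_eq (by norm_num)]
        norm_num
      rw [h3]
      linarith
    have h4 : (j : ℝ) ^ 3 ≤ ((k : ℝ) + 2) ^ 3 := by
      refine pow_le_pow_left₀ (by positivity) ?_ 3
      have : (j : ℝ) ≤ k := by exact_mod_cast hjk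
      linarith
    calc (j : ℝ) ^ 3 * ∑ i ∈ Finset.range j, av (PP (2 ^ (k + 1))) (fun T => ∑ q ∈ Finset.Icc 1 (2 ^ (k + 1 - i)),
          (MM T (2 ^ i * q) - MM T (2 ^ i * (q - 1))) ^ 4)
        ≤ ((k : ℝ) + 2) ^ 3 * (2 ^ j * (2 ^ (k + 1) * ((k : ℝ) + 2) ^ 9)) := by
          refine mul_le_mul h4 (h1.trans h2) ?_ (by positivity)
          exact Finset.sum_nonneg fun i _ => av_nonneg fun T _ => Finset.sum_nonneg fun q _ => by positivity
      _ = ((k : ℝ) + 2) ^ 12 * 2 ^ j * 2 ^ (k + 1) := by ring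
  have hsub : pr (PP (2 ^ (k + 1))) (fun T => ∃ N ∈ Finset.Ico (2 ^ k) (2 ^ (k + 1)),
      (2 : ℝ) ^ k < (MM T N - MM T (2 ^ j * (N / 2 ^ j))) ^ 2) ≤
      pr (PP (2 ^ (k + 1))) (fun T => (2 : ℝ) ^ (2 * k) ≤ FF T) := by
    refine pr_mono fun T _ hT => ?_
    obtain ⟨N, hN, hlt⟩ := hT
    have hN2 := (Finset.mem_Ico.1 hN).2
    set x := MM T N - MM T (2 ^ j * (N / 2 ^ j)) with hx
    have h1 : (2 : ℝ) ^ (2 * k) ≤ x ^ 4 := by
      have h2 : (2 : ℝ) ^ (2 * k) = (2 ^ k) ^ 2 := by rw [← pow_mul, mul_comm]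
      have h3 : x ^ 4 = (x ^ 2) ^ 2 := by ring
      rw [h2, h3]
      exact pow_le_pow_left₀ (by positivity) hlt.le 2
    refine h1.trans ((bin_dec (fun N => MM T N) j N).trans ?_)
    rw [hFF]
    refine mul_le_mul_of_nonneg_left (Finset.sum_le_sum fun i hi => ?_) (by positivity)
    refine (bin_term (fun N => MM T N) i N).trans ?_
    refine Finset.sum_le_sum_of_subset_of_nonneg ?_ fun q _ _ => by positivity
    refine Finset.Icc_subset_Icc le_rfl ?_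
    have hi' := Finset.mem_range.1 hi
    have h5 : 2 ^ (k + 1) = 2 ^ i * 2 ^ (k + 1 - i) := by
      rw [← pow_add]
      congr 1
      omega
    rw [h5] at hN2
    exact (Nat.div_lt_of_lt_mul hN2).le
  refine hsub.trans ((markov (fun T _ => hFF0 T) (by positivity) hE).trans ?_)
  have h6 : ((k : ℝ) + 2) ^ 12 * 2 ^ j * 2 ^ (k + 1) / 2 ^ (2 * k) = 2 * ((k : ℝ) + 2) ^ 12 / 2 ^ a := by
    rw [div_eq_div_iff (by positivity) (by positivity)]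
    have h7 : (2 : ℝ) ^ k = 2 ^ j * 2 ^ a := by
      rw [← pow_add]
      congr 1
      omega
    have h8 : (2 : ℝ) ^ (2 * k) = 2 ^ k * 2 ^ k := by rw [← pow_add]; congr 1; omega
    rw [h8, pow_succ]
    nth_rewrite 2 [h7]
    ring
  rw [h6]
  calc 2 * ((k : ℝ) + 2) ^ 12 / 2 ^ a ≤ 2 * ((k : ℝ) + 2) ^ 12 / ((k : ℝ) + 2) ^ 15 :=
        div_le_div_of_nonneg_left (by positivity) (by positivity) ha
    _ = 2 / ((k : ℝ) + 2) ^ 3 := by
        rw [div_eq_div_iff (by positivity) (by positivity)]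
        ring
    _ ≤ 2 / ((k : ℝ) + 2) ^ 2 := by
        refine div_le_div_of_nonneg_left (by norm_num) (by positivity) ?_
        exact pow_le_pow_right₀ (by linarith [(Nat.cast_nonneg k : (0 : ℝ) ≤ k)]) (by norm_num)

end Pool.Agent.Helper96.AF
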