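import Pool.Agent.Helper96.AF.N1
import Pool.Agent.Helper5.RM.AZ2

/-!
# Project AF (MP_a499ba_nt), block B1

Azuma. PROOF: `MM T N = 1 + S` (`MM_eq`), `MM^2 ≤ 2 + 2 S^2`, so `4 K v0 + 2 < MM^2` implies `2 K v0 < S^2`;
`azuma` (Helper5/RM/AZ2) with `S = PP N`, a one-point index set `I`, `v p i T = (NN T p (N/p) : ℂ)` (`NN_pred`);
the norm of the complex sum is `|S|`.
-/

set_option autoImplicit false

namespace Pool.Agent.Helper96.AF

open Finset Pool.Agent.Helper5.RM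

theorem azumaM (N : ℕ) (hN : 1 ≤ N) (K v0 : ℝ) (hK : 0 < K) (hv0 : 0 ≤ v0) :
    pr (PP N) (fun T => 4 * K * v0 + 2 < MM T N ^ 2 ∧ VR N T ≤ v0) ≤ 2 * Real.exp (-K) := by
  have h := azuma (PP N) ({()} : Finset Unit) (fun p _ T => ((NN T p (N / p) : ℝ) : ℂ))
    (fun p _ _ _ T => by
      have := NN_pred p (N / p) T
      simp only at this ⊢
      rw [← this]) K v0 hK hv0
  refine le_trans (pr_mono fun T _ hT => ?_) h
  obtain ⟨h1, h2⟩ := hT
  rw [Finset.sum_singleton]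
  constructor
  · have e1 : (∑ p ∈ PP N, (sg T p : ℂ) * ((NN T p (N / p) : ℝ) : ℂ)) =
        ((∑ p ∈ PP N, sg T p * NN T p (N / p) : ℝ) : ℂ) := by
      push_cast
      rfl
    rw [e1, Complex.norm_real, Real.norm_eq_abs, sq_abs]
    rw [MM_eq T N hN] at h1
    nlinarith [sq_nonneg (1 - ∑ p ∈ PP N, sg T p * NN T p (N / p))]
  · refine le_trans (le_of_eq ?_) h2
    unfold VR
    refine Finset.sum_congr rfl fun p _ => ?_
    rw [Finset.sum_singleton, Complex.norm_real, Real.norm_eq_abs, sq_abs]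

end Pool.Agent.Helper96.AF
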