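import Pool.Agent.Helper96.AF.N1
import Pool.Agent.Helper96.AF.N2
import Pool.Agent.Helper5.RM.PRB

/-!
# Project AF (MP_a499ba_nt), block C1

Rankin. PROOF of `rankin`: by `card_eq` the left side is at most the number of squarefree `n ≤ N` with all primes `≤ y`. With
`σ = 1 - 1/log y ∈ [0, 1)` (`y ≥ 3`) it is `≤ ∑ (N/n)^σ ≤ N^σ ∏_{p ≤ y} (1 + p^(-σ))`, `N^σ = N exp (- log N / log y)`,
`p^(-σ) = p^(-1) p^(1/log y) ≤ e / p`, `∏ (1 + e/p) ≤ exp (e ∑ 1/p) ≤ exp (e (4 log (1 + log y) + 6))` (`prime_inv` of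
Helper5/RM/PRB), `4 e ≤ 12`, `6 e ≤ 18`, `y ≤ N`. (Helper5/RM/B10.lean contains a similar argument.)
`av_small`: `av_NN_sq_le` for every `p` (`PP N` contains all primes `≤ N/p`).
-/

set_option autoImplicit false

namespace Pool.Agent.Helper96.AF

open Finset Pool.Agent.Helper5.RM

private lemma c1_sum_sqf_le (s Q : Finset ℕ) (c : ℕ → ℝ) (hc : ∀ p ∈ Q, 0 ≤ c p)
    (hs : ∀ n ∈ s, Squarefree n ∧ n.primeFactors ⊆ Q) :
    ∑ n ∈ s, ∏ p ∈ n.primeFactors, c p ≤ ∏ p ∈ Q, (1 + c p) := by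
  classical
  rw [Finset.prod_one_add]
  have hinj : Set.InjOn (fun n : ℕ => n.primeFactors) (s : Set ℕ) := by
    intro a ha b hb hab
    have h1 := Nat.prod_primeFactors_of_squarefree (hs a ha).1
    have h2 := Nat.prod_primeFactors_of_squarefree (hs b hb).1
    simp only at hab
    rw [hab] at h1
    exact h1.symm.trans h2
  rw [← Finset.sum_image (f := fun T : Finset ℕ => ∏ p ∈ T, c p) hinj]
  refine Finset.sum_le_sum_of_subset_of_nonneg ?_ ?_
  · intro T hT
    obtain ⟨n, hn, rfl⟩ := Finset.mem_image.1 hT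
    exact Finset.mem_powerset.2 (hs n hn).2
  · intro T hT _
    exact Finset.prod_nonneg fun p hp => hc p (Finset.mem_powerset.1 hT hp)

private lemma c1_prod (B : ℕ) (hB : 1 ≤ B) :
    ∏ q ∈ PP B, (1 + 3 / (q : ℝ)) ≤ (1 + Real.log B) ^ 12 * Real.exp 18 := by
  have h1 : ∏ q ∈ PP B, (1 + 3 / (q : ℝ)) ≤ ∏ q ∈ PP B, Real.exp (3 * (1 / q)) := by
    refine Finset.prod_le_prod (fun p _ => by positivity) fun p _ => ?_
    have := Real.add_one_le_exp (3 * (1 / (p : ℝ)))
    rw [mul_one_div] at this ⊢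
    linarith
  refine h1.trans ?_
  rw [← Real.exp_sum, ← Finset.mul_sum]
  have h2 := prime_inv B hB
  have hlB : 0 ≤ Real.log B := Real.log_natCast_nonneg B
  calc Real.exp (3 * ∑ q ∈ PP B, 1 / (q : ℝ)) ≤ Real.exp (12 * Real.log (1 + Real.log B) + 18) := by
        apply Real.exp_le_exp.2; linarith
    _ = (1 + Real.log B) ^ 12 * Real.exp 18 := by
        rw [Real.exp_add]
        congr 1
        rw [show (12 : ℝ) * Real.log (1 + Real.log B) = ((12 : ℕ) : ℝ) * Real.log (1 + Real.log B) by norm_num,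
          Real.exp_nat_mul, Real.exp_log (by linarith)]

private lemma c1_weight {y N n : ℕ} (hy : 3 ≤ y) (hn1 : 1 ≤ n) (hnN : n ≤ N) (hsq : Squarefree n)
    (hn : ∀ p ∈ n.primeFactors, p ≤ y) :
    1 ≤ N * Real.exp (-(Real.log N / Real.log y)) * ∏ q ∈ n.primeFactors, (3 / (q : ℝ)) := by
  have hn0 : (0 : ℝ) < n := by exact_mod_cast hn1
  have hN0 : (0 : ℝ) < N := by exact_mod_cast (by omega : 0 < N)
  have hy0 : (0 : ℝ) < y := by exact_mod_cast (by omega : 0 < y)
  have hy3 : (3 : ℝ) ≤ y := by exact_mod_cast hy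
  have he3 : Real.exp 1 ≤ 3 := by
    have := Real.exp_one_lt_d9
    linarith
  have hly1 : 1 ≤ Real.log y := by
    rw [Real.le_log_iff_exp_le hy0]
    linarith
  have hly : 0 < Real.log y := by linarith
  have hlogn : Real.log n = ∑ q ∈ n.primeFactors, Real.log q := by
    conv_lhs => rw [← Nat.prod_primeFactors_of_squarefree hsq]
    rw [Nat.cast_prod, Real.log_prod]
    intro q hq
    have := (Nat.prime_of_mem_primeFactors hq).pos
    positivity
  have hlogn2 : Real.log n ≤ (n.primeFactors.card : ℝ) * Real.log y := by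
    rw [hlogn]
    calc ∑ q ∈ n.primeFactors, Real.log q ≤ ∑ _q ∈ n.primeFactors, Real.log y := by
          refine Finset.sum_le_sum fun q hq => ?_
          have hq0 : 0 < q := (Nat.prime_of_mem_primeFactors hq).pos
          exact Real.log_le_log (by exact_mod_cast hq0) (by exact_mod_cast hn q hq)
      _ = (n.primeFactors.card : ℝ) * Real.log y := by rw [Finset.sum_const, nsmul_eq_mul]
  have hlnN : Real.log n ≤ Real.log N := Real.log_le_log hn0 (by exact_mod_cast hnN)
  -- the key inequality of exponents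
  have hkey : 0 ≤ Real.log N - Real.log N / Real.log y - Real.log n + n.primeFactors.card := by
    have h1 : Real.log n / Real.log y ≤ n.primeFactors.card := by
      rw [div_le_iff₀ hly]; exact hlogn2
    have h2 : (Real.log N - Real.log n) / Real.log y ≤ Real.log N - Real.log n := by
      rw [div_le_iff₀ hly]
      nlinarith
    rw [sub_div] at h2
    linarith
  have hprod : ∏ q ∈ n.primeFactors, (3 / (q : ℝ)) = 3 ^ n.primeFactors.card / n := by
    rw [Finset.prod_div_distrib, Finset.prod_const]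
    congr 1
    rw [← Nat.cast_prod, Nat.prod_primeFactors_of_squarefree hsq]
  rw [hprod]
  have h3 : Real.exp (n.primeFactors.card : ℝ) ≤ 3 ^ n.primeFactors.card := by
    have h4 : Real.exp 1 ^ n.primeFactors.card ≤ 3 ^ n.primeFactors.card :=
      pow_le_pow_left₀ (Real.exp_pos 1).le he3 _
    rwa [← Real.exp_nat_mul, mul_one] at h4
  have h5 : 1 ≤ Real.exp (Real.log N - Real.log N / Real.log y - Real.log n + n.primeFactors.card) :=
    Real.one_le_exp hkey
  have h6 : Real.exp (Real.log N - Real.log N / Real.log y - Real.log n + n.primeFactors.card) =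
      N * Real.exp (-(Real.log N / Real.log y)) * (Real.exp (n.primeFactors.card : ℝ) / n) := by
    rw [Real.exp_add, Real.exp_sub, sub_eq_add_neg, Real.exp_add, Real.exp_log hN0, Real.exp_log hn0]
    ring
  rw [h6] at h5
  refine h5.trans ?_
  have h7 : (0 : ℝ) ≤ N * Real.exp (-(Real.log N / Real.log y)) := by positivity
  exact mul_le_mul_of_nonneg_left (div_le_div_of_nonneg_right h3 hn0.le) h7

theorem rankin (y N : ℕ) (hy : 3 ≤ y) (hN : y ≤ N) :
    ∑ p ∈ PP y, (((SM p (N / p)).filter Squarefree).card : ℝ) ≤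
      Real.exp 18 * N * (1 + Real.log N) ^ 12 * Real.exp (-(Real.log N / Real.log y)) := by
  refine (card_eq y N).trans ?_
  set Q : Finset ℕ := (Finset.Icc 1 N).filter (fun n => Squarefree n ∧ ∀ p ∈ n.primeFactors, p ≤ y) with hQ
  have h1 : (Q.card : ℝ) ≤ ∑ n ∈ Q, N * Real.exp (-(Real.log N / Real.log y)) *
      ∏ q ∈ n.primeFactors, (3 / (q : ℝ)) := by
    rw [Finset.card_eq_sum_ones]
    push_cast
    refine Finset.sum_le_sum fun n hn => ?_
    rw [hQ, Finset.mem_filter, Finset.mem_Icc] at hn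
    exact c1_weight hy hn.1.1 hn.1.2 hn.2.1 hn.2.2
  rw [← Finset.mul_sum] at h1
  have h2 : ∑ n ∈ Q, ∏ q ∈ n.primeFactors, (3 / (q : ℝ)) ≤ ∏ p ∈ PP y, (1 + 3 / (p : ℝ)) := by
    refine c1_sum_sqf_le Q (PP y) (fun q => 3 / (q : ℝ)) (fun _ _ => by positivity) ?_
    intro n hn
    rw [hQ, Finset.mem_filter] at hn
    refine ⟨hn.2.1, fun q hq => ?_⟩
    rw [mem_PP]
    exact ⟨Nat.prime_of_mem_primeFactors hq, hn.2.2 q hq⟩
  have h3 := h2.trans (c1_prod y (by omega))
  have hly : 0 ≤ Real.log y := Real.log_natCast_nonneg y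
  have hyN : Real.log y ≤ Real.log N :=
    Real.log_le_log (by exact_mod_cast (by omega : 0 < y)) (by exact_mod_cast hN)
  have h4 : (1 + Real.log y) ^ 12 ≤ (1 + Real.log N) ^ 12 :=
    pow_le_pow_left₀ (by linarith) (by linarith) 12
  have h7 : (0 : ℝ) ≤ N * Real.exp (-(Real.log N / Real.log y)) := by positivity
  calc (Q.card : ℝ) ≤ N * Real.exp (-(Real.log N / Real.log y)) *
        ∑ n ∈ Q, ∏ q ∈ n.primeFactors, (3 / (q : ℝ)) := h1
    _ ≤ N * Real.exp (-(Real.log N / Real.log y)) * ((1 + Real.log N) ^ 12 * Real.exp 18) := by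
        refine mul_le_mul_of_nonneg_left (h3.trans ?_) h7
        exact mul_le_mul_of_nonneg_right h4 (Real.exp_pos _).le
    _ = Real.exp 18 * N * (1 + Real.log N) ^ 12 * Real.exp (-(Real.log N / Real.log y)) := by ring

theorem av_small (y N : ℕ) (hy : 3 ≤ y) (hN : y ≤ N) :
    av (PP N) (fun T => ∑ p ∈ PP y, NN T p (N / p) ^ 2) ≤
      Real.exp 18 * N * (1 + Real.log N) ^ 12 * Real.exp (-(Real.log N / Real.log y)) := by
  refine le_trans ?_ (rankin y N hy hN)
  rw [av_sum]
  refine Finset.sum_le_sum fun p _ => ?_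
  refine av_NN_sq_le (PP N) p (N / p) fun q hq _ hqN => ?_
  rw [mem_PP]
  exact ⟨hq, hqN.trans (Nat.div_le_self N p)⟩

end Pool.Agent.Helper96.AF
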