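import Pool.Agent.Helper96.AF.ZI

/-!
# Project AF (MP_a499ba_nt), block C3a

Counting primes with `brun_titchmarsh`.
PROOF of `count_smooth`: if the set is empty nothing is to be shown. Let `p` be in it, `m = N/p`, `m ≥ H`; `m - m/H < m' ≤ m`
gives (real numbers) `m (1 - 1/H) < m'`, so `m' ≥ H` and `m + 1 ≤ m' H/(H-1) + 1`. Hence every `p` of the set lies in
`(N / (m' H/(H-1) + 1), N/m']`, an interval of length `≤ N (m'/(H-1) + 1)/m'^2 ≤ 2 N/(m' (H-1)) ≤ 4 N/(m' H)`. As `N/m' ≥ p > Y r ≥ H^4`,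
`N/(m' H) ≥ (Y r)^(3/4) ≥ 1`; apply `brun_titchmarsh` with `h = ⌈4 N/(m' H)⌉ + 1` (so `4N/(m'H) ≤ h ≤ 6 N/(m' H)`) and
`log h ≥ (3/4) log (Y r) = (3/4) 2^r log 2`.
PROOF of `count_small`: `N / p = m` gives `p ∈ (N/(m+1), N/m]`, an interval of length `≤ N/m^2`; if there is such a `p` then
`N/m^2 ≥ p/m ≥ Y r/H ≥ (Y r)^(3/4)`; same argument.
-/

set_option autoImplicit false

namespace Pool.Agent.Helper96.AF

open Finset Pool.Agent.Helper5.RM

/-- primes in an interval of length `ℓ ≥ (Y r)^(3/4)` -/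
private lemma count_interval : ∃ C : ℝ, 0 < C ∧ ∀ (r : ℕ) (a ℓ : ℝ), 0 ≤ a → 0 < ℓ → (Y r : ℝ) ^ 3 ≤ ℓ ^ 4 →
    ∀ S : Finset ℕ, (∀ p ∈ S, p.Prime ∧ a < p ∧ (p : ℝ) ≤ a + ℓ) → (S.card : ℝ) ≤ C * (ℓ / 2 ^ r) := by
  obtain ⟨C0, hC0, h0⟩ := brun_titchmarsh
  have hl2 : 0 < Real.log 2 := Real.log_pos (by norm_num)
  refine ⟨4 * C0 / Real.log 2, by positivity, fun r a ℓ ha hℓ hY S hS => ?_⟩
  have hY2 : (2:ℝ) ≤ Y r := by exact_mod_cast two_le_Y r
  have hℓ1 : 1 ≤ ℓ := by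
    by_contra hcon
    push Not at hcon
    have h1 : ℓ ^ 4 ≤ 1 := pow_le_one₀ hℓ.le hcon.le
    have h2 : (2:ℝ) ^ 3 ≤ (Y r : ℝ) ^ 3 := pow_le_pow_left₀ (by norm_num) hY2 3
    linarith
  set h : ℕ := ⌈ℓ⌉₊ + 1 with hh
  have hc1 : ℓ ≤ (⌈ℓ⌉₊ : ℝ) := Nat.le_ceil ℓ
  have hc2 : (⌈ℓ⌉₊ : ℝ) < ℓ + 1 := Nat.ceil_lt_add_one hℓ.le
  have hhR : (h : ℝ) = ⌈ℓ⌉₊ + 1 := by rw [hh]; push_cast; ring
  have hh2 : 2 ≤ h := by
    have : 1 ≤ ⌈ℓ⌉₊ := Nat.one_le_iff_ne_zero.mpr (by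
      intro h'
      rw [h'] at hc1
      push_cast at hc1
      linarith)
    omega
  set u : ℕ := ⌊a⌋₊ with hu
  have hu1 : (u : ℝ) ≤ a := Nat.floor_le ha
  have hu2 : a < u + 1 := Nat.lt_floor_add_one a
  have hsub : S ⊆ (Finset.Ioc u (u + h)).filter Nat.Prime := by
    intro p hp
    obtain ⟨h1, h2, h3⟩ := hS p hp
    rw [Finset.mem_filter, Finset.mem_Ioc]
    refine ⟨⟨?_, ?_⟩, h1⟩
    · have : (u : ℝ) < p := by linarith
      exact_mod_cast this
    · have : (p : ℝ) ≤ ((u + h : ℕ) : ℝ) := by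
        push_cast
        rw [hhR]
        linarith
      exact_mod_cast this
  have hcard : (S.card : ℝ) ≤ C0 * (h / Real.log h) := by
    refine le_trans ?_ (h0 u h hh2)
    exact_mod_cast Finset.card_le_card hsub
  have hlog : 3 / 4 * (2 ^ r * Real.log 2) ≤ Real.log h := by
    rw [← log_Y]
    have h1 : Real.log ((Y r : ℝ) ^ 3) ≤ Real.log (ℓ ^ 4) := Real.log_le_log (by positivity) hY
    rw [Real.log_pow, Real.log_pow] at h1
    push_cast at h1
    have h2 : Real.log ℓ ≤ Real.log h := Real.log_le_log hℓ (by rw [hhR]; linarith)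
    linarith
  have hpos : 0 < 3 / 4 * (2 ^ r * Real.log 2) := by positivity
  calc (S.card : ℝ) ≤ C0 * (h / Real.log h) := hcard
    _ ≤ C0 * ((3 * ℓ) / (3 / 4 * (2 ^ r * Real.log 2))) := by
        refine mul_le_mul_of_nonneg_left ?_ hC0.le
        exact div_le_div₀ (by positivity) (by rw [hhR]; linarith) hpos hlog
    _ = 4 * C0 / Real.log 2 * (ℓ / 2 ^ r) := by
        field_simp

theorem count_smooth : ∃ C : ℝ, 0 < C ∧ ∀ r N H m' : ℕ, 2 ≤ H → H ^ 4 ≤ Y r → 1 ≤ m' →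
    (((BL r).filter (fun p => p ≤ N ∧ H ≤ N / p ∧ N / p - N / p / H < m' ∧ m' ≤ N / p)).card : ℝ) ≤
      C * (N / (m' * H * 2 ^ r)) := by
  obtain ⟨C, hC, h⟩ := count_interval
  refine ⟨4 * C, by positivity, fun r N H m' hH hHY hm' => ?_⟩
  set S := (BL r).filter (fun p => p ≤ N ∧ H ≤ N / p ∧ N / p - N / p / H < m' ∧ m' ≤ N / p) with hS
  have hHR : (2:ℝ) ≤ H := by exact_mod_cast hH
  have hm'R : (1:ℝ) ≤ m' := by exact_mod_cast hm'
  have hYR : (H:ℝ) ^ 4 ≤ Y r := by exact_mod_cast hHY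
  rcases S.eq_empty_or_nonempty with he | ⟨p0, hp0⟩
  · rw [he, Finset.card_empty]
    push_cast
    positivity
  -- facts for each member
  have facts : ∀ p ∈ S, p.Prime ∧ (Y r : ℝ) < p ∧ (p : ℝ) * m' ≤ N ∧ (H : ℝ) ≤ m' ∧
      (N : ℝ) < p * (m' * (H / (H - 1)) + 1) := by
    intro p hp
    rw [hS, Finset.mem_filter, mem_BL] at hp
    obtain ⟨⟨hpp, hpY, _⟩, hpN, hHm, hlt, hle⟩ := hp
    have hpos : 0 < p := hpp.pos
    have e1 : p * m' ≤ N := by
      calc p * m' ≤ p * (N / p) := Nat.mul_le_mul_left _ hle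
        _ ≤ N := Nat.mul_div_le N p
    have e2 : N < p * (N / p + 1) := by
      rw [mul_comm]
      exact Nat.lt_mul_of_div_lt (Nat.lt_succ_self _) hpos
    set m := N / p with hm
    have e3 : m < m' + m / H := by omega
    have e4 : ((m / H : ℕ) : ℝ) ≤ (m : ℝ) / H := Nat.cast_div_le
    have e5 : (m : ℝ) < m' + (m : ℝ) / H := by
      have : (m : ℝ) < m' + ((m / H : ℕ) : ℝ) := by exact_mod_cast e3
      linarith
    have hmR : (H : ℝ) ≤ m := by exact_mod_cast hHm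
    have e6 : (m : ℝ) * ((H - 1) / H) < m' := by
      have : (m : ℝ) * ((H - 1) / H) = m - m / H := by
        field_simp
      rw [this]
      linarith
    have e7 : (m : ℝ) < m' * (H / (H - 1)) := by
      have h1 : (0:ℝ) < H - 1 := by linarith
      have h2 : (m : ℝ) = (m * ((H - 1) / H)) * (H / (H - 1)) := by
        field_simp
      rw [h2]
      exact mul_lt_mul_of_pos_right e6 (by positivity)
    have e8 : (H : ℝ) ≤ m' := by
      have h1 : (H : ℝ) - 1 < m' := by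
        calc (H : ℝ) - 1 = H * ((H - 1) / H) := by field_simp
          _ ≤ m * ((H - 1) / H) := mul_le_mul_of_nonneg_right hmR (div_nonneg (by linarith) (by linarith))
          _ < m' := e6
      have h2 : (H : ℝ) < (m' + 1 : ℕ) := by push_cast; linarith
      have h3 : H < m' + 1 := by exact_mod_cast h2
      exact_mod_cast Nat.lt_succ_iff.mp h3
    refine ⟨hpp, by exact_mod_cast hpY, by exact_mod_cast e1, e8, ?_⟩
    have e9 : (N : ℝ) < p * (m + 1) := by exact_mod_cast e2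
    have hp' : (0:ℝ) < p := by exact_mod_cast hpos
    calc (N : ℝ) < p * (m + 1) := e9
      _ ≤ p * (m' * (H / (H - 1)) + 1) := mul_le_mul_of_nonneg_left (by linarith) hp'.le
  obtain ⟨hp1, hp2, hp3, hp4, hp5⟩ := facts p0 hp0
  have hH0 : (0:ℝ) < H := by linarith
  have hH1 : (0:ℝ) < H - 1 := by linarith
  have hm0 : (0:ℝ) < m' := by linarith
  have hY0 : (0:ℝ) < Y r := by exact_mod_cast Y_pos r
  have hN0 : (0:ℝ) < N := lt_of_lt_of_le (mul_pos (hY0.trans hp2) hm0) hp3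
  set D : ℝ := m' * (H / (H - 1)) + 1 with hD
  have hD0 : 0 < D := by positivity
  have hlen : (N : ℝ) / m' ≤ N / D + 4 * N / (m' * H) := by
    have e1 : (N : ℝ) / m' - N / D = N * (D - m') / (m' * D) := by
      field_simp
    have e2 : D - m' ≤ 2 * m' / (H - 1) := by
      have : D - m' = m' / (H - 1) + 1 := by
        rw [hD]
        field_simp
        ring
      rw [this]
      have : 1 ≤ m' / ((H:ℝ) - 1) := by
        rw [le_div_iff₀ hH1]
        linarith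
      have e3 : 2 * (m' : ℝ) / (H - 1) = m' / (H - 1) + m' / (H - 1) := by ring
      linarith
    have e3 : (m':ℝ) ≤ D := by
      rw [hD]
      have : (1:ℝ) ≤ H / (H - 1) := by
        rw [le_div_iff₀ hH1]; linarith
      nlinarith
    have e4 : N * (D - m') / (m' * D) ≤ 4 * N / (m' * H) := by
      calc N * (D - m') / (m' * D) ≤ N * (2 * m' / (H - 1)) / (m' * m') := by
            refine div_le_div₀ ?_ ?_ (by positivity) ?_
            · positivity
            · exact mul_le_mul_of_nonneg_left e2 hN0.le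
            · exact mul_le_mul_of_nonneg_left e3 hm0.le
        _ = 2 * N / (m' * (H - 1)) := by field_simp
        _ ≤ 4 * N / (m' * H) := by
            rw [div_le_div_iff₀ (by positivity) (by positivity)]
            nlinarith [mul_pos hN0 hm0]
    linarith
  have hℓ : 0 < 4 * (N:ℝ) / (m' * H) := by positivity
  have hbig : (Y r : ℝ) ^ 3 ≤ (4 * (N:ℝ) / (m' * H)) ^ 4 := by
    have e1 : (Y r : ℝ) / H ≤ 4 * N / (m' * H) := by
      rw [div_le_div_iff₀ hH0 (by positivity)]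
      have : (Y r : ℝ) * m' ≤ N := by nlinarith
      nlinarith
    calc (Y r : ℝ) ^ 3 ≤ (Y r : ℝ) ^ 4 / H ^ 4 := by
          rw [le_div_iff₀ (by positivity)]
          calc (Y r : ℝ) ^ 3 * H ^ 4 ≤ (Y r : ℝ) ^ 3 * Y r := mul_le_mul_of_nonneg_left hYR (by positivity)
            _ = (Y r : ℝ) ^ 4 := by ring
      _ = ((Y r : ℝ) / H) ^ 4 := by rw [div_pow]
      _ ≤ _ := pow_le_pow_left₀ (by positivity) e1 4
  have hfin := h r (N / D) (4 * N / (m' * H)) (by positivity) hℓ hbig S (by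
    intro p hp
    obtain ⟨h1, h2, h3, h4, h5⟩ := facts p hp
    refine ⟨h1, ?_, ?_⟩
    · rw [div_lt_iff₀ hD0]
      exact h5
    · refine le_trans ?_ hlen
      rw [le_div_iff₀ hm0]
      exact h3)
  calc (S.card : ℝ) ≤ C * (4 * N / (m' * H) / 2 ^ r) := hfin
    _ = 4 * C * (N / (m' * H * 2 ^ r)) := by
        field_simp

theorem count_small : ∃ C : ℝ, 0 < C ∧ ∀ r N H m : ℕ, 2 ≤ H → H ^ 4 ≤ Y r → 1 ≤ m → m < H →
    (((BL r).filter (fun p => N / p = m)).card : ℝ) ≤ C * (N / (m ^ 2 * 2 ^ r)) := by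
  obtain ⟨C, hC, h⟩ := count_interval
  refine ⟨C, hC, fun r N H m hH hHY hm hmH => ?_⟩
  set S := (BL r).filter (fun p => N / p = m) with hS
  have hHR : (2:ℝ) ≤ H := by exact_mod_cast hH
  have hmR : (1:ℝ) ≤ m := by exact_mod_cast hm
  have hmHR : (m:ℝ) ≤ H := by exact_mod_cast hmH.le
  have hYR : (H:ℝ) ^ 4 ≤ Y r := by exact_mod_cast hHY
  rcases S.eq_empty_or_nonempty with he | ⟨p0, hp0⟩
  · rw [he, Finset.card_empty]
    push_cast
    positivity
  have facts : ∀ p ∈ S, p.Prime ∧ (Y r : ℝ) < p ∧ (p : ℝ) * m ≤ N ∧ (N : ℝ) < p * (m + 1) := by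
    intro p hp
    rw [hS, Finset.mem_filter, mem_BL] at hp
    obtain ⟨⟨hpp, hpY, _⟩, hpm⟩ := hp
    have hpos : 0 < p := hpp.pos
    have e1 : p * m ≤ N := by
      rw [← hpm]
      exact Nat.mul_div_le N p
    have e2 : N < p * (m + 1) := by
      rw [← hpm, mul_comm]
      exact Nat.lt_mul_of_div_lt (Nat.lt_succ_self _) hpos
    exact ⟨hpp, by exact_mod_cast hpY, by exact_mod_cast e1, by exact_mod_cast e2⟩
  obtain ⟨hp1, hp2, hp3, hp4⟩ := facts p0 hp0
  have hH0 : (0:ℝ) < H := by linarith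
  have hm0 : (0:ℝ) < m := by linarith
  have hY0 : (0:ℝ) < Y r := by exact_mod_cast Y_pos r
  have hN0 : (0:ℝ) < N := lt_of_lt_of_le (mul_pos (hY0.trans hp2) hm0) hp3
  have hlen : (N : ℝ) / m ≤ N / (m + 1) + N / m ^ 2 := by
    have e1 : (N : ℝ) / m - N / (m + 1) = N / (m * (m + 1)) := by
      field_simp
      ring
    have e2 : (N : ℝ) / (m * (m + 1)) ≤ N / m ^ 2 := by
      refine div_le_div_of_nonneg_left hN0.le (by positivity) ?_
      nlinarith
    linarith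
  have hℓ : 0 < (N:ℝ) / m ^ 2 := by positivity
  have hbig : (Y r : ℝ) ^ 3 ≤ ((N:ℝ) / m ^ 2) ^ 4 := by
    have e1 : (Y r : ℝ) / H ≤ N / m ^ 2 := by
      rw [div_le_div_iff₀ hH0 (by positivity)]
      have : (Y r : ℝ) * m ≤ N := by nlinarith
      calc (Y r : ℝ) * m ^ 2 = (Y r * m) * m := by ring
        _ ≤ N * H := mul_le_mul this hmHR hm0.le hN0.le
    calc (Y r : ℝ) ^ 3 ≤ (Y r : ℝ) ^ 4 / H ^ 4 := by
          rw [le_div_iff₀ (by positivity)]
          calc (Y r : ℝ) ^ 3 * H ^ 4 ≤ (Y r : ℝ) ^ 3 * Y r := mul_le_mul_of_nonneg_left hYR (by positivity)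
            _ = (Y r : ℝ) ^ 4 := by ring
      _ = ((Y r : ℝ) / H) ^ 4 := by rw [div_pow]
      _ ≤ _ := pow_le_pow_left₀ (by positivity) e1 4
  have hfin := h r (N / (m + 1)) (N / m ^ 2) (by positivity) hℓ hbig S (by
    intro p hp
    obtain ⟨h1, h2, h3, h4⟩ := facts p hp
    refine ⟨h1, ?_, ?_⟩
    · rw [div_lt_iff₀ (by positivity)]
      exact h4
    · refine le_trans ?_ hlen
      rw [le_div_iff₀ hm0]
      exact h3)
  calc (S.card : ℝ) ≤ C * (N / m ^ 2 / 2 ^ r) := hfin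
    _ = C * (N / (m ^ 2 * 2 ^ r)) := by
        rw [div_div]

end Pool.Agent.Helper96.AF
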