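import Pool.Agent.Helper96.AF.C3a

/-!
# Project AF (MP_a499ba_nt), block C3b

One block of the conditional variance. PROOF of `block_le`: the sum over `p ∈ BL r`, `p ≤ N` splits into `N/p < H` and `N/p ≥ H`.
(1) `N/p = m < H`: `NN T p m ^ 2 ≤ GG r T m` (`le_GG`), `count_small`, `1/m^2 ≤ 2/(m (m+1))`: at most `2 C N JJ r N T`.
(2) `m = N/p ≥ H`, `k = m/H ≥ 1`: for each `m' ∈ (m-k, m]` (there are `k`): `NN T p m ^2 ≤ 2 NN T p m' ^2 + 2 (NN T p m - NN T p m')^2`;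
average over `m'`. The second part is `ER`. First part: `NN T p m' ^2 ≤ GG r T m'`, and `2/k ≤ 4 H/m ≤ 4 H/m'`; interchange the sums over
`p` and `m'` (`m' ≤ N`) and use `count_smooth`: `≤ ∑_{m' ≤ N} GG r T m' (4H/m') C N/(m' H 2^r) ≤ 8 C N JJ r N T`.
-/

set_option autoImplicit false

namespace Pool.Agent.Helper96.AF

open Finset Pool.Agent.Helper5.RM

/-- the smoothing error -/
noncomputable def ER (r N H : ℕ) (T : Finset ℕ) : ℝ :=
  ∑ p ∈ (BL r).filter (fun p => p ≤ N ∧ H ≤ N / p), (2 / ((N / p / H : ℕ) : ℝ)) *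
    ∑ m ∈ Finset.Ioc (N / p - N / p / H) (N / p), (NN T p (N / p) - NN T p m) ^ 2

private lemma sq_inv_le {m : ℕ} (hm : 1 ≤ m) (x : ℝ) (hx : 0 ≤ x) :
    x / (m : ℝ) ^ 2 ≤ 2 * (x / (m * (m + 1))) := by
  have h1 : (1 : ℝ) ≤ m := by exact_mod_cast hm
  rw [div_le_iff₀ (by positivity), mul_div_assoc', div_mul_eq_mul_div, le_div_iff₀ (by positivity)]
  nlinarith [mul_nonneg hx (by linarith : (0 : ℝ) ≤ m)]

/-- the sum of `GG` over the squares of `m` -/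
private lemma sum_sq_le (r N : ℕ) (T : Finset ℕ) :
    ∑ m ∈ Finset.Icc 1 N, GG r T m * (N / ((m : ℝ) ^ 2 * 2 ^ r)) ≤ 2 * (N * JJ r N T) := by
  unfold JJ
  rw [Finset.sum_div, Finset.mul_sum, Finset.mul_sum]
  refine Finset.sum_le_sum fun m hm => ?_
  have hm1 := (Finset.mem_Icc.1 hm).1
  have h := sq_inv_le hm1 (GG r T m) (GG_nonneg r T m)
  have h2 : (0 : ℝ) ≤ N / 2 ^ r := by positivity
  have h3 := mul_le_mul_of_nonneg_right h h2
  calc GG r T m * (N / ((m : ℝ) ^ 2 * 2 ^ r)) = GG r T m / (m : ℝ) ^ 2 * (N / 2 ^ r) := by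
        rw [div_mul_div_comm, mul_div_assoc']
    _ ≤ 2 * (GG r T m / (m * (m + 1))) * (N / 2 ^ r) := h3
    _ = _ := by ring

private lemma part1 {C : ℝ} (hC : 0 < C) (hcs : ∀ r N H m : ℕ, 2 ≤ H → H ^ 4 ≤ Y r → 1 ≤ m → m < H →
    (((BL r).filter (fun p => N / p = m)).card : ℝ) ≤ C * (N / (m ^ 2 * 2 ^ r)))
    (r N H : ℕ) (T : Finset ℕ) (hH : 2 ≤ H) (hHY : H ^ 4 ≤ Y r) :
    ∑ p ∈ (BL r).filter (fun p => p ≤ N ∧ N / p < H), NN T p (N / p) ^ 2 ≤ C * (2 * (N * JJ r N T)) := by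
  classical
  have h1 : ∑ p ∈ (BL r).filter (fun p => p ≤ N ∧ N / p < H), NN T p (N / p) ^ 2 ≤
      ∑ p ∈ (BL r).filter (fun p => p ≤ N ∧ N / p < H), GG r T (N / p) := by
    refine Finset.sum_le_sum fun p hp => ?_
    have h2 := mem_BL.1 (Finset.mem_filter.1 hp).1
    exact le_GG T _ h2.2.1 (h2.2.2.trans (Nat.le_succ _))
  refine h1.trans ?_
  have hmap : ∀ p ∈ (BL r).filter (fun p => p ≤ N ∧ N / p < H), N / p ∈ Finset.Icc 1 N := by
    intro p hp
    rw [Finset.mem_filter, mem_BL] at hp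
    exact Finset.mem_Icc.2 ⟨Nat.div_pos hp.2.1 hp.1.1.pos, Nat.div_le_self _ _⟩
  rw [← Finset.sum_fiberwise_of_maps_to hmap]
  calc ∑ m ∈ Finset.Icc 1 N, ∑ p ∈ ((BL r).filter (fun p => p ≤ N ∧ N / p < H)).filter (fun p => N / p = m), GG r T (N / p)
      ≤ ∑ m ∈ Finset.Icc 1 N, C * (GG r T m * (N / ((m : ℝ) ^ 2 * 2 ^ r))) := by
        refine Finset.sum_le_sum fun m hm => ?_
        have hm1 := (Finset.mem_Icc.1 hm).1
        have h3 : ∑ p ∈ ((BL r).filter (fun p => p ≤ N ∧ N / p < H)).filter (fun p => N / p = m), GG r T (N / p) =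
            ((((BL r).filter (fun p => p ≤ N ∧ N / p < H)).filter (fun p => N / p = m)).card : ℝ) * GG r T m := by
          rw [Finset.sum_congr rfl fun p hp => by rw [(Finset.mem_filter.1 hp).2], Finset.sum_const, nsmul_eq_mul]
        rw [h3]
        have hG := GG_nonneg r T m
        rcases lt_or_ge m H with hmH | hmH
        · have h4 : ((((BL r).filter (fun p => p ≤ N ∧ N / p < H)).filter (fun p => N / p = m)).card : ℝ) ≤
              C * (N / ((m : ℝ) ^ 2 * 2 ^ r)) := by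
            refine le_trans ?_ (hcs r N H m hH hHY hm1 hmH)
            exact_mod_cast Finset.card_le_card (Finset.filter_subset_filter _ (Finset.filter_subset _ _))
          have h5 := mul_le_mul_of_nonneg_right h4 hG
          linarith
        · have h4 : ((BL r).filter (fun p => p ≤ N ∧ N / p < H)).filter (fun p => N / p = m) = ∅ := by
            rw [Finset.filter_eq_empty_iff]
            intro p hp h
            rw [Finset.mem_filter] at hp
            omega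
          rw [h4]
          simp only [Finset.card_empty, Nat.cast_zero, zero_mul]
          positivity
    _ = C * ∑ m ∈ Finset.Icc 1 N, GG r T m * (N / ((m : ℝ) ^ 2 * 2 ^ r)) := by rw [Finset.mul_sum]
    _ ≤ C * (2 * (N * JJ r N T)) := mul_le_mul_of_nonneg_left (sum_sq_le r N T) hC.le

/-- the averaging inequality for one prime -/
private lemma one_p {r N H p : ℕ} (T : Finset ℕ) (hH : 2 ≤ H) (hp : p ∈ BL r) (hHp : H ≤ N / p) :
    NN T p (N / p) ^ 2 ≤ ∑ m ∈ Finset.Ioc (N / p - N / p / H) (N / p), 4 * H / (m : ℝ) * GG r T m +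
      (2 / ((N / p / H : ℕ) : ℝ)) *
        ∑ m ∈ Finset.Ioc (N / p - N / p / H) (N / p), (NN T p (N / p) - NN T p m) ^ 2 := by
  obtain ⟨m0, hm0⟩ : ∃ m0, m0 = N / p := ⟨_, rfl⟩
  rw [← hm0] at hHp ⊢
  obtain ⟨k, hk⟩ : ∃ k, k = m0 / H := ⟨_, rfl⟩
  rw [← hk]
  have hk1 : 1 ≤ k := by rw [hk]; exact Nat.div_pos hHp (by omega)
  have hkm : k ≤ m0 := by rw [hk]; exact Nat.div_le_self _ _
  have hk2 : m0 < H * (k + 1) := by rw [hk]; exact Nat.lt_mul_div_succ _ (by omega)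
  have hkr : (0 : ℝ) < k := by exact_mod_cast hk1
  have hcard : ((Finset.Ioc (m0 - k) m0).card : ℝ) = k := by
    rw [Nat.card_Ioc]
    have : m0 - (m0 - k) = k := by omega
    rw [this]
  have h1 : (k : ℝ) * NN T p m0 ^ 2 ≤ ∑ m ∈ Finset.Ioc (m0 - k) m0, (2 * NN T p m ^ 2 +
      2 * (NN T p m0 - NN T p m) ^ 2) := by
    rw [← hcard, ← nsmul_eq_mul, ← Finset.sum_const]
    refine Finset.sum_le_sum fun m _ => ?_
    nlinarith [sq_nonneg (NN T p m0 - 2 * NN T p m)]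
  have h2 : NN T p m0 ^ 2 ≤ (2 / (k : ℝ)) * ∑ m ∈ Finset.Ioc (m0 - k) m0, NN T p m ^ 2 +
      (2 / (k : ℝ)) * ∑ m ∈ Finset.Ioc (m0 - k) m0, (NN T p m0 - NN T p m) ^ 2 := by
    rw [Finset.sum_add_distrib, ← Finset.mul_sum, ← Finset.mul_sum] at h1
    have h3 : NN T p m0 ^ 2 ≤ (2 * ∑ m ∈ Finset.Ioc (m0 - k) m0, NN T p m ^ 2 +
        2 * ∑ m ∈ Finset.Ioc (m0 - k) m0, (NN T p m0 - NN T p m) ^ 2) / k := by
      rw [le_div_iff₀ hkr]
      linarith
    refine h3.trans (le_of_eq ?_)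
    ring
  refine h2.trans ?_
  gcongr ?_ + _
  rw [Finset.mul_sum]
  refine Finset.sum_le_sum fun m hm => ?_
  rw [Finset.mem_Ioc] at hm
  have hm1 : 1 ≤ m := by omega
  have hmr : (0 : ℝ) < m := by exact_mod_cast hm1
  have hG := le_GG (r := r) (y := p) T m (mem_BL.1 hp).2.1 ((mem_BL.1 hp).2.2.trans (Nat.le_succ _))
  have h4 : 2 / (k : ℝ) ≤ 4 * H / m := by
    rw [div_le_div_iff₀ hkr hmr]
    have h5 : m ≤ 2 * (H * k) := by
      have : H * (k + 1) ≤ 2 * (H * k) := by nlinarith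
      omega
    have h6 : (m : ℝ) ≤ 2 * (H * k) := by exact_mod_cast h5
    linarith
  exact mul_le_mul h4 hG (sq_nonneg _) (by positivity)

private lemma part2 {C : ℝ} (hC : 0 < C) (hcs : ∀ r N H m' : ℕ, 2 ≤ H → H ^ 4 ≤ Y r → 1 ≤ m' →
    (((BL r).filter (fun p => p ≤ N ∧ H ≤ N / p ∧ N / p - N / p / H < m' ∧ m' ≤ N / p)).card : ℝ) ≤
      C * (N / (m' * H * 2 ^ r)))
    (r N H : ℕ) (T : Finset ℕ) (hH : 2 ≤ H) (hHY : H ^ 4 ≤ Y r) :
    ∑ p ∈ (BL r).filter (fun p => p ≤ N ∧ H ≤ N / p), NN T p (N / p) ^ 2 ≤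
      C * (8 * (N * JJ r N T)) + ER r N H T := by
  classical
  have h1 : ∑ p ∈ (BL r).filter (fun p => p ≤ N ∧ H ≤ N / p), NN T p (N / p) ^ 2 ≤
      (∑ p ∈ (BL r).filter (fun p => p ≤ N ∧ H ≤ N / p),
        ∑ m ∈ Finset.Ioc (N / p - N / p / H) (N / p), 4 * H / (m : ℝ) * GG r T m) + ER r N H T := by
    unfold ER
    rw [← Finset.sum_add_distrib]
    refine Finset.sum_le_sum fun p hp => ?_
    rw [Finset.mem_filter] at hp
    exact one_p T hH hp.1 hp.2.2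
  refine h1.trans ?_
  gcongr ?_ + _
  have h2 : ∑ p ∈ (BL r).filter (fun p => p ≤ N ∧ H ≤ N / p),
        ∑ m ∈ Finset.Ioc (N / p - N / p / H) (N / p), 4 * H / (m : ℝ) * GG r T m =
      ∑ m ∈ Finset.Icc 1 N, ∑ p ∈ (BL r).filter (fun p => p ≤ N ∧ H ≤ N / p ∧ N / p - N / p / H < m ∧ m ≤ N / p),
        4 * H / (m : ℝ) * GG r T m := by
    refine Finset.sum_comm' fun p m => ?_
    simp only [Finset.mem_filter, Finset.mem_Ioc, Finset.mem_Icc]
    constructor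
    · rintro ⟨⟨h3, h4, h5⟩, h6, h7⟩
      exact ⟨⟨h3, h4, h5, h6, h7⟩, by omega, h7.trans (Nat.div_le_self _ _)⟩
    · rintro ⟨⟨h3, h4, h5, h6, h7⟩, _, _⟩
      exact ⟨⟨h3, h4, h5⟩, h6, h7⟩
  rw [h2]
  have hHr : (0 : ℝ) < H := by exact_mod_cast (by omega : 0 < H)
  calc ∑ m ∈ Finset.Icc 1 N, ∑ p ∈ (BL r).filter (fun p => p ≤ N ∧ H ≤ N / p ∧ N / p - N / p / H < m ∧ m ≤ N / p),
        4 * H / (m : ℝ) * GG r T m
      ≤ ∑ m ∈ Finset.Icc 1 N, C * (4 * (GG r T m * (N / ((m : ℝ) ^ 2 * 2 ^ r)))) := by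
        refine Finset.sum_le_sum fun m hm => ?_
        have hm1 := (Finset.mem_Icc.1 hm).1
        have hmr : (0 : ℝ) < m := by exact_mod_cast hm1
        have hG := GG_nonneg r T m
        rw [Finset.sum_const, nsmul_eq_mul]
        have h3 := hcs r N H m hH hHY hm1
        have h4 : 0 ≤ 4 * H / (m : ℝ) * GG r T m := by positivity
        refine (mul_le_mul_of_nonneg_right h3 h4).trans (le_of_eq ?_)
        field_simp
    _ = C * (4 * ∑ m ∈ Finset.Icc 1 N, GG r T m * (N / ((m : ℝ) ^ 2 * 2 ^ r))) := by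
        rw [← Finset.mul_sum, ← Finset.mul_sum]
    _ ≤ C * (4 * (2 * (N * JJ r N T))) :=
        mul_le_mul_of_nonneg_left (mul_le_mul_of_nonneg_left (sum_sq_le r N T) (by norm_num)) hC.le
    _ = C * (8 * (N * JJ r N T)) := by ring

theorem block_le : ∃ C : ℝ, 0 < C ∧ ∀ (r N H : ℕ) (T : Finset ℕ), 2 ≤ H → H ^ 4 ≤ Y r →
    ∑ p ∈ (BL r).filter (· ≤ N), NN T p (N / p) ^ 2 ≤ C * N * JJ r N T + ER r N H T := by
  obtain ⟨C1, hC1, h1⟩ := count_small
  obtain ⟨C2, hC2, h2⟩ := count_smooth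
  refine ⟨2 * C1 + 8 * C2, by positivity, ?_⟩
  intro r N H T hH hHY
  have e1 := part1 hC1 h1 r N H T hH hHY
  have e2 := part2 hC2 h2 r N H T hH hHY
  have e3 : ∑ p ∈ (BL r).filter (· ≤ N), NN T p (N / p) ^ 2 =
      ∑ p ∈ (BL r).filter (fun p => p ≤ N ∧ H ≤ N / p), NN T p (N / p) ^ 2 +
      ∑ p ∈ (BL r).filter (fun p => p ≤ N ∧ N / p < H), NN T p (N / p) ^ 2 := by
    rw [← Finset.sum_filter_add_sum_filter_not ((BL r).filter (· ≤ N)) (fun p => H ≤ N / p),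
      Finset.filter_filter, Finset.filter_filter]
    simp only [not_le]
  rw [e3]
  linarith

end Pool.Agent.Helper96.AF
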