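import Pool.Agent.Helper96.AF.C3b
import Pool.Agent.Helper96.AF.N2

/-!
# Project AF (MP_a499ba_nt), block C4

PROOF: `av_NN_diff_le`: the average of `(NN T p m - NN T p m')^2` is `≤ m - m' ≤ k := m/H` for `m' ∈ (m-k, m]`, `k` values; so the
average of the term of `p` is `≤ (2/k) k^2 = 2 k ≤ 2 N/(p H)`. Sum over `p ≤ N`: `∑ 1/p ≤ ∑_{n ≤ N} 1/n ≤ 1 + log N`
(`harmonic_le_one_add_log`).
-/

set_option autoImplicit false

namespace Pool.Agent.Helper96.AF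

open Finset Pool.Agent.Helper5.RM

private lemma av_term (N H p : ℕ) (hN : p ≤ N) (hH : 1 ≤ H) (hp : 1 ≤ p) (hHp : H ≤ N / p) :
    av (PP N) (fun T => (2 / ((N / p / H : ℕ) : ℝ)) *
      ∑ m ∈ Finset.Ioc (N / p - N / p / H) (N / p), (NN T p (N / p) - NN T p m) ^ 2) ≤
      2 * (N / H) * ((p : ℝ))⁻¹ := by
  set Z := N / p with hZ
  set k := Z / H with hk
  have hk1 : 1 ≤ k := (Nat.one_le_div_iff (by omega)).2 hHp
  have hkZ : k ≤ Z := Nat.div_le_self _ _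
  have hk0 : (0 : ℝ) < k := by exact_mod_cast hk1
  have hp0 : (0 : ℝ) < p := by exact_mod_cast hp
  have hH0 : (0 : ℝ) < H := by exact_mod_cast hH
  rw [av_mul_left, av_sum]
  have h1 : ∑ m ∈ Finset.Ioc (Z - k) Z, av (PP N) (fun T => (NN T p Z - NN T p m) ^ 2) ≤
      ∑ m ∈ Finset.Ioc (Z - k) Z, (k : ℝ) := by
    refine Finset.sum_le_sum fun m hm => ?_
    rw [Finset.mem_Ioc] at hm
    refine (av_NN_diff_le (PP N) p Z m hm.2 fun q hq hq1 _ => ?_).trans ?_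
    · rw [mem_PP]
      exact ⟨hq, by omega⟩
    · have h2 : Z ≤ m + k := by omega
      have h3 : (Z : ℝ) ≤ m + k := by exact_mod_cast h2
      linarith
  rw [Finset.sum_const, Nat.card_Ioc, Nat.sub_sub_self hkZ, nsmul_eq_mul] at h1
  have h4 : (k : ℝ) ≤ N / p / H := by
    have h5 : (k : ℝ) ≤ (Z : ℝ) / H := Nat.cast_div_le
    have h6 : (Z : ℝ) ≤ (N : ℝ) / p := Nat.cast_div_le
    exact h5.trans (div_le_div_of_nonneg_right h6 hH0.le)
  calc 2 / (k : ℝ) * ∑ m ∈ Finset.Ioc (Z - k) Z, av (PP N) (fun T => (NN T p Z - NN T p m) ^ 2)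
      ≤ 2 / (k : ℝ) * ((k : ℝ) * k) := mul_le_mul_of_nonneg_left h1 (by positivity)
    _ = 2 * k := by field_simp
    _ ≤ 2 * (N / p / H) := by linarith
    _ = 2 * (N / H) * ((p : ℝ))⁻¹ := by field_simp

theorem av_ER (r N H : ℕ) (hN : 1 ≤ N) (hH : 1 ≤ H) :
    av (PP N) (fun T => ER r N H T) ≤ 2 * (N / H) * (1 + Real.log N) := by
  have hH0 : (0 : ℝ) < H := by exact_mod_cast hH
  unfold ER
  rw [av_sum]
  have h1 : ∀ p ∈ (BL r).filter (fun p => p ≤ N ∧ H ≤ N / p),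
      av (PP N) (fun T => (2 / ((N / p / H : ℕ) : ℝ)) *
        ∑ m ∈ Finset.Ioc (N / p - N / p / H) (N / p), (NN T p (N / p) - NN T p m) ^ 2) ≤
        2 * (N / H) * ((p : ℝ))⁻¹ := by
    intro p hp
    rw [Finset.mem_filter, mem_BL] at hp
    exact av_term N H p hp.2.1 hH hp.1.1.one_le hp.2.2
  refine (Finset.sum_le_sum h1).trans ?_
  rw [← Finset.mul_sum]
  refine mul_le_mul_of_nonneg_left ?_ (by positivity)
  have h2 : ∑ p ∈ (BL r).filter (fun p => p ≤ N ∧ H ≤ N / p), ((p : ℝ))⁻¹ ≤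
      ∑ p ∈ Finset.Icc 1 N, ((p : ℝ))⁻¹ := by
    refine Finset.sum_le_sum_of_subset_of_nonneg (fun p hp => ?_) fun p _ _ => by positivity
    rw [Finset.mem_filter, mem_BL] at hp
    rw [Finset.mem_Icc]
    exact ⟨hp.1.1.one_le, hp.2.1⟩
  have h3 := harmonic_le_one_add_log N
  rw [harmonic_eq_sum_Icc] at h3
  push_cast at h3
  exact h2.trans h3

end Pool.Agent.Helper96.AF
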