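import Pool.Agent.Helper96.AF.C1
import Pool.Agent.Helper96.AF.C3b
import Pool.Agent.Helper96.AF.C4

/-!
# Project AF (MP_a499ba_nt), block C5

The conditional variance off a small event. PROOF: let `C` be the constant of `block_le`, choose `c` with `2^c ≥ 2 A + 200`, `r0 = R - (log2 R + c)`,
`H = 2^((A+6) R)`; for `R ≥ R1`: `r0 ≥ R/2`, `4 (A+6) R ≤ 2^r0` so `H^4 ≤ Y r0 ≤ Y r` for `r ≥ r0`. `PP N` is the disjoint union of `PP (Y r0)` and
the `(BL r).filter (· ≤ N)`, `r0 ≤ r ≤ R`. By `block_le`, `VR N T ≤ S0 + C N ∑ JJ r N T + ∑ ER r N H T`, `S0 = ∑_{p ≤ Y r0} NN T p (N/p)^2`.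
Markov for `∑ ER` at `N/2^(R+1)`: `≤ (R+1) 2 (N/H)(1 + log N) 2^(R+1)/N ≤ (R+1) 2^(2R+4)/H ≤ 2^(-A R - 1)` (`1 + log N ≤ 2^(R+1)`).
Markov for `S0` at `N/2^(R+1)` with `av_small`: `≤ 2^(R+1) e^18 2^(12(R+1)) exp (- log N/log (Y r0))`, and
`log N / log (Y r0) ≥ 2^(R - r0) = 2^(log2 R + c) ≥ 2^(c-1) R`.
-/

set_option autoImplicit false

namespace Pool.Agent.Helper96.AF

open Finset Pool.Agent.Helper5.RM

private lemma cube_le_two_pow : ∀ R : ℕ, 10 ≤ R → R ^ 3 ≤ 2 ^ R := by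
  intro R hR
  induction R, hR using Nat.le_induction with
  | base => norm_num
  | succ n hn ih =>
    rw [pow_succ 2 n]
    nlinarith [Nat.mul_le_mul hn (Nat.mul_le_mul hn hn), Nat.mul_le_mul hn (Nat.mul_self_le_mul_self hn),
      mul_le_mul hn (le_refl (n * n)) (Nat.zero_le _) (Nat.zero_le _), Nat.mul_le_mul hn (le_refl n)]

/-- the sum over all primes is at most the small primes and the blocks -/
private lemma VR_split (r0 R N : ℕ) (hN : N < Y (R + 1)) (h0 : r0 ≤ R) (T : Finset ℕ) :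
    VR N T ≤ ∑ p ∈ PP (Y r0), NN T p (N / p) ^ 2 +
      ∑ r ∈ Finset.Icc r0 R, ∑ p ∈ (BL r).filter (· ≤ N), NN T p (N / p) ^ 2 := by
  have hsub : PP N ⊆ PP (Y r0) ∪ (Finset.Icc r0 R).biUnion (fun r => (BL r).filter (· ≤ N)) := by
    intro p hp
    rw [mem_PP] at hp
    rw [Finset.mem_union]
    by_cases h : p ≤ Y r0
    · exact Or.inl (mem_PP.2 ⟨hp.1, h⟩)
    · right
      rw [not_le] at h
      have hex : ∃ r, p ≤ Y (r + 1) ∧ r0 ≤ r := ⟨R, (hp.2.trans hN.le), h0⟩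
      classical
      obtain ⟨h1, h2⟩ := Nat.find_spec hex
      set r := Nat.find hex with hr
      rw [Finset.mem_biUnion]
      refine ⟨r, Finset.mem_Icc.2 ⟨h2, Nat.find_min' hex ⟨hp.2.trans hN.le, h0⟩⟩, ?_⟩
      rw [Finset.mem_filter, mem_BL]
      refine ⟨⟨hp.1, ?_, h1⟩, hp.2⟩
      rcases Nat.eq_or_lt_of_le h2 with h3 | h3
      · rw [← h3]; exact h
      · by_contra h4
        rw [not_lt] at h4
        have h5 : r - 1 + 1 = r := by omega
        have := Nat.find_min hex (m := r - 1) (by omega)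
        exact this ⟨by rw [h5]; exact h4, by omega⟩
  unfold VR
  refine (Finset.sum_le_sum_of_subset_of_nonneg hsub fun p _ _ => sq_nonneg _).trans ?_
  have h1 := Finset.sum_union_inter (s₁ := PP (Y r0)) (s₂ := (Finset.Icc r0 R).biUnion (fun r => (BL r).filter (· ≤ N)))
    (f := fun p => NN T p (N / p) ^ 2)
  have h2 : 0 ≤ ∑ p ∈ PP (Y r0) ∩ (Finset.Icc r0 R).biUnion (fun r => (BL r).filter (· ≤ N)), NN T p (N / p) ^ 2 :=
    Finset.sum_nonneg fun p _ => sq_nonneg _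
  have h3 : ∑ p ∈ (Finset.Icc r0 R).biUnion (fun r => (BL r).filter (· ≤ N)), NN T p (N / p) ^ 2 ≤
      ∑ r ∈ Finset.Icc r0 R, ∑ p ∈ (BL r).filter (· ≤ N), NN T p (N / p) ^ 2 := by
    rw [Finset.sum_biUnion]
    intro r _ s _ hrs
    rw [Function.onFun, Finset.disjoint_left]
    intro p hp hp'
    rw [Finset.mem_filter, mem_BL] at hp hp'
    rcases Nat.lt_or_gt_of_ne hrs with h | h
    · have := Y_mono (show r + 1 ≤ s from h)
      omega
    · have := Y_mono (show s + 1 ≤ r from h)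
      omega
  linarith

private lemma log_le (R N : ℕ) (hR : 1 ≤ R) (hN0 : 1 ≤ N) (hN : N < Y (R + 1)) :
    1 + Real.log N ≤ 2 ^ (R + 1) := by
  have h0 : (0 : ℝ) < N := by exact_mod_cast hN0
  have h1 : Real.log N ≤ Real.log (Y (R + 1)) := Real.log_le_log h0 (by exact_mod_cast hN.le)
  rw [log_Y] at h1
  have h2 := Real.log_two_lt_d9
  have h3 : (4 : ℝ) ≤ 2 ^ (R + 1) := by
    calc (4 : ℝ) = 2 ^ 2 := by norm_num
      _ ≤ 2 ^ (R + 1) := pow_le_pow_right₀ (by norm_num) (by omega)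
  nlinarith

theorem VR_bound : ∀ A : ℕ, ∃ (c R1 : ℕ) (C : ℝ), 0 < C ∧ ∀ R N : ℕ, R1 ≤ R → Y R ≤ N → N < Y (R + 1) →
    pr (PP N) (fun T => C * N * (∑ r ∈ Finset.Icc (R - (Nat.log 2 R + c)) R, JJ r N T) + N / 2 ^ R < VR N T) ≤
      1 / 2 ^ (A * R) := by
  intro A
  obtain ⟨C, hC, hblock⟩ := block_le
  obtain ⟨c, hc⟩ : ∃ c, c = A + 46 := ⟨_, rfl⟩
  refine ⟨c, max 10 (4 * (A + 6) * 2 ^ c), C, hC, ?_⟩
  intro R N hR1 hN1 hN2
  have hR10 : 10 ≤ R := (le_max_left _ _).trans hR1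
  have hRK : 4 * (A + 6) * 2 ^ c ≤ R := (le_max_right _ _).trans hR1
  have hN0 : 1 ≤ N := (Y_pos R).trans_le hN1
  have hNpos : (0 : ℝ) < N := by exact_mod_cast hN0
  obtain ⟨m, hm⟩ : ∃ m, m = Nat.log 2 R + c := ⟨_, rfl⟩
  rw [← hm]
  -- sizes
  have hL1 : 2 ^ Nat.log 2 R ≤ R := Nat.pow_log_le_self 2 (by omega)
  have hL2 : R < 2 ^ (Nat.log 2 R + 1) := Nat.lt_pow_succ_log_self (by norm_num) R
  have hm1 : 2 ^ m ≤ R * 2 ^ c := by
    rw [hm, pow_add]; exact Nat.mul_le_mul_right _ hL1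
  have hbig : 2 ^ m * (4 * (A + 6) * R) ≤ 2 ^ R := by
    calc 2 ^ m * (4 * (A + 6) * R) ≤ (R * 2 ^ c) * (4 * (A + 6) * R) := Nat.mul_le_mul_right _ hm1
      _ = (4 * (A + 6) * 2 ^ c) * (R * R) := by ring
      _ ≤ R * (R * R) := Nat.mul_le_mul_right _ hRK
      _ = R ^ 3 := by ring
      _ ≤ 2 ^ R := cube_le_two_pow R hR10
  have hmR : m < R := by
    have h1 : 2 ^ m < 2 ^ R := by
      refine lt_of_lt_of_le ?_ hbig
      have h3 : 4 * 6 * 10 ≤ 4 * (A + 6) * R :=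
        Nat.mul_le_mul (Nat.mul_le_mul_left 4 (Nat.le_add_left 6 A)) hR10
      exact lt_mul_of_one_lt_right (by positivity) (by omega)
    exact (Nat.pow_lt_pow_iff_right (by norm_num)).1 h1
  obtain ⟨r0, hr0⟩ : ∃ r0, r0 = R - m := ⟨_, rfl⟩
  rw [← hr0]
  have hr0m : r0 + m = R := by omega
  have hr0R : r0 ≤ R := by omega
  have h2r0 : 4 * (A + 6) * R ≤ 2 ^ r0 := by
    have h1 : 2 ^ m * (4 * (A + 6) * R) ≤ 2 ^ m * 2 ^ r0 := by
      rw [← pow_add, add_comm m r0, hr0m]; exact hbig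
    exact Nat.le_of_mul_le_mul_left h1 (by positivity)
  obtain ⟨H, hH⟩ : ∃ H, H = 2 ^ ((A + 6) * R) := ⟨_, rfl⟩
  have hH1 : 2 ≤ H := by
    rw [hH]
    calc 2 = 2 ^ 1 := by norm_num
      _ ≤ 2 ^ ((A + 6) * R) := Nat.pow_le_pow_right (by norm_num) (by nlinarith)
  have hHY : ∀ r, r0 ≤ r → H ^ 4 ≤ Y r := by
    intro r hr
    refine le_trans ?_ (Y_mono hr)
    rw [hH, ← pow_mul]
    unfold Y
    refine Nat.pow_le_pow_right (by norm_num) ?_
    calc (A + 6) * R * 4 = 4 * (A + 6) * R := by ring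
      _ ≤ 2 ^ r0 := h2r0
  have hlogN := log_le R N (by omega) hN0 hN2
  have hlogN0 : 0 ≤ Real.log N := Real.log_nonneg (by exact_mod_cast hN0)
  -- the decomposition
  have hdec : ∀ T ⊆ PP N, C * N * (∑ r ∈ Finset.Icc r0 R, JJ r N T) + N / 2 ^ R < VR N T →
      ((N : ℝ) / 2 ^ (R + 1) ≤ ∑ p ∈ PP (Y r0), NN T p (N / p) ^ 2) ∨
      ((N : ℝ) / 2 ^ (R + 1) ≤ ∑ r ∈ Finset.Icc r0 R, ER r N H T) := by
    intro T _ hT
    by_contra hcon
    rw [not_or, not_le, not_le] at hcon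
    have h1 := VR_split r0 R N hN2 hr0R T
    have h2 : ∑ r ∈ Finset.Icc r0 R, ∑ p ∈ (BL r).filter (· ≤ N), NN T p (N / p) ^ 2 ≤
        ∑ r ∈ Finset.Icc r0 R, (C * N * JJ r N T + ER r N H T) := by
      refine Finset.sum_le_sum fun r hr => ?_
      exact hblock r N H T hH1 (hHY r (Finset.mem_Icc.1 hr).1)
    rw [Finset.sum_add_distrib, ← Finset.mul_sum] at h2
    have h3 : (N : ℝ) / 2 ^ R = N / 2 ^ (R + 1) + N / 2 ^ (R + 1) := by
      rw [pow_succ]; field_simp; norm_num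
    linarith [hcon.1, hcon.2]
  refine (pr_le_add hdec).trans ?_
  -- first Markov
  have hM1 : pr (PP N) (fun T => (N : ℝ) / 2 ^ (R + 1) ≤ ∑ p ∈ PP (Y r0), NN T p (N / p) ^ 2) ≤
      1 / 2 ^ (A * R + 1) := by
    have hr01 : 1 ≤ r0 := by omega
    have hy3 : 3 ≤ Y r0 := by
      refine le_trans ?_ (Y_mono hr01)
      unfold Y; norm_num
    have hav := av_small (Y r0) N hy3 ((Y_mono hr0R).trans hN1)
    refine (markov (fun T _ => Finset.sum_nonneg fun p _ => sq_nonneg _) (by positivity) hav).trans ?_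
    have hratio : (2 : ℝ) ^ (c - 1) * R ≤ Real.log N / Real.log (Y r0) := by
      have h1 : Real.log (Y R) ≤ Real.log N :=
        Real.log_le_log (by exact_mod_cast Y_pos R) (by exact_mod_cast hN1)
      rw [log_Y] at h1
      rw [log_Y]
      have hl2 : 0 < Real.log 2 := Real.log_pos (by norm_num)
      rw [le_div_iff₀ (by positivity)]
      refine le_trans ?_ h1
      have h2 : (2 : ℝ) ^ (c - 1) * R ≤ 2 ^ m := by
        have h3 : 2 ^ (c - 1) * R ≤ 2 ^ m := by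
          calc 2 ^ (c - 1) * R ≤ 2 ^ (c - 1) * 2 ^ (Nat.log 2 R + 1) := Nat.mul_le_mul_left _ hL2.le
            _ = 2 ^ m := by rw [← pow_add]; congr 1; omega
        exact_mod_cast h3
      calc (2 : ℝ) ^ (c - 1) * R * (2 ^ r0 * Real.log 2) = ((2 : ℝ) ^ (c - 1) * R) * 2 ^ r0 * Real.log 2 := by ring
        _ ≤ (2 ^ m * 2 ^ r0) * Real.log 2 := by gcongr
        _ = 2 ^ R * Real.log 2 := by rw [← pow_add, add_comm m r0, hr0m]
    have hAc : ((A : ℝ) + 45) ≤ 2 ^ (c - 1) := by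
      have h1 : c - 1 < 2 ^ (c - 1) := Nat.lt_two_pow_self
      have h2 : A + 45 ≤ 2 ^ (c - 1) := by omega
      exact_mod_cast h2
    have hRr : (10 : ℝ) ≤ R := by exact_mod_cast hR10
    have hexp : Real.exp (-(Real.log N / Real.log (Y r0))) ≤ Real.exp (-((A + 45) * R)) := by
      refine Real.exp_le_exp.2 (neg_le_neg (le_trans ?_ hratio))
      exact mul_le_mul_of_nonneg_right hAc (by positivity)
    have he2 : (2 : ℝ) ≤ Real.exp 1 := by
      have := Real.add_one_le_exp (1 : ℝ); linarith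
    have hp : ∀ k : ℕ, (2 : ℝ) ^ k ≤ Real.exp k := by
      intro k
      calc (2 : ℝ) ^ k ≤ Real.exp 1 ^ k := pow_le_pow_left₀ (by norm_num) he2 k
        _ = Real.exp k := by rw [← Real.exp_nat_mul, mul_one]
    calc Real.exp 18 * N * (1 + Real.log N) ^ 12 * Real.exp (-(Real.log N / Real.log (Y r0))) / (N / 2 ^ (R + 1))
        = Real.exp 18 * (1 + Real.log N) ^ 12 * 2 ^ (R + 1) * Real.exp (-(Real.log N / Real.log (Y r0))) := by
          field_simp
      _ ≤ Real.exp 18 * (2 ^ (R + 1)) ^ 12 * 2 ^ (R + 1) * Real.exp (-((A + 45) * R)) := by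
          gcongr
      _ = Real.exp 18 * 2 ^ (13 * (R + 1)) * Real.exp (-((A + 45) * R)) := by
          rw [show 13 * (R + 1) = (R + 1) * 12 + (R + 1) by ring, pow_add _ ((R + 1) * 12), pow_mul]
          ring
      _ ≤ Real.exp 18 * Real.exp ((13 * (R + 1) : ℕ) : ℝ) * Real.exp (-((A + 45) * R)) := by
          gcongr
          exact hp _
      _ = Real.exp (18 + ((13 * (R + 1) : ℕ) : ℝ) + -((A + 45) * R)) := by
          rw [Real.exp_add, Real.exp_add]
      _ ≤ Real.exp (-((A * R + 1 : ℕ) : ℝ)) := by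
          refine Real.exp_le_exp.2 ?_
          push_cast
          nlinarith
      _ ≤ 1 / 2 ^ (A * R + 1) := by
          rw [Real.exp_neg, one_div]
          exact inv_anti₀ (by positivity) (hp _)
  -- second Markov
  have hM2 : pr (PP N) (fun T => (N : ℝ) / 2 ^ (R + 1) ≤ ∑ r ∈ Finset.Icc r0 R, ER r N H T) ≤
      1 / 2 ^ (A * R + 1) := by
    have hav : av (PP N) (fun T => ∑ r ∈ Finset.Icc r0 R, ER r N H T) ≤
        (R + 1) * (2 * (N / H) * (1 + Real.log N)) := by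
      rw [av_sum]
      refine (Finset.sum_le_card_nsmul _ _ (2 * (N / H) * (1 + Real.log N)) fun r _ =>
        av_ER r N H hN0 (by omega)).trans ?_
      rw [nsmul_eq_mul, Nat.card_Icc]
      have h1 : ((R + 1 - r0 : ℕ) : ℝ) ≤ R + 1 := by
        have : R + 1 - r0 ≤ R + 1 := Nat.sub_le _ _
        exact_mod_cast this
      exact mul_le_mul_of_nonneg_right h1 (by positivity)
    refine (markov (fun T _ => Finset.sum_nonneg fun r _ => ?_) (by positivity) hav).trans ?_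
    · unfold ER
      exact Finset.sum_nonneg fun p _ => mul_nonneg (by positivity) (Finset.sum_nonneg fun m _ => sq_nonneg _)
    have hR2 : ((R : ℝ) + 1) ≤ 2 ^ R := by
      have h1 : R < 2 ^ R := Nat.lt_two_pow_self
      exact_mod_cast h1
    have hHr : (H : ℝ) = 2 ^ ((A + 6) * R) := by rw [hH]; push_cast; rfl
    calc (R + 1) * (2 * ((N : ℝ) / H) * (1 + Real.log N)) / (N / 2 ^ (R + 1))
        = (R + 1) * 2 * (1 + Real.log N) * 2 ^ (R + 1) / H := by
          have : (0 : ℝ) < H := by rw [hHr]; positivity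
          field_simp
      _ ≤ 2 ^ R * 2 * 2 ^ (R + 1) * 2 ^ (R + 1) / H := by gcongr
      _ = 2 ^ (3 * R + 3) / 2 ^ ((A + 6) * R) := by
          rw [hHr, show 3 * R + 3 = R + 1 + (R + 1) + (R + 1) by ring, pow_add, pow_add, pow_add 2 R 1]
          ring
      _ ≤ 1 / 2 ^ (A * R + 1) := by
          rw [div_le_div_iff₀ (by positivity) (by positivity), one_mul, ← pow_add]
          refine pow_le_pow_right₀ (by norm_num) ?_
          nlinarith
  calc _ ≤ (1 : ℝ) / 2 ^ (A * R + 1) + 1 / 2 ^ (A * R + 1) := add_le_add hM1 hM2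
    _ = 1 / 2 ^ (A * R) := by rw [pow_succ]; field_simp; norm_num

end Pool.Agent.Helper96.AF
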