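import Pool.Agent.Helper96.AF.Bas

/-!
# Project AF (MP_a499ba_nt), block D1

Decompositions. PROOF of `NN_step`: an `n ∈ SM (y+1) z` (`y` prime) with `rf T n ≠ 0` is squarefree; either `y ∤ n` (then `n ∈ SM y z`) or `n = y m` with
`m ∈ SM y (z/y)`, `y ∤ m`, `rf T n = sg T y * rf T m`. `NN_step'`: if `y` is not prime then `SM (y+1) z = SM y z`.
PROOF of `NN_dec`: every squarefree `n` is `b m` in a unique way, the primes of `b` being `> Y r` and those of `m` being `≤ Y r`;
`rf T (b m) = rf T b * rf T m` (`rf_mul`). (Alternative: induction on `y` with `NN_step`.)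
-/

set_option autoImplicit false

namespace Pool.Agent.Helper96.AF

open Finset Pool.Agent.Helper5.RM

theorem NN_step (T : Finset ℕ) (y z : ℕ) (hy : y.Prime) : NN T (y + 1) z = NN T y z + sg T y * NN T y (z / y) := by
  have hsgy : rf T y = sg T y := by
    rw [rf_sqf hy.prime.squarefree, Nat.Prime.primeFactors hy]
    unfold wal
    rw [Finset.prod_singleton]
  have h1 : NN T (y + 1) z = ∑ n ∈ (SM (y + 1) z).filter (fun n => y ∣ n), rf T n +
      ∑ n ∈ (SM (y + 1) z).filter (fun n => ¬ y ∣ n), rf T n := by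
    unfold NN
    rw [Finset.sum_filter_add_sum_filter_not]
  have h2 : (SM (y + 1) z).filter (fun n => ¬ y ∣ n) = SM y z := by
    ext n
    rw [Finset.mem_filter, mem_SM, mem_SM]
    constructor
    · rintro ⟨⟨h3, h4⟩, h5⟩
      refine ⟨h3, fun p hp => ?_⟩
      have h6 := h4 p hp
      have h7 : p ≠ y := by
        rintro rfl
        exact h5 (Nat.dvd_of_mem_primeFactors hp)
      omega
    · rintro ⟨h3, h4⟩
      refine ⟨⟨h3, fun p hp => ?_⟩, fun h5 => ?_⟩
      · have := h4 p hp
        omega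
      · have h6 : y ∈ n.primeFactors := by
          rw [Nat.mem_primeFactors]
          exact ⟨hy, h5, by omega⟩
        exact lt_irrefl _ (h4 y h6)
  have h3 : ∑ m ∈ SM y (z / y), rf T (y * m) = ∑ n ∈ (SM (y + 1) z).filter (fun n => y ∣ n), rf T n := by
    refine Finset.sum_of_injOn (fun m => y * m) ?_ ?_ ?_ ?_
    · intro a _ b _ hab
      exact Nat.eq_of_mul_eq_mul_left hy.pos hab
    · intro m hm
      rw [Finset.mem_coe, mem_SM] at hm
      obtain ⟨⟨h4, h5⟩, h6⟩ := hm
      simp only [Finset.coe_filter, Set.mem_ofPred_eq, mem_SM]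
      refine ⟨⟨⟨Nat.mul_pos hy.pos h4, ?_⟩, fun p hp => ?_⟩, Dvd.intro _ rfl⟩
      · rw [Nat.le_div_iff_mul_le hy.pos] at h5
        rwa [mul_comm]
      · rw [Nat.primeFactors_mul hy.pos.ne' (by omega), Finset.mem_union] at hp
        rcases hp with hp | hp
        · rw [Nat.Prime.primeFactors hy, Finset.mem_singleton] at hp
          omega
        · have := h6 p hp
          omega
    · intro n hn hn'
      rw [Finset.mem_filter, mem_SM] at hn
      obtain ⟨⟨⟨h4, h5⟩, h6⟩, m, rfl⟩ := hn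
      apply rf_not
      intro hsq
      apply hn'
      have hym : ¬ y ∣ m := by
        intro h7
        have h8 : y * y ∣ y * m := Nat.mul_dvd_mul_left y h7
        have := hsq y h8
        exact hy.one_lt.ne' (Nat.isUnit_iff.1 this)
      have hm0 : m ≠ 0 := by
        rintro rfl
        simp at h4
      refine ⟨m, ?_, rfl⟩
      rw [Finset.mem_coe, mem_SM]
      refine ⟨⟨Nat.pos_of_ne_zero hm0, ?_⟩, fun p hp => ?_⟩
      · rw [Nat.le_div_iff_mul_le hy.pos]
        rwa [mul_comm]
      · have h9 : p ∈ (y * m).primeFactors := by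
          rw [Nat.primeFactors_mul hy.pos.ne' hm0, Finset.mem_union]
          exact Or.inr hp
        have h10 := h6 p h9
        have h11 : p ≠ y := by
          rintro rfl
          exact hym (Nat.dvd_of_mem_primeFactors hp)
        omega
    · intro m _
      rfl
  have h4 : ∀ m ∈ SM y (z / y), rf T (y * m) = sg T y * rf T m := by
    intro m hm
    rw [mem_SM] at hm
    have hcop : Nat.Coprime y m := by
      rw [Nat.Prime.coprime_iff_not_dvd hy]
      intro h5
      have h6 : y ∈ m.primeFactors := by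
        rw [Nat.mem_primeFactors]
        exact ⟨hy, h5, by omega⟩
      exact lt_irrefl _ (hm.2 y h6)
    rw [rf_mul hcop, hsgy]
  rw [h1, h2, ← h3, Finset.sum_congr rfl h4, ← Finset.mul_sum, add_comm]
  rfl

theorem NN_step' (T : Finset ℕ) (y z : ℕ) (hy : ¬ y.Prime) : NN T (y + 1) z = NN T y z := by
  have h : SM (y + 1) z = SM y z := by
    ext n
    rw [mem_SM, mem_SM]
    refine and_congr_right fun _ => ?_
    constructor
    · intro h p hp
      have h1 := h p hp
      have h2 : p ≠ y := by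
        rintro rfl
        exact hy (Nat.prime_of_mem_primeFactors hp)
      omega
    · intro h p hp
      have := h p hp
      omega
  unfold NN
  rw [h]

/-- the integers `1 ≤ b ≤ n` with all prime factors in `(Y r, y)` -/
noncomputable def SB (r y n : ℕ) : Finset ℕ := (Finset.Icc 1 n).filter (fun b => ∀ p ∈ b.primeFactors, Y r < p ∧ p < y)

lemma cop_of_sep {r b m : ℕ} (hb : ∀ p ∈ b.primeFactors, Y r < p) (hm : ∀ p ∈ m.primeFactors, p < Y r + 1)
    (hb0 : b ≠ 0) (hm0 : m ≠ 0) : Nat.Coprime b m := by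
  rw [Nat.coprime_iff_gcd_eq_one] 
  by_contra h
  obtain ⟨p, hp, hpd⟩ := Nat.exists_prime_and_dvd h
  have h1 : p ∈ b.primeFactors := Nat.mem_primeFactors.2 ⟨hp, hpd.trans (Nat.gcd_dvd_left b m), hb0⟩
  have h2 : p ∈ m.primeFactors := Nat.mem_primeFactors.2 ⟨hp, hpd.trans (Nat.gcd_dvd_right b m), hm0⟩
  have := hb p h1
  have := hm p h2
  omega

theorem NN_dec (r y n : ℕ) (T : Finset ℕ) (hy : Y r < y) :
    NN T y n = ∑ b ∈ (SB r y n).filter Squarefree, rf T b * NN T (Y r + 1) (n / b) := by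
  have hmb : ∀ b, b ∈ (SB r y n).filter Squarefree ↔
      ((1 ≤ b ∧ b ≤ n) ∧ ∀ p ∈ b.primeFactors, Y r < p ∧ p < y) ∧ Squarefree b := by
    intro b
    unfold SB
    rw [Finset.mem_filter, Finset.mem_filter, Finset.mem_Icc]
  have h1 : ∑ b ∈ (SB r y n).filter Squarefree, rf T b * NN T (Y r + 1) (n / b) =
      ∑ q ∈ ((SB r y n).filter Squarefree).sigma (fun b => SM (Y r + 1) (n / b)), rf T q.1 * rf T q.2 := by
    rw [Finset.sum_sigma]
    refine Finset.sum_congr rfl fun b _ => ?_
    unfold NN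
    rw [Finset.mul_sum]
  rw [h1]
  unfold NN
  symm
  refine Finset.sum_of_injOn (fun q : (Σ _ : ℕ, ℕ) => q.1 * q.2) ?_ ?_ ?_ ?_
  · rintro ⟨b, m⟩ hq ⟨b', m'⟩ hq' he
    rw [Finset.mem_coe, Finset.mem_sigma, hmb, mem_SM] at hq hq'
    simp only at he hq hq'
    obtain ⟨⟨⟨hb1, hb2⟩, -⟩, hm1, hm2⟩ := hq
    obtain ⟨⟨⟨hb1', hb2'⟩, -⟩, hm1', hm2'⟩ := hq'
    have hc1 : Nat.Coprime b m' := cop_of_sep (r := r) (fun p hp => (hb2 p hp).1) hm2' (by omega) (by omega)
    have hc2 : Nat.Coprime b' m := cop_of_sep (r := r) (fun p hp => (hb2' p hp).1) hm2 (by omega) (by omega)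
    have hd1 : b ∣ b' := hc1.dvd_of_dvd_mul_right (he ▸ Dvd.intro _ rfl)
    have hd2 : b' ∣ b := hc2.dvd_of_dvd_mul_right (he ▸ Dvd.intro _ rfl)
    have hbb : b = b' := Nat.dvd_antisymm hd1 hd2
    subst hbb
    have hmm : m = m' := Nat.eq_of_mul_eq_mul_left (by omega) he
    rw [hmm]
  · rintro ⟨b, m⟩ hq
    rw [Finset.mem_coe, Finset.mem_sigma, hmb, mem_SM] at hq
    simp only at hq
    obtain ⟨⟨⟨hb1, hb2⟩, -⟩, hm1, hm2⟩ := hq
    rw [Finset.mem_coe, mem_SM]
    refine ⟨⟨?_, ?_⟩, fun p hp => ?_⟩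
    · show 0 < b * m
      exact Nat.mul_pos (by omega) (by omega)
    · have := hm1.2
      rw [Nat.le_div_iff_mul_le (by omega)] at this
      show b * m ≤ n
      rwa [mul_comm]
    · change p ∈ (b * m).primeFactors at hp
      have hb0 : b ≠ 0 := by omega
      have hm0 : m ≠ 0 := by omega
      rw [Nat.primeFactors_mul hb0 hm0, Finset.mem_union] at hp
      rcases hp with hp | hp
      · exact (hb2 p hp).2
      · have := hm2 p hp
        omega
  · intro k hk hk'
    rw [mem_SM] at hk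
    apply rf_not
    intro hsq
    apply hk'
    obtain ⟨⟨hk1, hk2⟩, hk3⟩ := hk
    set s := k.primeFactors.filter (fun p => Y r < p) with hs
    set s' := k.primeFactors.filter (fun p => ¬ Y r < p) with hs'
    have hprod : (∏ p ∈ s, p) * (∏ p ∈ s', p) = k := by
      rw [hs, hs', Finset.prod_filter_mul_prod_filter_not]
      exact Nat.prod_primeFactors_of_squarefree hsq
    have hps : (∏ p ∈ s, p).primeFactors = s :=
      Nat.primeFactors_prod fun p hp => Nat.prime_of_mem_primeFactors (Finset.mem_filter.1 hp).1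
    have hps' : (∏ p ∈ s', p).primeFactors = s' :=
      Nat.primeFactors_prod fun p hp => Nat.prime_of_mem_primeFactors (Finset.mem_filter.1 hp).1
    have hb0 : 0 < ∏ p ∈ s, p := by
      rcases Nat.eq_zero_or_pos (∏ p ∈ s, p) with h | h
      · rw [h] at hprod
        omega
      · exact h
    have hm0 : 0 < ∏ p ∈ s', p := by
      rcases Nat.eq_zero_or_pos (∏ p ∈ s', p) with h | h
      · rw [h] at hprod
        omega
      · exact h
    refine ⟨⟨∏ p ∈ s, p, ∏ p ∈ s', p⟩, ?_, hprod⟩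
    rw [Finset.mem_coe, Finset.mem_sigma, hmb, mem_SM]
    simp only
    rw [hps, hps']
    refine ⟨⟨⟨⟨hb0, ?_⟩, fun p hp => ?_⟩, ?_⟩, ⟨hm0, ?_⟩, fun p hp => ?_⟩
    · exact (Nat.le_of_dvd (by omega) (Dvd.intro _ hprod)).trans hk2
    · rw [hs, Finset.mem_filter] at hp
      exact ⟨hp.2, hk3 p hp.1⟩
    · exact hsq.squarefree_of_dvd (Dvd.intro _ hprod)
    · rw [Nat.le_div_iff_mul_le hb0, mul_comm, hprod]
      exact hk2
    · rw [hs', Finset.mem_filter] at hp
      omega
  · rintro ⟨b, m⟩ hq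
    rw [Finset.mem_sigma, hmb, mem_SM] at hq
    simp only at hq
    obtain ⟨⟨⟨hb1, hb2⟩, -⟩, hm1, hm2⟩ := hq
    have hc1 : Nat.Coprime b m := cop_of_sep (r := r) (fun p hp => (hb2 p hp).1) hm2 (by omega) (by omega)
    exact (rf_mul hc1).symm

end Pool.Agent.Helper96.AF
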