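import Pool.Agent.Helper96.AF.Bas

/-!
# Project AF (MP_a499ba_nt), block D2

Doob's `L^2` inequality. PROOF (no stopping times): `m_y T := sup_{y0 ≤ y' ≤ y} X y' T`, `U_y := av S (2 m_y^2 - 4 m_y X_y)`. `U_{y0} ≤ 0`. `U_{y+1} ≤ U_y`: with
`m' = max m x'`: `2 m'^2 - 4 m' x' ≤ 2 m^2 - 4 m x'` (equality if `x' ≤ m`, else `2 (m - x')^2 ≥ 0`), and `av S (m_y (X_{y+1} - X_y)) ≥ 0`
since `m_y`, `X_y` do not depend on whether `y ∈ T` (`av_insert` with `S = insert y (S.erase y)` if `y ∈ S`) and by the submartingale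
property (pass from `T ⊆ S.erase y` to `T.filter (· < y)` by `hpred`). Finally `m^2 - 4 x^2 ≤ 2 m^2 - 4 m x` because `(m - 2x)^2 ≥ 0`.
-/

set_option autoImplicit false

namespace Pool.Agent.Helper96.AF

open Finset Pool.Agent.Helper5.RM

/-- the running maximum -/
private noncomputable def rmax (X : ℕ → Finset ℕ → ℝ) (y0 : ℕ) : ℕ → Finset ℕ → ℝ
  | 0, T => X y0 T
  | i + 1, T => max (rmax X y0 i T) (X (y0 + i + 1) T)

private lemma rmax_nonneg {X : ℕ → Finset ℕ → ℝ} (hX0 : ∀ y T, 0 ≤ X y T) (y0 i : ℕ) (T : Finset ℕ) :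
    0 ≤ rmax X y0 i T := by
  cases i with
  | zero => exact hX0 _ _
  | succ i => exact le_max_of_le_right (hX0 _ _)

private lemma le_rmax (X : ℕ → Finset ℕ → ℝ) (y0 : ℕ) (T : Finset ℕ) (d : ℕ) :
    ∀ i, i ≤ d → X (y0 + i) T ≤ rmax X y0 d T := by
  induction d with
  | zero =>
    intro i hi
    obtain rfl : i = 0 := by omega
    exact le_refl _
  | succ d ih =>
    intro i hi
    rcases Nat.lt_or_ge i (d + 1) with h | h
    · exact (ih i (by omega)).trans (le_max_left _ _)
    · obtain rfl : i = d + 1 := by omega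
      exact le_max_right _ _

/-- `X y` only depends on the part of `T` below `y` -/
private lemma X_congr {X : ℕ → Finset ℕ → ℝ} (hpred : ∀ y T, X y T = X y (T.filter (· < y))) {y : ℕ}
    {T T' : Finset ℕ} (h : ∀ p, p < y → (p ∈ T ↔ p ∈ T')) : X y T = X y T' := by
  rw [hpred y T, hpred y T']
  congr 1
  ext p
  simp only [Finset.mem_filter]
  constructor
  · rintro ⟨h1, h2⟩; exact ⟨(h p h2).1 h1, h2⟩
  · rintro ⟨h1, h2⟩; exact ⟨(h p h2).2 h1, h2⟩

private lemma rmax_congr {X : ℕ → Finset ℕ → ℝ} (hpred : ∀ y T, X y T = X y (T.filter (· < y))) (y0 : ℕ)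
    {T T' : Finset ℕ} (i : ℕ) : (∀ p, p < y0 + i → (p ∈ T ↔ p ∈ T')) → rmax X y0 i T = rmax X y0 i T' := by
  induction i with
  | zero => intro h; exact X_congr hpred h
  | succ i ih =>
    intro h
    simp only [rmax]
    rw [ih (fun p hp => h p (by omega)), X_congr hpred (y := y0 + i + 1) (fun p hp => h p (by omega))]

private lemma av_sub (S : Finset ℕ) (F G : Finset ℕ → ℝ) :
    av S (fun T => F T - G T) = av S F - av S G := by
  unfold av; rw [Finset.sum_sub_distrib]; ring

/-- one step of the submartingale against a predictable nonnegative weight -/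
private lemma step_nonneg {S : Finset ℕ} {X : ℕ → Finset ℕ → ℝ} {m : Finset ℕ → ℝ} {y : ℕ}
    (hm0 : ∀ T, 0 ≤ m T) (hm : ∀ T T' : Finset ℕ, (∀ p, p < y → (p ∈ T ↔ p ∈ T')) → m T = m T')
    (hpred : ∀ y T, X y T = X y (T.filter (· < y)))
    (hsub1 : y ∈ S → ∀ T ⊆ S.filter (· < y), X y T ≤ (X (y + 1) T + X (y + 1) (insert y T)) / 2)
    (hsub2 : y ∉ S → ∀ T ⊆ S, X y T ≤ X (y + 1) T) :
    0 ≤ av S (fun T => m T * (X (y + 1) T - X y T)) := by
  by_cases hy : y ∈ S
  · have hS : S = insert y (S.erase y) := (Finset.insert_erase hy).symm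
    rw [hS, av_insert (Finset.notMem_erase y S), ← av_add]
    apply div_nonneg _ (by norm_num)
    apply av_nonneg
    intro T hT
    have hyT : y ∉ T := fun h => Finset.notMem_erase y S (hT h)
    have hins : ∀ p, p < y → (p ∈ insert y T ↔ p ∈ T) := by
      intro p hp
      rw [Finset.mem_insert]
      constructor
      · rintro (h | h)
        · omega
        · exact h
      · exact Or.inr
    rw [hm (insert y T) T hins, X_congr hpred (y := y) hins]
    set T₀ := T.filter (· < y) with hT₀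
    have hT₀S : T₀ ⊆ S.filter (· < y) := by
      intro p hp
      rw [hT₀, Finset.mem_filter] at hp
      rw [Finset.mem_filter]
      exact ⟨Finset.mem_of_mem_erase (hT hp.1), hp.2⟩
    have h := hsub1 hy T₀ hT₀S
    have e1 : X y T₀ = X y T := (hpred y T).symm
    have e2 : X (y + 1) T₀ = X (y + 1) T := by
      apply X_congr hpred
      intro p hp
      rw [hT₀, Finset.mem_filter]
      constructor
      · exact fun h => h.1
      · intro h
        refine ⟨h, ?_⟩
        have : p ≠ y := fun he => hyT (he ▸ h)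
        omega
    have e3 : X (y + 1) (insert y T₀) = X (y + 1) (insert y T) := by
      apply X_congr hpred
      intro p hp
      rw [Finset.mem_insert, Finset.mem_insert, hT₀, Finset.mem_filter]
      constructor
      · rintro (h | h)
        · exact Or.inl h
        · exact Or.inr h.1
      · rintro (h | h)
        · exact Or.inl h
        · rcases Nat.lt_or_ge p y with h' | h'
          · exact Or.inr ⟨h, h'⟩
          · exact Or.inl (by omega)
    rw [e1, e2, e3] at h
    have h5 : m T * (X (y + 1) T - X y T) + m T * (X (y + 1) (insert y T) - X y T) =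
        m T * (2 * ((X (y + 1) T + X (y + 1) (insert y T)) / 2 - X y T)) := by ring
    rw [h5]
    exact mul_nonneg (hm0 T) (by linarith)
  · apply av_nonneg
    intro T hT
    exact mul_nonneg (hm0 T) (sub_nonneg.2 (hsub2 hy T hT))

theorem doob (S : Finset ℕ) (X : ℕ → Finset ℕ → ℝ) (y0 y1 : ℕ) (hy : y0 ≤ y1)
    (hX0 : ∀ y T, 0 ≤ X y T) (hpred : ∀ y T, X y T = X y (T.filter (· < y)))
    (hsub1 : ∀ y, y0 ≤ y → y < y1 → y ∈ S → ∀ T ⊆ S.filter (· < y), X y T ≤ (X (y + 1) T + X (y + 1) (insert y T)) / 2)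
    (hsub2 : ∀ y, y0 ≤ y → y < y1 → y ∉ S → ∀ T ⊆ S, X y T ≤ X (y + 1) T) :
    av S (fun T => ((Finset.Icc y0 y1).sup' (Finset.nonempty_Icc.2 hy) (fun y => X y T)) ^ 2) ≤
      4 * av S (fun T => X y1 T ^ 2) := by
  have hU : ∀ i, y0 + i ≤ y1 →
      av S (fun T => 2 * rmax X y0 i T ^ 2 - 4 * (rmax X y0 i T * X (y0 + i) T)) ≤ 0 := by
    intro i
    induction i with
    | zero =>
      intro _
      have h : av S (fun T => 2 * rmax X y0 0 T ^ 2 - 4 * (rmax X y0 0 T * X (y0 + 0) T)) ≤ av S (fun _ => 0) := by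
        apply av_mono
        intro T _
        simp only [rmax, add_zero]
        nlinarith [sq_nonneg (X y0 T)]
      rw [av_const] at h
      exact h
    | succ i ih =>
      intro hi
      have h1 := ih (by omega)
      have h2 : av S (fun T => 2 * rmax X y0 (i + 1) T ^ 2 - 4 * (rmax X y0 (i + 1) T * X (y0 + (i + 1)) T)) ≤
          av S (fun T => (2 * rmax X y0 i T ^ 2 - 4 * (rmax X y0 i T * X (y0 + i) T)) -
            4 * (rmax X y0 i T * (X (y0 + i + 1) T - X (y0 + i) T))) := by
        apply av_mono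
        intro T _
        have e : rmax X y0 (i + 1) T = max (rmax X y0 i T) (X (y0 + i + 1) T) := rfl
        rw [e, ← add_assoc]
        rcases le_total (X (y0 + i + 1) T) (rmax X y0 i T) with h | h
        · rw [max_eq_left h]
          exact le_of_eq (by ring)
        · rw [max_eq_right h]
          nlinarith [sq_nonneg (rmax X y0 i T - X (y0 + i + 1) T)]
      have h2' := h2.trans_eq (av_sub S (fun T => 2 * rmax X y0 i T ^ 2 - 4 * (rmax X y0 i T * X (y0 + i) T))
        (fun T => 4 * (rmax X y0 i T * (X (y0 + i + 1) T - X (y0 + i) T))))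
      rw [av_mul_left] at h2'
      have h3 := step_nonneg (S := S) (X := X) (m := rmax X y0 i) (y := y0 + i) (rmax_nonneg hX0 y0 i)
        (fun T T' h => rmax_congr hpred y0 i h) hpred (hsub1 (y0 + i) (by omega) (by omega))
        (hsub2 (y0 + i) (by omega) (by omega))
      linarith
  obtain ⟨d, rfl⟩ : ∃ d, y1 = y0 + d := ⟨y1 - y0, by omega⟩
  have h0 := hU d le_rfl
  have h1 : av S (fun T => ((Finset.Icc y0 (y0 + d)).sup' (Finset.nonempty_Icc.2 hy) (fun y => X y T)) ^ 2) ≤
      av S (fun T => (2 * rmax X y0 d T ^ 2 - 4 * (rmax X y0 d T * X (y0 + d) T)) + 4 * X (y0 + d) T ^ 2) := by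
    apply av_mono
    intro T _
    have h2 : (Finset.Icc y0 (y0 + d)).sup' (Finset.nonempty_Icc.2 hy) (fun y => X y T) ≤ rmax X y0 d T := by
      apply Finset.sup'_le
      intro y hy'
      rw [Finset.mem_Icc] at hy'
      have := le_rmax X y0 T d (y - y0) (by omega)
      rwa [show y0 + (y - y0) = y by omega] at this
    have h3 : 0 ≤ (Finset.Icc y0 (y0 + d)).sup' (Finset.nonempty_Icc.2 hy) (fun y => X y T) :=
      (hX0 y0 T).trans (Finset.le_sup' (fun y => X y T) (Finset.mem_Icc.2 ⟨le_rfl, hy⟩))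
    have h4 := pow_le_pow_left₀ h3 h2 2
    nlinarith [sq_nonneg (rmax X y0 d T - 2 * X (y0 + d) T)]
  rw [av_add, av_mul_left] at h1
  linarith

end Pool.Agent.Helper96.AF
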