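import Pool.Agent.Helper96.AF.D1
import Pool.Agent.Helper96.AF.D2

/-!
# Project AF (MP_a499ba_nt), block D3a

Doob for the partial sums. PROOF: `doob` with `S = BL r`, `X y T = |NN (T0 ∪ T) y n| ^ q`, `y0 = Y r + 1`, `y1 = Y (r+1) + 1` -- `hpred` fails as stated
for `T0 ∪ T`, therefore use `X y T := |NN (T0 ∪ T.filter (· < y)) y n| ^ q` (equal to the former by `NN_congr`). For `y ∈ BL r`, `T ⊆ (BL r).filter (· < y)`:
`NN (T0 ∪ T) (y+1) n = a + b`, `NN (T0 ∪ insert y T) (y+1) n = a - b` with `a = NN (T0 ∪ T) y n`, `b = NN (T0 ∪ T) y (n/y)`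
(`NN_step`, `y ∉ T0` as `T0 ⊆ PP (Y r)`), and `|a|^q ≤ (|a+b|^q + |a-b|^q)/2` (convexity, or `|a| ≤ (|a+b| + |a-b|)/2` and
`inner_le_nnorm_mul_nnorm`/`pow_arith_mean_le_arith_mean_pow`). For `y ∉ BL r` in the range `y` is not prime: `NN_step'`.
Finally `GG ^ q = (sup |NN|^q)^2`.
-/

set_option autoImplicit false

namespace Pool.Agent.Helper96.AF

open Finset Pool.Agent.Helper5.RM

private lemma abs_pow_le_mid (a b : ℝ) {q : ℕ} (hq : 1 ≤ q) : |a| ^ q ≤ (|a + b| ^ q + |a - b| ^ q) / 2 := by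
  have h1 : 2 * |a| ≤ |a + b| + |a - b| := by
    have h2 := abs_add_le (a + b) (a - b)
    have h3 : a + b + (a - b) = 2 * a := by ring
    rw [h3, abs_mul, abs_two] at h2
    exact h2
  have h4 : (2 * |a|) ^ q ≤ 2 ^ (q - 1) * (|a + b| ^ q + |a - b| ^ q) :=
    (pow_le_pow_left₀ (by positivity) h1 q).trans (add_pow_le (abs_nonneg _) (abs_nonneg _) q)
  have h5 : (2 : ℝ) ^ q = 2 ^ (q - 1) * 2 := by rw [← pow_succ]; congr 1; omega
  rw [mul_pow, h5, mul_assoc] at h4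
  have h6 := le_of_mul_le_mul_left h4 (by positivity)
  linarith

theorem av_GG_doob (q : ℕ) (hq : 1 ≤ q) (r n : ℕ) (T0 : Finset ℕ) (h0 : T0 ⊆ PP (Y r)) :
    av (BL r) (fun T => GG r (T0 ∪ T) n ^ q) ≤
      4 * av (BL r) (fun T => NN (T0 ∪ T) (Y (r + 1) + 1) n ^ (2 * q)) := by
  have hy : Y r + 1 ≤ Y (r + 1) + 1 := Nat.succ_le_succ (Y_mono (Nat.le_succ r))
  have hNf : ∀ (y z : ℕ) (T : Finset ℕ), NN (T0 ∪ T.filter (· < y)) y z = NN (T0 ∪ T) y z := by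
    intro y z T
    refine NN_congr fun p _ hp _ => ?_
    simp [hp]
  have hy0 : ∀ y, Y r + 1 ≤ y → y ∉ T0 := by
    intro y hy1 hy2
    have := (mem_PP.1 (h0 hy2)).2
    omega
  have hD := doob (BL r) (fun y T => |NN (T0 ∪ T.filter (· < y)) y n| ^ q) (Y r + 1) (Y (r + 1) + 1) hy
    (fun y T => by positivity)
    (fun y T => by
      show |NN (T0 ∪ T.filter (· < y)) y n| ^ q = |NN (T0 ∪ (T.filter (· < y)).filter (· < y)) y n| ^ q
      rw [hNf, hNf y n (T.filter (· < y)), hNf])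
    (fun y hy1 hy2 hyB T hT => by
      show |NN (T0 ∪ T.filter (· < y)) y n| ^ q ≤ (|NN (T0 ∪ T.filter (· < y + 1)) (y + 1) n| ^ q +
        |NN (T0 ∪ (insert y T).filter (· < y + 1)) (y + 1) n| ^ q) / 2
      rw [hNf, hNf, hNf, NN_step _ _ _ (mem_BL.1 hyB).1, NN_step _ _ _ (mem_BL.1 hyB).1]
      have hyT : y ∉ T0 ∪ T := by
        rw [Finset.mem_union, not_or]
        refine ⟨hy0 y hy1, fun h => ?_⟩
        have := (Finset.mem_filter.1 (hT h)).2
        omega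
      have hyT' : y ∈ T0 ∪ insert y T := Finset.mem_union_right _ (Finset.mem_insert_self y T)
      have hc : ∀ z, NN (T0 ∪ insert y T) y z = NN (T0 ∪ T) y z := by
        intro z
        refine NN_congr fun p _ hp _ => ?_
        rw [Finset.mem_union, Finset.mem_union, Finset.mem_insert]
        have : p ≠ y := hp.ne
        tauto
      rw [sg_not_mem hyT, sg_mem hyT', hc, hc, one_mul, neg_one_mul, ← sub_eq_add_neg]
      exact abs_pow_le_mid _ _ hq)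
    (fun y hy1 hy2 hyB T hT => by
      show |NN (T0 ∪ T.filter (· < y)) y n| ^ q ≤ |NN (T0 ∪ T.filter (· < y + 1)) (y + 1) n| ^ q
      have hyp : ¬ y.Prime := fun h => hyB (mem_BL.2 ⟨h, by omega, by omega⟩)
      rw [hNf, hNf, NN_step' _ _ _ hyp])
  refine le_trans (le_trans (av_mono fun T hT => ?_) hD) ?_
  · show GG r (T0 ∪ T) n ^ q ≤
      ((Finset.Icc (Y r + 1) (Y (r + 1) + 1)).sup' (Finset.nonempty_Icc.2 hy)
        (fun y => |NN (T0 ∪ T.filter (· < y)) y n| ^ q)) ^ 2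
    obtain ⟨y, hy1, hy2⟩ := Finset.exists_mem_eq_sup' (GG_ne r) (fun y => NN (T0 ∪ T) y n ^ 2)
    have h1 : GG r (T0 ∪ T) n = NN (T0 ∪ T) y n ^ 2 := by
      unfold GG; exact hy2
    have h2 : |NN (T0 ∪ T.filter (· < y)) y n| ^ q ≤
        (Finset.Icc (Y r + 1) (Y (r + 1) + 1)).sup' (Finset.nonempty_Icc.2 hy)
          (fun y => |NN (T0 ∪ T.filter (· < y)) y n| ^ q) :=
      Finset.le_sup' (fun y => |NN (T0 ∪ T.filter (· < y)) y n| ^ q) hy1
    calc GG r (T0 ∪ T) n ^ q = (|NN (T0 ∪ T.filter (· < y)) y n| ^ q) ^ 2 := by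
          rw [h1, hNf, ← sq_abs, ← pow_mul, ← pow_mul, mul_comm]
      _ ≤ _ := pow_le_pow_left₀ (by positivity) h2 2
  · refine mul_le_mul_of_nonneg_left (le_of_eq (av_congr fun T hT => ?_)) (by norm_num)
    show (|NN (T0 ∪ T.filter (· < Y (r + 1) + 1)) (Y (r + 1) + 1) n| ^ q) ^ 2 = _
    rw [hNf, ← pow_mul, mul_comm, pow_mul, sq_abs, ← pow_mul]

end Pool.Agent.Helper96.AF
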