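import Pool.Agent.Helper96.AF.D3a
import Pool.Agent.Helper5.RM.HC4

/-!
# Project AF (MP_a499ba_nt), block D3b

Hypercontractivity. PROOF: `NN_dec` with `y = Y (r+1) + 1`: `NN (T0 ∪ T) y n = ∑_b rf T b * NN T0 (Y r + 1) (n/b)` for `T ⊆ BL r` (`rf_congr`, `NN_congr`), then
`hyper_sqf` with `k = q`, `S = BL r`, `c b = NN T0 (Y r + 1) (n/b)`; and `av_GG_doob`.
-/

set_option autoImplicit false

namespace Pool.Agent.Helper96.AF

open Finset Pool.Agent.Helper5.RM

theorem av_GG (q : ℕ) (hq : 1 ≤ q) (r n : ℕ) (T0 : Finset ℕ) (h0 : T0 ⊆ PP (Y r)) :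
    av (BL r) (fun T => GG r (T0 ∪ T) n ^ q) ≤
      4 * (∑ b ∈ (SB r (Y (r + 1) + 1) n).filter Squarefree,
        (2 * (q : ℝ) - 1) ^ om b * NN T0 (Y r + 1) (n / b) ^ 2) ^ q := by
  refine (av_GG_doob q hq r n T0 h0).trans ?_
  refine mul_le_mul_of_nonneg_left ?_ (by norm_num)
  have hyp := hyper_sqf q hq (BL r) ((SB r (Y (r + 1) + 1) n).filter Squarefree) (fun b hb => by
    rw [Finset.mem_filter, SB, Finset.mem_filter] at hb
    refine ⟨hb.2, fun p hp => ?_⟩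
    rw [mem_BL]
    exact ⟨Nat.prime_of_mem_primeFactors hp, (hb.1.2 p hp).1, Nat.lt_succ_iff.1 (hb.1.2 p hp).2⟩)
    (fun b => ((NN T0 (Y r + 1) (n / b) : ℝ) : ℂ))
  have e1 : av (BL r) (fun T => NN (T0 ∪ T) (Y (r + 1) + 1) n ^ (2 * q)) =
      av (BL r) (fun T => ‖∑ b ∈ (SB r (Y (r + 1) + 1) n).filter Squarefree,
        (rf T b : ℂ) * ((NN T0 (Y r + 1) (n / b) : ℝ) : ℂ)‖ ^ (2 * q)) := by
    refine av_congr fun T hT => ?_
    have hT' : T ⊆ BL r := by simpa using hT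
    have h1 : ∑ b ∈ (SB r (Y (r + 1) + 1) n).filter Squarefree,
        (rf T b : ℂ) * ((NN T0 (Y r + 1) (n / b) : ℝ) : ℂ) =
        ((NN (T0 ∪ T) (Y (r + 1) + 1) n : ℝ) : ℂ) := by
      rw [NN_dec r (Y (r + 1) + 1) n (T0 ∪ T) (Nat.lt_succ_of_le (Y_mono (Nat.le_succ r)))]
      push_cast
      refine Finset.sum_congr rfl fun b hb => ?_
      rw [Finset.mem_filter, SB, Finset.mem_filter] at hb
      have h2 : rf (T0 ∪ T) b = rf T b := by
        refine rf_congr fun p hp => ?_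
        have h3 : p ∉ T0 := fun h => by
          have h4 := (mem_PP.1 (h0 h)).2
          have h5 := (hb.1.2 p hp).1
          omega
        simp [h3]
      have h6 : NN (T0 ∪ T) (Y r + 1) (n / b) = NN T0 (Y r + 1) (n / b) := by
        refine NN_congr fun p _ hp1 _ => ?_
        have h7 : p ∉ T := fun h => by
          have h8 := (mem_BL.1 (hT' h)).2.1
          omega
        simp [h7]
      rw [h2, h6]
    rw [h1, Complex.norm_real, Real.norm_eq_abs, pow_mul, pow_mul, sq_abs]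
  rw [e1]
  refine hyp.trans (le_of_eq ?_)
  congr 1
  refine Finset.sum_congr rfl fun b _ => ?_
  rw [Complex.norm_real, Real.norm_eq_abs, sq_abs]

end Pool.Agent.Helper96.AF
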