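import Pool.Agent.Helper96.AF.D3b
import Pool.Agent.Helper96.AF.D4
import Pool.Agent.Helper96.AF.D5
import Pool.Agent.Helper96.AF.ZI

/-!
# Project AF (MP_a499ba_nt), block D6

PROOF: `minkowski` with `s = Icc 1 Z`, `w n = 1/(n (n+1) 2^r)`, `X n T = GG r (T0 ∪ T) n`, `c n = 4 ∑_b (2q-1)^(om b) NN T0 (Y r+1) (n/b)^2` (`av_GG`, `4 ≤ 4^q`),
then `log_conv` with `w = 2q - 1` and `∏_{p ∈ BL r} (1 + (2q-1)/p) ≤ exp ((2q-1) ∑ 1/p) ≤ exp (c0 (2q-1))` (`block_sum`).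
-/

set_option autoImplicit false

namespace Pool.Agent.Helper96.AF

open Finset Pool.Agent.Helper5.RM

theorem JJ_mom : ∃ c0 : ℝ, 0 ≤ c0 ∧ ∀ (q r Z : ℕ) (T0 : Finset ℕ), 1 ≤ q → T0 ⊆ PP (Y r) →
    av (BL r) (fun T => JJ r Z (T0 ∪ T) ^ q) ≤ (4 * Real.exp (c0 * (2 * q - 1)) * II r Z T0) ^ q := by
  obtain ⟨c0, hc0, hc⟩ := block_sum
  refine ⟨c0, hc0, fun q r Z T0 hq h0 => ?_⟩
  have hqR : (1 : ℝ) ≤ q := by exact_mod_cast hq
  have hw0 : (0 : ℝ) ≤ 2 * (q : ℝ) - 1 := by linarith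
  have hcast : ((2 * q - 1 : ℕ) : ℝ) = 2 * (q : ℝ) - 1 := by
    rw [Nat.cast_sub (by omega)]
    push_cast
    ring
  set g : ℕ → ℝ := fun m => NN T0 (Y r + 1) m ^ 2 with hg
  set cc : ℕ → ℝ := fun n => ∑ b ∈ (SB r (Y (r + 1) + 1) n).filter Squarefree,
        (2 * (q : ℝ) - 1) ^ om b * NN T0 (Y r + 1) (n / b) ^ 2 with hcc
  have hcc0 : ∀ n, 0 ≤ cc n := fun n =>
    Finset.sum_nonneg fun b _ => mul_nonneg (pow_nonneg hw0 _) (sq_nonneg _)
  have hJ : ∀ T, JJ r Z T = ∑ n ∈ Finset.Icc 1 Z, (1 / ((n : ℝ) * (n + 1) * 2 ^ r)) * GG r T n := by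
    intro T
    unfold JJ
    rw [Finset.sum_div]
    refine Finset.sum_congr rfl fun n _ => ?_
    rw [div_div, one_div, div_eq_inv_mul]
  have h1 : av (BL r) (fun T => JJ r Z (T0 ∪ T) ^ q) ≤
      (∑ n ∈ Finset.Icc 1 Z, (1 / ((n : ℝ) * (n + 1) * 2 ^ r)) * (4 * cc n)) ^ q := by
    have h2 := minkowski (ι := ℕ) (BL r) (Finset.Icc 1 Z) q hq (fun n => 1 / ((n : ℝ) * (n + 1) * 2 ^ r))
      (fun n => 4 * cc n) (fun n T => GG r (T0 ∪ T) n) (fun n _ => by positivity)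
      (fun n _ => mul_nonneg (by norm_num) (hcc0 n)) (fun n _ T => GG_nonneg r _ n) (fun n _ => ?_)
    · refine le_of_eq_of_le ?_ h2
      congr 1
      funext T
      rw [hJ]
    · refine (av_GG q hq r n T0 h0).trans ?_
      rw [mul_pow]
      refine mul_le_mul_of_nonneg_right ?_ (pow_nonneg (hcc0 n) q)
      calc (4 : ℝ) = 4 ^ 1 := (pow_one 4).symm
        _ ≤ 4 ^ q := pow_le_pow_right₀ (by norm_num) hq
  refine h1.trans (pow_le_pow_left₀ ?_ ?_ q)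
  · exact Finset.sum_nonneg fun n _ => mul_nonneg (by positivity) (mul_nonneg (by norm_num) (hcc0 n))
  · have h3 := log_conv r Z (2 * q - 1) g (fun n => sq_nonneg _)
    rw [hcast] at h3
    have h4 : ∏ p ∈ BL r, (1 + (2 * (q : ℝ) - 1) / p) ≤ Real.exp (c0 * (2 * q - 1)) := by
      calc ∏ p ∈ BL r, (1 + (2 * (q : ℝ) - 1) / p) ≤ ∏ p ∈ BL r, Real.exp ((2 * (q : ℝ) - 1) / p) := by
            refine Finset.prod_le_prod (fun p _ => ?_) (fun p _ => ?_)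
            · have : 0 ≤ (2 * (q : ℝ) - 1) / p := div_nonneg hw0 (Nat.cast_nonneg p)
              linarith
            · rw [add_comm]
              exact Real.add_one_le_exp _
        _ = Real.exp ((2 * (q : ℝ) - 1) * ∑ p ∈ BL r, (1 : ℝ) / p) := by
            rw [← Real.exp_sum, Finset.mul_sum]
            congr 1
            refine Finset.sum_congr rfl fun p _ => ?_
            rw [mul_one_div]
        _ ≤ Real.exp (c0 * (2 * q - 1)) := by
            rw [mul_comm c0]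
            exact Real.exp_le_exp.2 (mul_le_mul_of_nonneg_left (hc r) hw0)
    have h5 : ∑ n ∈ Finset.Icc 1 Z, (1 / ((n : ℝ) * (n + 1) * 2 ^ r)) * (4 * cc n) =
        4 / 2 ^ r * ∑ n ∈ Finset.Icc 1 Z, cc n / ((n : ℝ) * (n + 1)) := by
      rw [Finset.mul_sum]
      refine Finset.sum_congr rfl fun n _ => ?_
      rw [one_div, mul_inv, div_eq_mul_inv, div_eq_mul_inv]
      ring
    have h6 : 0 ≤ ∑ m ∈ Finset.Icc 1 Z, g m / ((m : ℝ) * (m + 1)) :=
      Finset.sum_nonneg fun m _ => div_nonneg (sq_nonneg _) (by positivity)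
    rw [h5]
    calc 4 / 2 ^ r * ∑ n ∈ Finset.Icc 1 Z, cc n / ((n : ℝ) * (n + 1))
        ≤ 4 / 2 ^ r * (Real.exp (c0 * (2 * q - 1)) * ∑ m ∈ Finset.Icc 1 Z, g m / ((m : ℝ) * (m + 1))) := by
          refine mul_le_mul_of_nonneg_left ?_ (by positivity)
          exact h3.trans (mul_le_mul_of_nonneg_right h4 h6)
      _ = 4 * Real.exp (c0 * (2 * q - 1)) * II r Z T0 := by
          unfold II
          ring

end Pool.Agent.Helper96.AF
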