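import Pool.Agent.Helper5.RM.Defs

/-!
# Project AF (MP_a499ba_nt), definitions

Random model of the Moebius function, `f = mu^2 * ∏ eps_p` (independent signs). Theorem: almost surely
`|∑_{n ≤ x} f n| ≤ C √x (log log x)^(1/4 + δ)`.
-/

set_option autoImplicit false

namespace Pool.Agent.Helper96.AF

open Finset Pool.Agent.Helper5.RM

/-- the levels `Y r = 2^(2^r)` -/
def Y (r : ℕ) : ℕ := 2 ^ 2 ^ r

/-- the primes in `(Y r, Y (r+1)]` -/
noncomputable def BL (r : ℕ) : Finset ℕ := (PP (Y (r + 1))) \ (PP (Y r))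

/-- the integers `1 ≤ n ≤ z` all of whose prime factors are `< y` -/
noncomputable def SM (y z : ℕ) : Finset ℕ := (Finset.Icc 1 z).filter (fun n => ∀ p ∈ n.primeFactors, p < y)

/-- smooth partial sums of the random multiplicative function (primes `< y`) -/
noncomputable def NN (T : Finset ℕ) (y z : ℕ) : ℝ := ∑ n ∈ SM y z, rf T n

/-- partial sums of the random multiplicative function -/
noncomputable def MM (T : Finset ℕ) (N : ℕ) : ℝ := ∑ n ∈ Finset.Icc 1 N, rf T n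

/-- the conditional variance (sum over the largest prime) -/
noncomputable def VR (N : ℕ) (T : Finset ℕ) : ℝ := ∑ p ∈ PP N, NN T p (N / p) ^ 2

lemma Y_pos (r : ℕ) : 0 < Y r := by unfold Y; positivity

lemma Y_mono {r s : ℕ} (h : r ≤ s) : Y r ≤ Y s := by
  unfold Y
  exact Nat.pow_le_pow_right (by norm_num) (Nat.pow_le_pow_right (by norm_num) h)

lemma GG_ne (r : ℕ) : (Finset.Icc (Y r + 1) (Y (r + 1) + 1)).Nonempty :=
  Finset.nonempty_Icc.2 (Nat.succ_le_succ (Y_mono (Nat.le_succ r)))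

/-- the maximum over `y ∈ [Y r + 1, Y (r+1) + 1]` of `NN T y n ^ 2` -/
noncomputable def GG (r : ℕ) (T : Finset ℕ) (n : ℕ) : ℝ :=
  (Finset.Icc (Y r + 1) (Y (r + 1) + 1)).sup' (GG_ne r) (fun y => NN T y n ^ 2)

/-- the logarithmic mean of `GG` -/
noncomputable def JJ (r Z : ℕ) (T : Finset ℕ) : ℝ :=
  (∑ n ∈ Finset.Icc 1 Z, GG r T n / (n * (n + 1))) / 2 ^ r

/-- the logarithmic mean of `NN T (Y r + 1) n ^ 2` -/
noncomputable def II (r Z : ℕ) (T : Finset ℕ) : ℝ :=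
  (∑ n ∈ Finset.Icc 1 Z, NN T (Y r + 1) n ^ 2 / (n * (n + 1))) / 2 ^ r

/-- the coefficients: `|1 + ε p^(-1/2-it)|^2 = (1 + 1/p) (1 + ε th p t)` -/
noncomputable def th (p : ℕ) (t : ℝ) : ℝ := 2 * Real.sqrt p * Real.cos (t * Real.log p) / (p + 1)

/-- the normalised Euler product `|F(1/2+it)|^2 / E|F(1/2+it)|^2` -/
noncomputable def dd (S T : Finset ℕ) (t : ℝ) : ℝ := ∏ p ∈ S, (1 + sg T p * th p t)

/-- the weight -/
noncomputable def ww (t : ℝ) : ℝ := 1 / (2 * Real.pi * (1 / 4 + t ^ 2))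

/-- the total mass of the multiplicative chaos at level `r` -/
noncomputable def DI (r : ℕ) (T : Finset ℕ) : ℝ := ∫ t, dd (PP (Y r)) T t * ww t

/-- the exponential version of `2^(-l) * dd`, used for the barrier -/
noncomputable def hh (l : ℕ) (T : Finset ℕ) (t : ℝ) : ℝ :=
  Real.exp (∑ p ∈ PP (Y l), (sg T p * th p t - th p t ^ 2))

/-- the mean of `hh l T` over the cell `[j / 2^l, (j+1) / 2^l]` -/
noncomputable def UU (l : ℕ) (T : Finset ℕ) (j : ℤ) : ℝ :=
  2 ^ l * ∫ t in ((j : ℝ) / 2 ^ l)..(((j : ℝ) + 1) / 2 ^ l), hh l T t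

/-- the barrier event for the point `t`, levels `1, ..., r` -/
def AA (a : ℝ) (r : ℕ) (T : Finset ℕ) (t : ℝ) : Prop :=
  ∀ l ∈ Finset.Icc 1 r, UU l T ⌊2 ^ l * t⌋ ≤ Real.exp a

/-- averages with respect to the tilted measure: the signs are independent, `E sg T p = θ p` -/
noncomputable def aw (S : Finset ℕ) (θ : ℕ → ℝ) (F : Finset ℕ → ℝ) : ℝ :=
  av S (fun T => (∏ p ∈ S, (1 + sg T p * θ p)) * F T)

open Classical in
/-- the truncated total mass -/
noncomputable def TI (K : ℕ) (a : ℝ) (r : ℕ) (T : Finset ℕ) : ℝ :=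
  ∫ t in (-(K : ℝ))..K, (if AA a r T t then dd (PP (Y r)) T t * ww t else 0)

/-- the mass of `|t| > K` -/
noncomputable def TA (K r : ℕ) (T : Finset ℕ) : ℝ :=
  ∫ t in {t : ℝ | (K : ℝ) < |t|}, dd (PP (Y r)) T t * ww t

end Pool.Agent.Helper96.AF
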