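import Pool.Agent.Helper96.AF.F1
import Pool.Agent.Helper96.AF.C5
import Pool.Agent.Helper96.AF.B1

/-!
# Project AF (MP_a499ba_nt), block F2

The test points. `al k = Nat.clog 2 ((k+2)^15)`: `(k+2)^15 ≤ 2^(al k) ≤ 2 (k+2)^15`. Test points of the octave `k`: the multiples of `2^(k - al k)` in `[2^k, 2^(k+1))`.
PROOF of `card_test`: `2^R` octaves with at most `2^(al k) + 1 ≤ 2^(15 (R+3))` points each (`k + 2 ≤ 2^(R+2)`).
PROOF of `test_as`: `bc` with `M R = Y (R+1)`, twice: (1) `Q R T = ∃ N ∈ TP R, C N ∑ JJ r N T + N/2^R < VR N T` (`VR_bound` with `A = 20`; the event of `N` depends only on `T ∩ PP N`, `av_restrict`);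
(2) `Q R T = ∃ N ∈ TP R, 4 (20 R) v0 + 2 < MM T N ^2 ∧ VR N T ≤ v0`, `v0 = N R^(-1/2+4δ)` (`azumaM`, probability `≤ 2 e^(-20 R)`). Union over `TP R`: `2^(16 R + 45) (2^(-20 R) + 2 e^(-20 R))`, summable.
By (1) and `JJ_as`, `VR N (TT N) ≤ C N R^(-1/2+3δ) + N/2^R ≤ v0` for large `R`, so by (2) `MM^2 ≤ 80 R v0 + 2 ≤ 81 N R^(1/2+4δ)`. (`MM`, `VR`, `JJ` for `TT (Y (R+1))` and `TT N` agree:
`MM_congr`, `NN_congr`, `JJ_congr`.)
-/

set_option autoImplicit false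

namespace Pool.Agent.Helper96.AF

open Finset Pool.Agent.Helper5.RM

open MeasureTheory ProbabilityTheory

noncomputable def al (k : ℕ) : ℕ := Nat.clog 2 ((k + 2) ^ 15)

/-- the test points `N` with `Y R ≤ N < Y (R+1)` -/
noncomputable def TP (R : ℕ) : Finset ℕ :=
  (Finset.Ico (Y R) (Y (R + 1))).filter (fun N => 2 ^ (Nat.log 2 N - al (Nat.log 2 N)) ∣ N)

private lemma al_lt (k : ℕ) : 2 ^ (al k + 1) ≤ 4 * (k + 2) ^ 15 := by
  have h1 : 1 < (k + 2) ^ 15 := by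
    calc 1 < 2 ^ 15 := by norm_num
      _ ≤ (k + 2) ^ 15 := Nat.pow_le_pow_left (by omega) 15
  have h2 : 0 < al k := Nat.clog_pos (by norm_num) (by omega)
  have h3 : 2 ^ (al k).pred < (k + 2) ^ 15 := Nat.pow_pred_clog_lt_self (by norm_num) h1
  have h4 : al k + 1 = (al k).pred + 2 := by
    rw [Nat.pred_eq_sub_one]; omega
  rw [h4, pow_add]
  omega

private lemma TP_log {R N : ℕ} (h : N ∈ TP R) : 2 ^ R ≤ Nat.log 2 N ∧ Nat.log 2 N < 2 ^ (R + 1) := by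
  unfold TP at h
  rw [mem_filter, mem_Ico] at h
  unfold Y at h
  have h0 : N ≠ 0 := by
    intro h0
    have h1 := h.1.1
    have h2 : 0 < 2 ^ 2 ^ R := by positivity
    omega
  constructor
  · exact (Nat.le_log_iff_pow_le (by norm_num) h0).2 h.1.1
  · exact (Nat.log_lt_iff_lt_pow (by norm_num) h0).2 h.1.2

theorem card_test : ∃ R1 : ℕ, ∀ R, R1 ≤ R → ((TP R).card : ℝ) ≤ 2 ^ (16 * R + 46) := by
  refine ⟨0, fun R _ => ?_⟩
  have hsub : TP R ⊆ (Finset.Ico (2 ^ R) (2 ^ (R + 1))).biUnion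
      (fun k => (Finset.range (2 ^ (al k + 1))).image (fun j => 2 ^ (k - al k) * j)) := by
    intro N hN
    have hk := TP_log hN
    rw [mem_biUnion]
    refine ⟨Nat.log 2 N, mem_Ico.2 hk, ?_⟩
    unfold TP at hN
    rw [mem_filter] at hN
    obtain ⟨j, hj⟩ := hN.2
    rw [mem_image]
    refine ⟨j, ?_, hj.symm⟩
    rw [mem_range]
    have h1 : N < 2 ^ (Nat.log 2 N + 1) := Nat.lt_pow_succ_log_self (by norm_num) N
    have h2 : 2 ^ (Nat.log 2 N + 1) ≤ 2 ^ (Nat.log 2 N - al (Nat.log 2 N)) * 2 ^ (al (Nat.log 2 N) + 1) := by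
      rw [← pow_add]
      exact Nat.pow_le_pow_right (by norm_num) (by omega)
    have h3 : 2 ^ (Nat.log 2 N - al (Nat.log 2 N)) * j <
        2 ^ (Nat.log 2 N - al (Nat.log 2 N)) * 2 ^ (al (Nat.log 2 N) + 1) := by
      rw [← hj]
      exact lt_of_lt_of_le h1 h2
    exact Nat.lt_of_mul_lt_mul_left h3
  have h1 : (TP R).card ≤ 2 ^ (16 * R + 46) := by
    refine (card_le_card hsub).trans (card_biUnion_le.trans ?_)
    have h2 : ∀ k ∈ Finset.Ico (2 ^ R) (2 ^ (R + 1)),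
        ((Finset.range (2 ^ (al k + 1))).image (fun j => 2 ^ (k - al k) * j)).card ≤ 2 ^ (15 * R + 32) := by
      intro k hk
      rw [mem_Ico] at hk
      refine (card_image_le).trans ?_
      rw [card_range]
      refine (al_lt k).trans ?_
      have h3 : k + 2 ≤ 2 ^ (R + 2) := by
        have : 2 ^ (R + 2) = 2 ^ (R + 1) + 2 ^ (R + 1) := by ring
        have h4 : 2 ≤ 2 ^ (R + 1) := by
          calc 2 = 2 ^ 1 := by norm_num
            _ ≤ 2 ^ (R + 1) := Nat.pow_le_pow_right (by norm_num) (by omega)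
        omega
      calc 4 * (k + 2) ^ 15 ≤ 2 ^ 2 * (2 ^ (R + 2)) ^ 15 := by
            have := Nat.pow_le_pow_left h3 15
            omega
        _ = 2 ^ (15 * R + 32) := by rw [← pow_mul, ← pow_add]; congr 1; ring
    refine (Finset.sum_le_sum h2).trans ?_
    rw [sum_const, Nat.card_Ico, smul_eq_mul]
    have h5 : 2 ^ (R + 1) - 2 ^ R = 2 ^ R := by
      rw [pow_succ]; omega
    rw [h5, ← pow_add]
    exact Nat.pow_le_pow_right (by norm_num) (by omega)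
  exact_mod_cast h1

/-- probabilities of events which depend on `T ∩ S'` only -/
private lemma pr_restrict {S S' : Finset ℕ} (h : S' ⊆ S) (P : Finset ℕ → Prop) (hP : ∀ T, P T ↔ P (T ∩ S')) :
    pr S P = pr S' P := by
  unfold pr
  refine av_restrict h _ fun T => ?_
  by_cases h1 : P T
  · rw [if_pos h1, if_pos ((hP T).1 h1)]
  · rw [if_neg h1, if_neg (fun h2 => h1 ((hP T).2 h2))]

private lemma VR_congr {N : ℕ} {T T' : Finset ℕ} (h : ∀ p, p.Prime → p ≤ N → (p ∈ T ↔ p ∈ T')) :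
    VR N T = VR N T' := by
  unfold VR
  refine sum_congr rfl fun p _ => ?_
  rw [NN_congr (T := T) (T' := T') fun q hq _ h2 => h q hq (h2.trans (Nat.div_le_self N p))]

private lemma TP_lt {R N : ℕ} (h : N ∈ TP R) : Y R ≤ N ∧ N < Y (R + 1) := by
  unfold TP at h
  rw [mem_filter, mem_Ico] at h
  exact h.1

private lemma sum_inter {N : ℕ} (s : Finset ℕ) (T T' : Finset ℕ) (h : ∀ p, p.Prime → p ≤ N → (p ∈ T ↔ p ∈ T')) :
    ∑ r ∈ s, JJ r N T = ∑ r ∈ s, JJ r N T' :=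
  sum_congr rfl fun _ _ => JJ_congr fun p hp _ h2 => h p hp h2

private lemma pow_div (R : ℕ) : (2 : ℝ) ^ (16 * R + 46) * (1 / 2 ^ (20 * R)) = 2 ^ 46 * (1 / 16) ^ R := by
  have h1 : (2 : ℝ) ^ (20 * R) = 2 ^ (16 * R) * 16 ^ R := by
    rw [show (16 : ℝ) = 2 ^ 4 by norm_num, ← pow_mul, ← pow_add]
    congr 1; ring
  rw [h1, pow_add, one_div_pow]
  field_simp

private lemma ev_ineq (δ C : ℝ) (hδ : 0 < δ) (hδ2 : δ ≤ 1 / 8) : ∃ R2 : ℕ, ∀ R : ℕ, R2 ≤ R → 1 ≤ R ∧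
    C * (R : ℝ) ^ (-(1 / 2) + 3 * δ) + 1 / 2 ^ R ≤ (R : ℝ) ^ (-(1 / 2) + 4 * δ) := by
  have h1 : Filter.Tendsto (fun R : ℕ => (R : ℝ) ^ δ) Filter.atTop Filter.atTop :=
    (tendsto_rpow_atTop hδ).comp tendsto_natCast_atTop_atTop
  obtain ⟨R2, hR2⟩ := Filter.eventually_atTop.1 (h1.eventually_ge_atTop (C + 1))
  refine ⟨max R2 1, fun R hR => ?_⟩
  have h2 := hR2 R (le_of_max_le_left hR)
  have hR1 : 1 ≤ R := le_of_max_le_right hR
  have hR0 : (0 : ℝ) < R := by exact_mod_cast hR1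
  have hR1' : (1 : ℝ) ≤ R := by exact_mod_cast hR1
  refine ⟨hR1, ?_⟩
  have e1 : (R : ℝ) ^ (-(1 / 2) + 4 * δ) = (R : ℝ) ^ δ * (R : ℝ) ^ (-(1 / 2) + 3 * δ) := by
    rw [← Real.rpow_add hR0]; congr 1; ring
  have h3 : (0 : ℝ) < (R : ℝ) ^ (-(1 / 2) + 3 * δ) := Real.rpow_pos_of_pos hR0 _
  have h4 : (1 : ℝ) / 2 ^ R ≤ (R : ℝ) ^ (-(1 / 2) + 3 * δ) := by
    have h5 : (R : ℝ) ^ (-1 : ℝ) ≤ (R : ℝ) ^ (-(1 / 2) + 3 * δ) :=
      Real.rpow_le_rpow_of_exponent_le hR1' (by linarith)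
    refine le_trans ?_ h5
    rw [Real.rpow_neg_one, one_div]
    apply inv_anti₀ hR0
    have : R < 2 ^ R := Nat.lt_two_pow_self
    exact_mod_cast this.le
  rw [e1]
  nlinarith

theorem test_as (δ : ℝ) (hδ : 0 < δ) (hδ2 : δ ≤ 1 / 8) {Ω : Type*} [MeasurableSpace Ω] (μ : Measure Ω)
    (ε : ℕ → Ω → ℝ) (hM : Unif μ ε) :
    ∀ᵐ ω ∂μ, ∃ R0 : ℕ, ∀ R, R0 ≤ R → ∀ N ∈ TP R,
      MM (TT ε ω N) N ^ 2 ≤ 81 * N * (R : ℝ) ^ (1 / 2 + 4 * δ) := by
  obtain ⟨c, R1, C, hC, hV⟩ := VR_bound 20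
  obtain ⟨R3, hcard⟩ := card_test
  have hsumm : Summable (fun R : ℕ => (2 : ℝ) ^ 47 * (1 / 16) ^ R) :=
    (summable_geometric_of_lt_one (by norm_num) (by norm_num)).mul_left _
  -- first event
  have hA := bcU μ ε hM (fun R => Y (R + 1))
    (fun R T => ∃ N ∈ TP R, C * N * (∑ r ∈ Finset.Icc (R - (Nat.log 2 R + c)) R, JJ r N T) + N / 2 ^ R < VR N T)
    (fun R : ℕ => (2 : ℝ) ^ 47 * (1 / 16) ^ R) hsumm (max R1 R3) (by
      intro R hR
      have hR1 : R1 ≤ R := le_of_max_le_left hR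
      have hR3 : R3 ≤ R := le_of_max_le_right hR
      refine (pr_exists _ _ _).trans ?_
      have hb : ∀ N ∈ TP R, pr (PP (Y (R + 1))) (fun T => C * N *
          (∑ r ∈ Finset.Icc (R - (Nat.log 2 R + c)) R, JJ r N T) + N / 2 ^ R < VR N T) ≤ 1 / 2 ^ (20 * R) := by
        intro N hN
        have hN1 := TP_lt hN
        rw [pr_restrict (PP_mono hN1.2.le)]
        · exact hV R N hR1 hN1.1 hN1.2
        · intro T
          have hT : ∀ p, p.Prime → p ≤ N → (p ∈ T ↔ p ∈ T ∩ PP N) := by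
            intro p hp hpN
            rw [mem_inter, mem_PP]
            tauto
          rw [VR_congr hT, sum_inter _ T _ hT]
      refine (sum_le_sum hb).trans ?_
      rw [sum_const, nsmul_eq_mul]
      have h3 := hcard R hR3
      calc ((TP R).card : ℝ) * (1 / 2 ^ (20 * R)) ≤ 2 ^ (16 * R + 46) * (1 / 2 ^ (20 * R)) := by gcongr
        _ = 2 ^ 46 * (1 / 16) ^ R := pow_div R
        _ ≤ 2 ^ 47 * (1 / 16) ^ R := by gcongr <;> norm_num)
  -- second event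
  have hB := bcU μ ε hM (fun R => Y (R + 1))
    (fun R T => ∃ N ∈ TP R, 4 * (20 * (R : ℝ)) * (N * (R : ℝ) ^ (-(1 / 2) + 4 * δ)) + 2 < MM T N ^ 2 ∧
      VR N T ≤ N * (R : ℝ) ^ (-(1 / 2) + 4 * δ))
    (fun R : ℕ => (2 : ℝ) ^ 47 * (1 / 16) ^ R) hsumm (max 1 R3) (by
      intro R hR
      have hR1 : 1 ≤ R := le_of_max_le_left hR
      have hR3 : R3 ≤ R := le_of_max_le_right hR
      have hR0 : (0 : ℝ) < R := by exact_mod_cast hR1
      refine (pr_exists _ _ _).trans ?_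
      have hb : ∀ N ∈ TP R, pr (PP (Y (R + 1))) (fun T =>
          4 * (20 * (R : ℝ)) * (N * (R : ℝ) ^ (-(1 / 2) + 4 * δ)) + 2 < MM T N ^ 2 ∧
          VR N T ≤ N * (R : ℝ) ^ (-(1 / 2) + 4 * δ)) ≤ 2 * (1 / 2 ^ (20 * R)) := by
        intro N hN
        have hN1 := TP_lt hN
        rw [pr_restrict (PP_mono hN1.2.le)]
        · have hN0 : 1 ≤ N := (Y_pos R).trans_le hN1.1
          refine (azumaM N hN0 (20 * R) (N * (R : ℝ) ^ (-(1 / 2) + 4 * δ)) (by positivity) (by positivity)).trans ?_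
          have h5 : Real.exp (-(20 * R)) ≤ 1 / 2 ^ (20 * R) := by
            rw [Real.exp_neg, one_div]
            apply inv_anti₀ (by positivity)
            have h6 : Real.exp (20 * (R : ℝ)) = Real.exp 1 ^ (20 * R) := by
              rw [← Real.exp_nat_mul]; congr 1; push_cast; ring
            rw [h6]
            exact pow_le_pow_left₀ (by norm_num) (by have := Real.exp_one_gt_d9; linarith) _
          linarith
        · intro T
          have hT : ∀ p, p.Prime → p ≤ N → (p ∈ T ↔ p ∈ T ∩ PP N) := by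
            intro p hp hpN
            rw [mem_inter, mem_PP]
            tauto
          rw [VR_congr hT, MM_congr hT]
      refine (sum_le_sum hb).trans ?_
      rw [sum_const, nsmul_eq_mul]
      have h3 := hcard R hR3
      calc ((TP R).card : ℝ) * (2 * (1 / 2 ^ (20 * R))) ≤ 2 ^ (16 * R + 46) * (2 * (1 / 2 ^ (20 * R))) := by gcongr
        _ = 2 * (2 ^ (16 * R + 46) * (1 / 2 ^ (20 * R))) := by ring
        _ = 2 * (2 ^ 46 * (1 / 16) ^ R) := by rw [pow_div R]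
        _ = 2 ^ 47 * (1 / 16) ^ R := by ring)
  have hJ := JJ_as δ hδ hδ2 c μ ε hM
  obtain ⟨R4, hR4⟩ := ev_ineq δ C hδ hδ2
  filter_upwards [hA, hB, hJ] with ω ⟨RA, hA⟩ ⟨RB, hB⟩ ⟨RJ, hJ⟩
  refine ⟨max (max RA RB) (max RJ R4), fun R hR N hN => ?_⟩
  have hRA : RA ≤ R := (le_max_left _ _).trans ((le_max_left _ _).trans hR)
  have hRB : RB ≤ R := (le_max_right _ _).trans ((le_max_left _ _).trans hR)
  have hRJ : RJ ≤ R := (le_max_left _ _).trans ((le_max_right _ _).trans hR)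
  have hRR : R4 ≤ R := (le_max_right _ _).trans ((le_max_right _ _).trans hR)
  have hN1 := TP_lt hN
  have hT : ∀ p, p.Prime → p ≤ N → (p ∈ TT ε ω (Y (R + 1)) ↔ p ∈ TT ε ω N) := by
    intro p hp hpN
    unfold TT
    rw [mem_filter, mem_filter, mem_PP, mem_PP]
    have : p ≤ Y (R + 1) := hpN.trans hN1.2.le
    tauto
  have a1 := hA R hRA
  have a2 := hB R hRB
  have a3 := hJ R hRJ N hN1.2.le
  obtain ⟨hR1, a4⟩ := hR4 R hRR
  have hN0 : 1 ≤ N := (Y_pos R).trans_le hN1.1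
  have hN0' : (0 : ℝ) < N := by exact_mod_cast hN0
  have hN2 : 2 ≤ N := (two_le_Y R).trans hN1.1
  have hN2' : (2 : ℝ) ≤ N := by exact_mod_cast hN2
  have hR0 : (0 : ℝ) < R := by exact_mod_cast hR1
  push Not at a1 a2
  have b1 := a1 N hN
  rw [VR_congr hT, sum_inter _ _ _ hT] at b1
  have b2 := a2 N hN
  rw [VR_congr hT, MM_congr hT] at b2
  have b3 : VR N (TT ε ω N) ≤ N * (R : ℝ) ^ (-(1 / 2) + 4 * δ) := by
    refine b1.trans ?_
    have h5 : C * N * (∑ r ∈ Finset.Icc (R - (Nat.log 2 R + c)) R, JJ r N (TT ε ω N)) ≤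
        C * N * (R : ℝ) ^ (-(1 / 2) + 3 * δ) := by gcongr
    have h6 : C * N * (R : ℝ) ^ (-(1 / 2) + 3 * δ) + N / 2 ^ R =
        N * (C * (R : ℝ) ^ (-(1 / 2) + 3 * δ) + 1 / 2 ^ R) := by ring
    calc _ ≤ C * N * (R : ℝ) ^ (-(1 / 2) + 3 * δ) + N / 2 ^ R := by gcongr
      _ = N * (C * (R : ℝ) ^ (-(1 / 2) + 3 * δ) + 1 / 2 ^ R) := h6
      _ ≤ _ := by gcongr
  have b4 : MM (TT ε ω N) N ^ 2 ≤ 4 * (20 * (R : ℝ)) * (N * (R : ℝ) ^ (-(1 / 2) + 4 * δ)) + 2 := by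
    by_contra h
    rw [not_le] at h
    exact absurd (b2 h) (not_lt.2 b3)
  refine b4.trans ?_
  have h7 : (R : ℝ) * (R : ℝ) ^ (-(1 / 2) + 4 * δ) = (R : ℝ) ^ (1 / 2 + 4 * δ) := by
    nth_rewrite 1 [← Real.rpow_one (R : ℝ)]
    rw [← Real.rpow_add hR0]; congr 1; ring
  have h8 : (1 : ℝ) ≤ (R : ℝ) ^ (1 / 2 + 4 * δ) :=
    Real.one_le_rpow (by exact_mod_cast hR1) (by positivity)
  calc 4 * (20 * (R : ℝ)) * (N * (R : ℝ) ^ (-(1 / 2) + 4 * δ)) + 2 =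
      80 * N * ((R : ℝ) * (R : ℝ) ^ (-(1 / 2) + 4 * δ)) + 2 := by ring
    _ = 80 * N * (R : ℝ) ^ (1 / 2 + 4 * δ) + 2 := by rw [h7]
    _ ≤ 80 * N * (R : ℝ) ^ (1 / 2 + 4 * δ) + N * (R : ℝ) ^ (1 / 2 + 4 * δ) := by nlinarith
    _ = 81 * N * (R : ℝ) ^ (1 / 2 + 4 * δ) := by ring

end Pool.Agent.Helper96.AF
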