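import Pool.Agent.Helper96.AF.Bas

/-!
# Project AF (MP_a499ba_nt), block N1

Sum over the largest prime factor. PROOF: squarefree `n ≥ 2` is `p * m` in a unique way with `p` its largest prime
factor and all primes of `m` smaller than `p`; `rf T (p * m) = rf T p * rf T m = sg T p * rf T m` (`rf_mul`, `p ∤ m`).
For `n` not squarefree `rf T n = 0`. The map `(p, m) ↦ p * m` from `{(p, m) : p ∈ PP N, m ∈ SM p (N/p)}` is injective
(largest prime factor) and its image contains all squarefree `2 ≤ n ≤ N`.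
-/

set_option autoImplicit false

namespace Pool.Agent.Helper96.AF

open Finset Pool.Agent.Helper5.RM

private lemma n1_cop {p m : ℕ} (hp : p.Prime) (hm1 : 1 ≤ m) (hm : ∀ q ∈ m.primeFactors, q < p) :
    Nat.Coprime p m :=
  (Nat.Prime.coprime_iff_not_dvd hp).2 fun h => lt_irrefl p (hm p (Nat.mem_primeFactors.2 ⟨hp, h, by omega⟩))

private lemma n1_le {p m p' m' : ℕ} (hp' : p'.Prime) (hp : p.Prime) (hm1 : 1 ≤ m)
    (hm : ∀ q ∈ m.primeFactors, q < p) (h : p * m = p' * m') : p' ≤ p := by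
  have h1 : p' ∣ p * m := by rw [h]; exact Dvd.intro m' rfl
  rcases (Nat.Prime.dvd_mul hp').1 h1 with h2 | h2
  · exact Nat.le_of_dvd hp.pos h2
  · exact (hm p' (Nat.mem_primeFactors.2 ⟨hp', h2, by omega⟩)).le

private lemma n1_inj {p m p' m' : ℕ} (hp : p.Prime) (hm1 : 1 ≤ m) (hm : ∀ q ∈ m.primeFactors, q < p)
    (hp' : p'.Prime) (hm1' : 1 ≤ m') (hm' : ∀ q ∈ m'.primeFactors, q < p') (h : p * m = p' * m') :
    p = p' ∧ m = m' := by
  have e : p = p' := le_antisymm (n1_le hp hp' hm1' hm' h.symm) (n1_le hp' hp hm1 hm h)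
  subst e
  exact ⟨rfl, Nat.eq_of_mul_eq_mul_left hp.pos h⟩

private lemma n1_rf {T : Finset ℕ} {p m : ℕ} (hp : p.Prime) (hm1 : 1 ≤ m) (hm : ∀ q ∈ m.primeFactors, q < p) :
    rf T (p * m) = sg T p * rf T m := by
  rw [rf_mul (n1_cop hp hm1 hm), rf_sqf hp.squarefree, hp.primeFactors]
  simp [wal]

private lemma n1_mem {p N m : ℕ} (hp : p.Prime) (h : m ≤ N / p) : p * m ≤ N := by
  have := (Nat.le_div_iff_mul_le hp.pos).1 h
  rw [mul_comm]
  exact this

theorem MM_eq (T : Finset ℕ) (N : ℕ) (hN : 1 ≤ N) :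
    MM T N = 1 + ∑ p ∈ PP N, sg T p * NN T p (N / p) := by
  have h0 : Finset.Icc 1 N = insert 1 (Finset.Icc 2 N) := by
    ext n
    simp only [Finset.mem_Icc, Finset.mem_insert]
    omega
  have h00 : (1 : ℕ) ∉ Finset.Icc 2 N := by simp
  have h1 : ∑ p ∈ PP N, sg T p * NN T p (N / p) =
      ∑ a ∈ (PP N).sigma (fun p => SM p (N / p)), sg T a.1 * rf T a.2 := by
    rw [Finset.sum_sigma]
    refine Finset.sum_congr rfl fun p _ => ?_
    rw [NN, Finset.mul_sum]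
  unfold MM
  rw [h0, Finset.sum_insert h00, rf_one, h1]
  congr 1
  symm
  refine Finset.sum_bij_ne_zero (fun a _ _ => a.1 * a.2) ?_ ?_ ?_ ?_
  · rintro ⟨p, m⟩ ha _
    rw [Finset.mem_sigma, mem_PP, mem_SM] at ha
    obtain ⟨⟨hp, _⟩, ⟨hm1, hm2⟩, hm⟩ := ha
    rw [Finset.mem_Icc]
    exact ⟨le_trans hp.two_le (Nat.le_mul_of_pos_right p hm1), n1_mem hp hm2⟩
  · rintro ⟨p, m⟩ ha _ ⟨p', m'⟩ ha' _ h
    rw [Finset.mem_sigma, mem_PP, mem_SM] at ha ha'
    obtain ⟨⟨hp, _⟩, ⟨hm1, hm2⟩, hm⟩ := ha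
    obtain ⟨⟨hp', _⟩, ⟨hm1', hm2'⟩, hm'⟩ := ha'
    obtain ⟨e1, e2⟩ := n1_inj hp hm1 hm hp' hm1' hm' h
    dsimp only at e1 e2
    rw [e1, e2]
  · intro n hn h
    rw [Finset.mem_Icc] at hn
    have hs : Squarefree n := by
      by_contra hc
      exact h (rf_not hc)
    have hne : n.primeFactors.Nonempty := Nat.nonempty_primeFactors.2 (by omega)
    set p := n.primeFactors.max' hne with hp0
    have hpm : p ∈ n.primeFactors := Finset.max'_mem _ hne
    have hp : p.Prime := Nat.prime_of_mem_primeFactors hpm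
    obtain ⟨m, hm⟩ := Nat.dvd_of_mem_primeFactors hpm
    have hm1 : 1 ≤ m := by
      rcases Nat.eq_zero_or_pos m with h2 | h2
      · rw [h2] at hm; omega
      · exact h2
    have hm3 : ∀ q ∈ m.primeFactors, q < p := by
      intro q hq
      have hqn : q ∈ n.primeFactors := by
        rw [Nat.mem_primeFactors] at hq ⊢
        refine ⟨hq.1, ?_, by omega⟩
        rw [hm]
        exact Dvd.dvd.mul_left hq.2.1 p
      have hle : q ≤ p := Finset.le_max' _ q hqn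
      refine lt_of_le_of_ne hle fun e => ?_
      have h3 : p * p ∣ n := by
        rw [hm]
        refine mul_dvd_mul_left p ?_
        rw [← e]
        exact Nat.dvd_of_mem_primeFactors hq
      exact hp.one_lt.ne' (Nat.isUnit_iff.1 (hs p h3))
    have hle : p * m ≤ N := by rw [← hm]; exact hn.2
    have hmem : (⟨p, m⟩ : (_ : ℕ) × ℕ) ∈ (PP N).sigma (fun p => SM p (N / p)) := by
      rw [Finset.mem_sigma, mem_PP, mem_SM]
      refine ⟨⟨hp, le_trans (Nat.le_mul_of_pos_right p hm1) hle⟩, ⟨hm1, ?_⟩, hm3⟩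
      rw [Nat.le_div_iff_mul_le hp.pos, mul_comm]
      exact hle
    refine ⟨⟨p, m⟩, hmem, ?_, ?_⟩
    · rw [← n1_rf hp hm1 hm3, ← hm]
      exact h
    · exact hm.symm
  · rintro ⟨p, m⟩ ha _
    rw [Finset.mem_sigma, mem_PP, mem_SM] at ha
    obtain ⟨⟨hp, _⟩, ⟨hm1, hm2⟩, hm⟩ := ha
    exact (n1_rf hp hm1 hm).symm

/-- the numbers counted in two ways -/
theorem card_eq (y N : ℕ) :
    ∑ p ∈ PP y, (((SM p (N / p)).filter Squarefree).card : ℝ) ≤
      (((Finset.Icc 1 N).filter (fun n => Squarefree n ∧ ∀ p ∈ n.primeFactors, p ≤ y)).card : ℝ) := by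
  have h1 : ∑ p ∈ PP y, (((SM p (N / p)).filter Squarefree).card : ℝ) =
      (((PP y).sigma (fun p => (SM p (N / p)).filter Squarefree)).card : ℝ) := by
    rw [Finset.card_sigma]
    push_cast
    rfl
  rw [h1, Nat.cast_le]
  refine Finset.card_le_card_of_injOn (fun a => a.1 * a.2) ?_ ?_
  · rintro ⟨p, m⟩ ha
    rw [Finset.mem_coe, Finset.mem_sigma, mem_PP, Finset.mem_filter, mem_SM] at ha
    obtain ⟨⟨hp, hpy⟩, ⟨⟨hm1, hm2⟩, hm⟩, hs⟩ := ha
    dsimp only at hp hpy hm1 hm2 hm hs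
    rw [Finset.mem_coe, Finset.mem_filter, Finset.mem_Icc]
    dsimp only
    refine ⟨⟨Nat.mul_pos hp.pos hm1, n1_mem hp hm2⟩, ?_, ?_⟩
    · exact (Nat.squarefree_mul (n1_cop hp hm1 hm)).2 ⟨hp.squarefree, hs⟩
    · intro q hq
      rw [(n1_cop hp hm1 hm).primeFactors_mul, Finset.mem_union, hp.primeFactors, Finset.mem_singleton] at hq
      rcases hq with hq | hq
      · rw [hq]; exact hpy
      · exact (hm q hq).le.trans hpy
  · rintro ⟨p, m⟩ ha ⟨p', m'⟩ ha' h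
    rw [Finset.mem_coe, Finset.mem_sigma, mem_PP, Finset.mem_filter, mem_SM] at ha ha'
    obtain ⟨⟨hp, _⟩, ⟨⟨hm1, _⟩, hm⟩, _⟩ := ha
    obtain ⟨⟨hp', _⟩, ⟨⟨hm1', _⟩, hm'⟩, _⟩ := ha'
    obtain ⟨e1, e2⟩ := n1_inj hp hm1 hm hp' hm1' hm' h
    dsimp only at e1 e2
    rw [e1, e2]

end Pool.Agent.Helper96.AF
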